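import Pool.Agent.NH4.ZS.Stm

/-!
# Project ZS: the Picard group of the surface
-/

set_option autoImplicit false

namespace Pool.Agent.NH4.ZS

namespace Clf68

theorem unit_ZN {N p : ℕ} (h : p ∣ N) : IsUnit (p : ZN N) := by
  have h1 : IsUnit (algebraMap ℤ (ZN N) (N : ℤ)) := IsLocalization.Away.algebraMap_isUnit (N : ℤ)
  have h2 : (algebraMap ℤ (ZN N) (N : ℤ)) = ((N : ℕ) : ZN N) := by
    rw [map_natCast]
  rw [h2] at h1
  exact isUnit_of_dvd_unit (Nat.cast_dvd_cast h) h1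

theorem unit_RN {N p : ℕ} (a b : ℤ) (h : p ∣ N) : IsUnit (p : RN N a b) := by
  have h1 := (unit_ZN h).map (algebraMap (ZN N) (RN N a b))
  rwa [map_natCast] at h1

theorem unit_RQ (a b : ℤ) {n : ℤ} (h : n ≠ 0) : IsUnit (n : RQ a b) := by
  have h1 : IsUnit ((n : ℤ) : ℚ) := isUnit_iff_ne_zero.2 (Int.cast_ne_zero.2 h)
  have h2 := h1.map (algebraMap ℚ (RQ a b))
  rwa [map_intCast] at h2

end Clf68

open Clf68

theorem t_CLF (hP : S_PRM) (hG : S_GEN) (hV : S_VRT) (hQ : S_CLQ) : S_CLF := by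
  intro N a b hN hd hf
  have hdom := dom_RN hN a b
  obtain ⟨ι, hinj, hsur, _⟩ := hG N a b hN
  let _ : Algebra (RN N a b) (RQ a b) := ι.toAlgebra
  have hcQ : CharZero (RQ a b) := algebraRat.charZero (RQ a b)
  have hc : CharZero (RN N a b) := ι.charZero
  have h := hV (RN N a b) (RQ a b) hinj hsur (fun n hn => unit_RQ a b hn) (fun p hp => by
    by_cases h : p ∣ N
    · exact Or.inr (unit_RN a b h)
    · left
      have : Fact p.Prime := ⟨hp⟩
      obtain ⟨π, _, hk⟩ := hP N a b p hN hp h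
      rw [← hk]
      exact RingHom.ker_isPrime π)
  have hfc : Finite (ClassGroup (RQ a b)) := hQ a b hd hf
  have hfp : Finite (CommRing.Pic (RQ a b)) := Finite.of_equiv _ (ClassGroup.equivPic (RQ a b)).toEquiv
  exact Finite.of_injective _ h

end Pool.Agent.NH4.ZS
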