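import Pool.Agent.NH4.ZS.Stm
import Pool.Agent.X261.BC.Ell

/-!
# ZS-CLQ: the class group over the rational numbers
-/

set_option autoImplicit false

namespace Pool.Agent.NH4.ZS

theorem t_CLQ (h : S_DED) : S_CLQ := by
  intro a b hab hfin
  obtain ⟨h1, h2, -⟩ := h ℚ (a : ℚ) (b : ℚ) two_ne_zero (by exact_mod_cast hab)
  have := h1
  have hs := Pool.Agent.X261.BC.toClass_surj (W := wc (a : ℚ) (b : ℚ)) h2
  have h3 : Finite (Additive (ClassGroup (wc (a : ℚ) (b : ℚ)).CoordinateRing)) :=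
    Finite.of_surjective _ hs
  exact h3

end Pool.Agent.NH4.ZS

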