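import Pool.Agent.NH4.ZS.Stm
import Pool.Agent.NH4.ZS.EllB

/-!
# The number of the ideals of degree `n` of the coordinate ring of an elliptic curve
-/

set_option autoImplicit false
set_option linter.all false

open Polynomial IsDedekindDomain
open scoped nonZeroDivisors Classical

namespace Pool.Agent.NH4.ZS

namespace CntP

open WeierstrassCurve.Affine WeierstrassCurve.Affine.CoordinateRing Pool.Agent.NH4.ZS.EllB

variable {k : Type} [Field k] {W : WeierstrassCurve.Affine k}

/-- the ideal of a point -/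
noncomputable def JP : W.Point → Ideal W.CoordinateRing
  | Point.zero => ⊤
  | Point.some x y _ => XYIdeal W x (C y)

/-- the degree of this ideal -/
def dP : W.Point → ℕ
  | Point.zero => 0
  | Point.some _ _ _ => 1

theorem JP_ne_bot (P : W.Point) : JP P ≠ ⊥ := by
  rcases P with _ | ⟨x, y, h⟩
  · exact top_ne_bot
  · intro h0
    have h1 : XClass W x ∈ XYIdeal W x (C y) := Ideal.subset_span (by simp)
    have h2 : XClass W x ∈ (⊥ : Ideal W.CoordinateRing) := by
      rw [← h0]
      exact h1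
    exact XClass_ne_zero (W' := W) x ((Submodule.mem_bot _).1 h2)

theorem JP_finrank (P : W.Point) : Module.finrank k (W.CoordinateRing ⧸ JP P) = dP P := by
  rcases P with _ | ⟨x, y, h⟩
  · show Module.finrank k (W.CoordinateRing ⧸ (⊤ : Ideal W.CoordinateRing)) = 0
    have : Subsingleton (W.CoordinateRing ⧸ (⊤ : Ideal W.CoordinateRing)) :=
      Ideal.Quotient.subsingleton_iff.2 rfl
    exact Module.finrank_zero_of_subsingleton
  · show Module.finrank k (W.CoordinateRing ⧸ XYIdeal W x (C y)) = 1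
    have e := quotientXYIdealEquiv (W' := W) (x := x) (y := C y) (by exact h.left)
    rw [e.toLinearEquiv.finrank_eq, Module.finrank_self]

section ded

variable [IsDedekindDomain W.CoordinateRing]

theorem mk0_JP (P : W.Point) (h : JP P ∈ (Ideal W.CoordinateRing)⁰) :
    Additive.ofMul (ClassGroup.mk0 ⟨JP P, h⟩) = Point.toClass P := by
  rcases P with _ | ⟨x, y, hns⟩
  · have e : Point.toClass (Point.zero : W.Point) = 0 := map_zero _
    rw [e]
    show Additive.ofMul (ClassGroup.mk0 _) = Additive.ofMul 1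
    congr 1
    exact (ClassGroup.mk0_eq_one_iff _).2 ⟨⟨1, by
      show (⊤ : Ideal W.CoordinateRing) = _
      simp⟩⟩
  · rw [Point.toClass_some, ← ClassGroup.mk_mk0 W.FunctionField]
    have h5 : XYIdeal' hns = FractionalIdeal.mk0 W.FunctionField ⟨JP (Point.some x y hns), h⟩ := by
      apply Units.ext
      rw [XYIdeal'_eq, FractionalIdeal.coe_mk0]
      rfl
    rw [h5]
    rfl

/-- products with the ideal of a point -/
theorem prin_iff {I : Ideal W.CoordinateRing} (hI : I ≠ ⊥) (P : W.Point) :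
    (I * JP P).IsPrincipal ↔
      Additive.ofMul (ClassGroup.mk0 ⟨I, mem_nonZeroDivisors_of_ne_zero hI⟩) + Point.toClass P = 0 := by
  rw [← mk0_JP P (mem_nonZeroDivisors_of_ne_zero (JP_ne_bot P)), ← ofMul_mul, ← map_mul,
    ← ofMul_one]
  rw [Additive.ofMul.injective.eq_iff, ClassGroup.mk0_eq_one_iff]
  rfl

theorem exists_P (hns0 : ∀ x y : k, W.Equation x y → W.Nonsingular x y)
    {I : Ideal W.CoordinateRing} (hI : I ≠ ⊥) : ∃ (P : W.Point) (g : W.CoordinateRing),
    I * JP P = Ideal.span {g} := by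
  obtain ⟨P, hP⟩ := toClass_surj (W := W) hns0
    (-(Additive.ofMul (ClassGroup.mk0 ⟨I, mem_nonZeroDivisors_of_ne_zero hI⟩)))
  have h1 : (I * JP P).IsPrincipal := (prin_iff hI P).2 (by rw [hP, add_neg_cancel])
  obtain ⟨⟨g, hg⟩⟩ := h1
  exact ⟨P, g, hg⟩

theorem unique_P {I : Ideal W.CoordinateRing} (hI : I ≠ ⊥) {P P' : W.Point}
    {g g' : W.CoordinateRing} (h : I * JP P = Ideal.span {g}) (h' : I * JP P' = Ideal.span {g'}) :
    P = P' := by
  have h1 := (prin_iff hI P).1 ⟨⟨g, h⟩⟩
  have h2 := (prin_iff hI P').1 ⟨⟨g', h'⟩⟩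
  exact Point.toClass_injective (add_left_cancel (h1.trans h2.symm))

/-- two generators differ by a constant -/
theorem gen_const {g g' : W.CoordinateRing} (h : Ideal.span {g} = Ideal.span {g'}) :
    ∃ c : kˣ, g' = (c : k) • g := by
  obtain ⟨u, hu⟩ := Ideal.span_singleton_eq_span_singleton.1 h
  obtain ⟨c, hc⟩ := unit_const u
  have hc0 : c ≠ 0 := by
    rintro rfl
    rw [map_zero] at hc
    exact u.ne_zero hc
  refine ⟨Units.mk0 c hc0, ?_⟩
  rw [← hu, hc, Units.val_mk0, Algebra.smul_def, mul_comm]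

theorem span_smul (g : W.CoordinateRing) (c : kˣ) :
    Ideal.span {(c : k) • g} = Ideal.span {g} := by
  rw [Algebra.smul_def]
  refine Ideal.span_singleton_mul_left_unit ?_ g
  exact (c.isUnit).map (algebraMap k W.CoordinateRing)

/-- the functions -/
def GP (W : WeierstrassCurve.Affine k) (n : ℕ) (P : W.Point) (g : W.CoordinateRing) : Prop :=
  g ≠ 0 ∧ (Algebra.norm k[X] g).natDegree = n + dP P ∧ g ∈ JP P

theorem GP_iff {n : ℕ} {P : W.Point} {g : W.CoordinateRing} {I : Ideal W.CoordinateRing}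
    (hI : I ≠ ⊥) (h : I * JP P = Ideal.span {g}) :
    GP W n P g ↔ Module.finrank k (W.CoordinateRing ⧸ I) = n := by
  have hg0 : g ≠ 0 := by
    rintro rfl
    rw [Ideal.span_singleton_eq_bot.2 rfl] at h
    rcases mul_eq_zero.1 (show I * JP P = 0 from h) with h1 | h1
    · exact hI h1
    · exact JP_ne_bot P h1
  have hsp : Ideal.span {g} ≠ (⊥ : Ideal W.CoordinateRing) :=
    fun h0 => hg0 (Ideal.span_singleton_eq_bot.1 h0)
  have := finite_quot hsp
  have h1 := codim_mul (k := k) hg0 h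
  rw [finrank_quotient_span_eq_natDegree_norm (CoordinateRing.basis W) hg0, JP_finrank] at h1
  have h2 : g ∈ JP P := by
    have h3 : Ideal.span {g} ≤ JP P := by
      rw [← h]
      exact Ideal.mul_le_right
    exact h3 (Ideal.mem_span_singleton_self g)
  unfold GP
  constructor
  · rintro ⟨-, h3, -⟩
    omega
  · intro h3
    exact ⟨hg0, by omega, h2⟩

/-- the bijection -/
theorem equiv (hns0 : ∀ x y : k, W.Equation x y → W.Nonsingular x y) (n : ℕ) :
    Nonempty ({I : Ideal W.CoordinateRing // I ≠ ⊥ ∧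
      Module.finrank k (W.CoordinateRing ⧸ I) = n} × kˣ ≃ Σ P : W.Point, {g // GP W n P g}) := by
  choose! fP fg hfg using fun (I : Ideal W.CoordinateRing) (hI : I ≠ ⊥) => exists_P hns0 hI
  refine ⟨(Equiv.ofBijective (fun z : {I : Ideal W.CoordinateRing // I ≠ ⊥ ∧
      Module.finrank k (W.CoordinateRing ⧸ I) = n} × kˣ =>
        (⟨(fP z.1.1, (z.2 : k) • fg z.1.1), ?_⟩ :
          {x : W.Point × W.CoordinateRing // GP W n x.1 x.2})) ⟨?_, ?_⟩).trans
      (Equiv.subtypeProdEquivSigmaSubtype fun P g => GP W n P g)⟩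
  · have h1 := hfg z.1.1 z.1.2.1
    exact (GP_iff z.1.2.1 (h1.trans (span_smul _ _).symm)).2 z.1.2.2
  · rintro ⟨⟨I, hI⟩, c⟩ ⟨⟨I', hI'⟩, c'⟩ h
    have h0 := Subtype.ext_iff.1 h
    simp only [Prod.mk.injEq] at h0
    obtain ⟨h1, h2⟩ := h0
    have h3 := hfg I hI.1
    have h4 := hfg I' hI'.1
    have h5 : I * JP (fP I) = I' * JP (fP I) := by
      rw [h3, ← span_smul (fg I) c, h2, span_smul, ← h4, h1]
    have h6 : I = I' := mul_right_cancel₀ (JP_ne_bot (fP I)) h5
    subst h6
    have h7 : fg I ≠ 0 := ((GP_iff (n := n) hI.1 h3).2 hI.2).1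
    have h8 : (c : k) = c' := smul_left_injective k h7 h2
    rw [Units.ext h8]
  · rintro ⟨⟨P, g⟩, hg⟩
    have hg' : GP W n P g := hg
    obtain ⟨I, hI⟩ := Ideal.dvd_iff_le.2 ((Ideal.span_singleton_le_iff_mem _).2 hg'.2.2)
    have hI' : I * JP P = Ideal.span {g} := by rw [mul_comm, ← hI]
    have hI0 : I ≠ ⊥ := by
      rintro rfl
      rw [Ideal.mul_bot] at hI
      exact hg'.1 (Ideal.span_singleton_eq_bot.1 hI)
    have h1 := hfg I hI0
    have hP : fP I = P := unique_P hI0 h1 hI'
    rw [hP] at h1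
    obtain ⟨c, hc⟩ := gen_const (h1.symm.trans hI')
    refine ⟨(⟨I, hI0, (GP_iff hI0 hI').1 hg'⟩, c), ?_⟩
    apply Subtype.ext
    show (fP I, (c : k) • fg I) = (P, g)
    rw [hP, ← hc]

end ded

/-- the functions with bounded degree of the norm -/
theorem count {J : Set W.CoordinateRing} {q m : ℕ} {A B : ℕ}
    (h1 : Nat.card {g : W.CoordinateRing // ((Algebra.norm k[X] g).natDegree ≤ m + 1 ∨ g = 0) ∧ g ∈ J} = A)
    (h2 : Nat.card {g : W.CoordinateRing // ((Algebra.norm k[X] g).natDegree ≤ m ∨ g = 0) ∧ g ∈ J} = B)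
    (hA : A ≠ 0) (hB : B ≠ 0) :
    Nat.card {g : W.CoordinateRing // g ≠ 0 ∧ (Algebra.norm k[X] g).natDegree = m + 1 ∧ g ∈ J} = A - B ∧
    Finite {g : W.CoordinateRing // g ≠ 0 ∧ (Algebra.norm k[X] g).natDegree = m + 1 ∧ g ∈ J} := by
  set SA : Set W.CoordinateRing := {g | ((Algebra.norm k[X] g).natDegree ≤ m + 1 ∨ g = 0) ∧ g ∈ J} with hSA
  set SB : Set W.CoordinateRing := {g | ((Algebra.norm k[X] g).natDegree ≤ m ∨ g = 0) ∧ g ∈ J} with hSB
  set SC : Set W.CoordinateRing := {g | g ≠ 0 ∧ (Algebra.norm k[X] g).natDegree = m + 1 ∧ g ∈ J} with hSC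
  have e1 : SA.ncard = A := h1
  have e2 : SB.ncard = B := h2
  have hfA : SA.Finite := Set.finite_of_ncard_ne_zero (by rw [e1]; exact hA)
  have hsub : SB ⊆ SA := by
    rintro g ⟨hg | hg, hgJ⟩
    · exact ⟨Or.inl (by omega), hgJ⟩
    · exact ⟨Or.inr hg, hgJ⟩
  have hC : SC = SA \ SB := by
    ext g
    simp only [hSA, hSB, hSC, Set.mem_setOf_eq, Set.mem_diff, not_and_or, not_or, not_le]
    constructor
    · rintro ⟨h3, h4, h5⟩
      exact ⟨⟨Or.inl h4.le, h5⟩, Or.inl ⟨by omega, h3⟩⟩
    · rintro ⟨⟨h3, h4⟩, h5⟩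
      rcases h5 with ⟨h5, h6⟩ | h5
      · rcases h3 with h3 | h3
        · exact ⟨h6, by omega, h4⟩
        · exact absurd h3 h6
      · exact absurd h4 h5
  have hfC : SC.Finite := by
    rw [hC]
    exact hfA.diff
  refine ⟨?_, hfC.to_subtype⟩
  show SC.ncard = A - B
  rw [hC, Set.ncard_diff hsub (hfA.subset hsub), e1, e2]

theorem eqn (a b x y : k) : (wc a b).Equation x y ↔ y ^ 2 = x ^ 3 + a * x + b := by
  rw [WeierstrassCurve.Affine.equation_iff]
  simp [wc]

theorem pt_equiv (a b : k) (hns : ∀ x y : k, (wc a b).Equation x y → (wc a b).Nonsingular x y) :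
    Nonempty ((wc a b).Point ≃ Option {z : k × k // z.2 ^ 2 = z.1 ^ 3 + a * z.1 + b}) := by
  refine ⟨{ toFun := fun P => match P with
              | Point.zero => none
              | Point.some x y h => some ⟨(x, y), (eqn a b x y).1 h.left⟩
            invFun := fun z => match z with
              | none => Point.zero
              | some z => Point.some z.1.1 z.1.2 (hns _ _ ((eqn a b _ _).2 z.2))
            left_inv := ?_
            right_inv := ?_ }⟩
  · rintro (_ | ⟨x, y, h⟩)
    · rfl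
    · rfl
  · rintro (_ | ⟨⟨x, y⟩, h⟩)
    · rfl
    · rfl

theorem sum_pt {α : Type} [Fintype α] (z : α) (f : α → ℕ) (c0 c1 : ℕ) (h0 : f z = c0)
    (h1 : ∀ P, P ≠ z → f P = c1) : ∑ P, f P = c0 + (Fintype.card α - 1) * c1 := by
  rw [← Finset.add_sum_erase Finset.univ f (Finset.mem_univ z), h0,
    Finset.sum_congr rfl fun P hP => h1 P (Finset.ne_of_mem_erase hP), Finset.sum_const,
    Finset.card_erase_of_mem (Finset.mem_univ z), Finset.card_univ, smul_eq_mul]

end CntP

open CntP WeierstrassCurve.Affine WeierstrassCurve.Affine.CoordinateRing Pool.Agent.NH4.ZS.EllB in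
theorem t_CNT (hD : S_DED) (hF : S_FIL) : S_CNT := by
  intro k _ _ a b h2 hab n
  obtain ⟨hded, hns, -⟩ := hD k a b h2 hab
  obtain ⟨hF1, hF2⟩ := hF k a b
  have hq : 2 ≤ Nat.card k := Finite.one_lt_card
  rcases Nat.eq_zero_or_pos n with hn | hn
  · -- degree zero
    subst hn
    have huniq : ∀ I : Id k a b 0, I.1 = ⊤ := by
      rintro ⟨I, hI, h0⟩
      have := finite_quot hI
      have h3 : Subsingleton ((wc a b).CoordinateRing ⧸ I) := Module.finrank_zero_iff.1 h0
      exact Ideal.Quotient.subsingleton_iff.1 h3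
    have hsub : Subsingleton (Id k a b 0) := ⟨fun I I' => Subtype.ext ((huniq I).trans (huniq I').symm)⟩
    have hne : Nonempty (Id k a b 0) := by
      refine ⟨⟨⊤, top_ne_bot, ?_⟩⟩
      have : Subsingleton ((wc a b).CoordinateRing ⧸ (⊤ : Ideal (wc a b).CoordinateRing)) :=
        Ideal.Quotient.subsingleton_iff.2 rfl
      exact Module.finrank_zero_of_subsingleton
    refine ⟨inferInstance, ?_⟩
    rw [if_pos rfl]
    exact Nat.card_eq_one_iff_unique.2 ⟨hsub, hne⟩
  obtain ⟨ept⟩ := pt_equiv a b hns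
  have hfz : Finite {z : k × k // z.2 ^ 2 = z.1 ^ 3 + a * z.1 + b} := inferInstance
  have hfpt : Finite (wc a b).Point := Finite.of_equiv _ ept.symm
  have hcpt : Nat.card (wc a b).Point = Nat.card {z : k × k // z.2 ^ 2 = z.1 ^ 3 + a * z.1 + b} + 1 := by
    rw [Nat.card_congr ept, Finite.card_option]
  -- the number of the functions
  have hsome : ∀ P : (wc a b).Point, P ≠ Point.zero →
      Nat.card {g // GP (wc a b) n P g} = Nat.card k ^ n - Nat.card k ^ (n - 1) ∧
        Finite {g // GP (wc a b) n P g} := by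
    rintro (_ | ⟨x, y, h⟩) hP
    · exact absurd rfl hP
    · have e1 := hF2 (n + 1) x y (by omega) h.left
      have e2 := hF2 n x y hn h.left
      have h3 := count (W := wc a b) (q := Nat.card k) (J := (XYIdeal (wc a b) x (C y) : Set _)) e1 e2
        (pow_pos (by omega) _).ne' (pow_pos (by omega) _).ne'
      exact h3
  have hzero : Nat.card {g // GP (wc a b) n Point.zero g} =
      (if n = 1 then 0 else Nat.card k ^ n - Nat.card k ^ (n - 1)) ∧
        Finite {g // GP (wc a b) n Point.zero g} := by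
    by_cases h1 : n = 1
    · have he : IsEmpty {g // GP (wc a b) n Point.zero g} := by
        refine ⟨fun g => ?_⟩
        have h3 := g.2.2.1
        exact natDegree_norm_ne_one (W' := wc a b) g.1 (h3.trans (by show n + 0 = 1; omega))
      refine ⟨?_, inferInstance⟩
      rw [if_pos h1]
      exact Nat.card_of_isEmpty
    · obtain ⟨m, rfl⟩ : ∃ m, n = m + 1 := ⟨n - 1, by omega⟩
      have hs : ∀ j : ℕ, Nat.card {g : (wc a b).CoordinateRing //
          ((Algebra.norm k[X] g).natDegree ≤ j ∨ g = 0) ∧ g ∈ (Set.univ : Set (wc a b).CoordinateRing)} =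
          Nat.card {g : (wc a b).CoordinateRing // (Algebra.norm k[X] g).natDegree ≤ j ∨ g = 0} :=
        fun j => Nat.card_congr (Equiv.subtypeEquivRight fun g => by simp)
      have e1 := (hs (m + 1)).trans (hF1 (m + 1) (by omega))
      have e2 := (hs m).trans (hF1 m (by omega))
      have h3 := count (W := wc a b) (q := Nat.card k) (J := Set.univ) e1 e2
        (pow_pos (by omega) _).ne' (pow_pos (by omega) _).ne'
      have e : {g // GP (wc a b) (m + 1) Point.zero g} ≃ {g : (wc a b).CoordinateRing // g ≠ 0 ∧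
          (Algebra.norm k[X] g).natDegree = m + 1 ∧ g ∈ (Set.univ : Set (wc a b).CoordinateRing)} :=
        Equiv.subtypeEquivRight fun g => by
          unfold GP JP dP
          simp
      have hfin := h3.2
      refine ⟨?_, Finite.of_equiv _ e.symm⟩
      rw [if_neg h1, Nat.card_congr e, h3.1, Nat.add_sub_cancel]
  have hfin : ∀ P : (wc a b).Point, Finite {g // GP (wc a b) n P g} := by
    intro P
    by_cases hP : P = Point.zero
    · rw [hP]
      exact hzero.2
    · exact (hsome P hP).2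
  obtain ⟨E⟩ := equiv (W := wc a b) hns n
  have hfId : Finite (Id k a b n) :=
    Finite.of_injective (fun I => E (I, 1)) fun I I' h => (Prod.ext_iff.1 (E.injective h)).1
  refine ⟨hfId, ?_⟩
  have := Fintype.ofFinite (wc a b).Point
  have hcard := Nat.card_congr E
  rw [Nat.card_prod, Nat.card_sigma, sum_pt (Point.zero : (wc a b).Point) _ _ _ hzero.1
    fun P hP => (hsome P hP).1, ← Nat.card_eq_fintype_card, hcpt, Nat.add_sub_cancel] at hcard
  have hunits : Nat.card kˣ = Nat.card k - 1 := Nat.card_units k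
  rw [hunits] at hcard
  rw [if_neg hn.ne']
  set q := Nat.card k with hqd
  set A := Nat.card {z : k × k // z.2 ^ 2 = z.1 ^ 3 + a * z.1 + b} with hA
  have hid : Nat.card (Id k a b n) = Nat.card {I : Ideal (wc a b).CoordinateRing // I ≠ ⊥ ∧
      Module.finrank k ((wc a b).CoordinateRing ⧸ I) = n} := rfl
  rw [hid]
  by_cases h1 : n = 1
  · rw [if_pos h1]
    rw [if_pos h1, h1] at hcard
    have h3 : q - 1 ≠ 0 := by omega
    have h4 : 0 + A * (q ^ 1 - q ^ (1 - 1)) = A * (q - 1) := by simp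
    rw [h4] at hcard
    rw [h1]
    exact Nat.eq_of_mul_eq_mul_right (by omega) hcard
  · rw [if_neg h1]
    rw [if_neg h1] at hcard
    obtain ⟨m, rfl⟩ : ∃ m, n = m + 1 := ⟨n - 1, by omega⟩
    rw [Nat.add_sub_cancel] at hcard ⊢
    have h4 : q ^ (m + 1) - q ^ m = q ^ m * (q - 1) := by
      rw [pow_succ, Nat.mul_sub, mul_one]
    have h5 : q ^ (m + 1) - q ^ m + A * (q ^ (m + 1) - q ^ m) = ((A + 1) * q ^ m) * (q - 1) := by
      rw [h4]
      ring
    rw [h5] at hcard
    exact Nat.eq_of_mul_eq_mul_right (by omega) hcard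

end Pool.Agent.NH4.ZS
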