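import Pool.Agent.NH4.ZS.Stm
import Pool.Agent.X261.BC.Fam

set_option autoImplicit false

open Polynomial

namespace Pool.Agent.NH4.ZS

/-- the coordinate ring is not a field -/
theorem Ded.nf (k : Type) [Field k] (a b : k) : ¬ IsField (wc a b).CoordinateRing := by
  intro h
  have hfin : Module.Finite k[X] (wc a b).CoordinateRing :=
    Module.Finite.of_basis (WeierstrassCurve.Affine.CoordinateRing.basis (wc a b))
  have hint : Algebra.IsIntegral k[X] (wc a b).CoordinateRing := Algebra.IsIntegral.of_finite _ _
  exact Polynomial.not_isField k (isField_of_isIntegral_of_isField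
    (FaithfulSMul.algebraMap_injective k[X] (wc a b).CoordinateRing) h)

theorem t_DED (h : S_SEP) : S_DED := by
  intro k _ a b h2 hd
  have hs : (Pool.Agent.X261.BC.cub 0 a b).Separable := by
    have h1 := h k a b hd
    have h3 : Pool.Agent.X261.BC.cub 0 a b = X ^ 3 + C a * X + C b := by
      unfold Pool.Agent.X261.BC.cub
      rw [C_0, zero_mul, add_zero]
    rw [h3]
    exact h1
  exact ⟨Pool.Agent.X261.BC.ded_wei h2 hs, fun x y hxy =>
    Pool.Agent.X261.BC.nonsing_wei h2 hs hxy, Ded.nf k a b⟩

end Pool.Agent.NH4.ZS
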