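import Pool.Agent.NH4.ZS.Stm2

/-!
# Project ZS: the dimension of the surfaces
-/

set_option autoImplicit false

open Polynomial

namespace Pool.Agent.NH4.ZS

namespace Dim45

theorem dim_le (R A : Type) [CommRing R] [CommRing A] [Algebra R A] [Algebra.IsIntegral R A] :
    ringKrullDim A ≤ ringKrullDim R := by
  refine Order.krullDim_le_of_strictMono (fun I : PrimeSpectrum A =>
    PrimeSpectrum.comap (algebraMap R A) I) ?_
  intro I J hIJ
  have h := I.2
  exact Ideal.IsIntegral.comap_lt_comap (R := R) (A := A) (I := I.asIdeal) (J := J.asIdeal) hIJ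

theorem le_dim (R A : Type) [CommRing R] [CommRing A] [IsDomain A] [Algebra R A]
    [Algebra.IsIntegral R A] (hinj : Function.Injective (algebraMap R A)) :
    ringKrullDim R ≤ ringKrullDim A := by
  have hgu : Algebra.HasGoingUp R A := inferInstance
  refine iSup_le fun l => ?_
  have hl := l.head.2
  obtain ⟨Q, hQ, hQc⟩ := Ideal.exists_ideal_over_prime_of_isIntegral_of_isDomain (S := A)
    l.head.asIdeal (by rw [(RingHom.injective_iff_ker_eq_bot _).1 hinj]; exact bot_le)
  have hlo : Q.LiesOver (RelSeries.head l).asIdeal := ⟨hQc.symm⟩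
  obtain ⟨L, hL, -, -⟩ := Ideal.exists_ltSeries_of_hasGoingUp l Q
  rw [← hL]
  exact le_iSup (fun L : LTSeries (PrimeSpectrum A) => (L.length : WithBot ℕ∞)) L

theorem not_field {N : ℕ} (h : 0 < N) : ¬ IsField (ZN N) := by
  intro hf
  obtain ⟨p, hpN, hp⟩ := Nat.exists_infinite_primes (N + 1)
  have hN0 : (N : ℤ) ≠ 0 := by exact_mod_cast h.ne'
  have hinj : Function.Injective (algebraMap ℤ (ZN N)) :=
    IsLocalization.injective _ (powers_le_nonZeroDivisors_of_noZeroDivisors hN0)
  have hp0 : (algebraMap ℤ (ZN N) (p : ℤ)) ≠ 0 := by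
    intro h0
    rw [← map_zero (algebraMap ℤ (ZN N))] at h0
    have := hinj h0
    have hp1 := hp.pos
    omega
  obtain ⟨z, hz⟩ := hf.mul_inv_cancel hp0
  obtain ⟨⟨c, s⟩, hc⟩ := IsLocalization.surj (Submonoid.powers (N : ℤ)) z
  obtain ⟨k, hk⟩ := s.2
  have e : algebraMap ℤ (ZN N) ((N : ℤ) ^ k) = algebraMap ℤ (ZN N) ((p : ℤ) * c) := by
    rw [map_mul, ← hc, ← mul_assoc, hz, one_mul, ← hk]
  have e2 : ((N : ℤ) ^ k) = (p : ℤ) * c := hinj e
  have hd : (p : ℤ) ∣ (N : ℤ) ^ k := ⟨c, e2⟩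
  have hd2 : p ∣ N ^ k := by exact_mod_cast hd
  have hd3 := hp.dvd_of_dvd_pow hd2
  have := Nat.le_of_dvd h hd3
  omega

theorem dim_curve (S : Type) [CommRing S] [IsDomain S] [IsPrincipalIdealRing S]
    (hf : ¬ IsField S) (a b : S) : ringKrullDim (wc a b).CoordinateRing = 2 := by
  have h1 : ringKrullDim S = 1 := IsPrincipalIdealRing.ringKrullDim_eq_one _ hf
  have h2 : ringKrullDim S[X] = 2 := by
    rw [Polynomial.ringKrullDim_of_isNoetherianRing, h1]
    rfl
  have hfin : Module.Finite S[X] (wc a b).CoordinateRing :=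
    Module.Finite.of_basis (WeierstrassCurve.Affine.CoordinateRing.basis _)
  have hint : Algebra.IsIntegral S[X] (wc a b).CoordinateRing := inferInstance
  have hinj : Function.Injective (algebraMap S[X] (wc a b).CoordinateRing) :=
    FaithfulSMul.algebraMap_injective _ _
  rw [← h2]
  exact le_antisymm (dim_le _ _) (le_dim _ _ hinj)

theorem pid {N : ℕ} : IsPrincipalIdealRing (ZN N) := by
  refine ⟨fun J => ?_⟩
  obtain ⟨x, hx⟩ := (IsPrincipalIdealRing.principal (J.comap (algebraMap ℤ (ZN N)))).principal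
  refine ⟨⟨algebraMap ℤ (ZN N) x, ?_⟩⟩
  have h1 : Ideal.map (algebraMap ℤ (ZN N)) (J.comap (algebraMap ℤ (ZN N))) = J :=
    IsLocalization.map_comap (Submonoid.powers (N : ℤ)) (ZN N) J
  have h2 : J.comap (algebraMap ℤ (ZN N)) = Ideal.span {x} := hx
  rw [h2, Ideal.map_span, Set.image_singleton] at h1
  exact h1.symm

end Dim45

open Dim45

theorem t_DIM : S_DIM := by
  intro N a b hN
  have hdS := dom_ZN hN
  have hpid : IsPrincipalIdealRing (ZN N) := pid
  exact dim_curve (ZN N) (not_field hN) (a : ZN N) (b : ZN N)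

end Pool.Agent.NH4.ZS
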