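import Pool.Agent.NH4.ZS.Stm
import Pool.Agent.R426.QC.Ep

/-!
# Project ZS, EUG: the Euler product of a Dedekind domain
-/

set_option autoImplicit false

namespace Pool.Agent.NH4.ZS

open IsDedekindDomain

namespace Eug

variable {R : Type} [CommRing R] [IsDedekindDomain R]

/-- the two kinds of primes -/
noncomputable def eqv (h : ¬ IsField R) : MaximalSpectrum R ≃ HeightOneSpectrum R where
  toFun P := ⟨P.asIdeal, P.isMaximal.isPrime, fun h0 => h (by
    have h1 := P.isMaximal
    rw [h0] at h1
    exact Ring.isField_iff_maximal_bot.2 h1)⟩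
  invFun v := ⟨v.asIdeal, v.isMaximal⟩
  left_inv _ := rfl
  right_inv _ := rfl

end Eug

open Eug in
open Classical in
/-- **EUG.** -/
theorem t_EUG : S_EUG := by
  intro R _ _ hR w h1 hmul _ hs
  set f : Ideal R → ℂ := fun I => if I = ⊥ then 0 else w I with hf
  have hinj : Function.Injective (Subtype.val : {I : Ideal R // I ≠ ⊥} → Ideal R) :=
    Subtype.val_injective
  have hsupp : Function.support f ⊆ Set.range (Subtype.val : {I : Ideal R // I ≠ ⊥} → Ideal R) := by
    intro I hI
    rw [Function.mem_support] at hI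
    have h0 : I ≠ ⊥ := fun h => hI (by rw [hf]; simp only; rw [if_pos h])
    exact ⟨⟨I, h0⟩, rfl⟩
  have hfw : ∀ I : {I : Ideal R // I ≠ ⊥}, f I.1 = w I.1 := fun I => by
    rw [hf]
    simp only
    rw [if_neg I.2]
  have htop : (⊤ : Ideal R) ≠ ⊥ := by
    intro h
    exact zero_ne_one (α := Ideal R) (by rw [Ideal.one_eq_top, h]; rfl)
  have hC : Pool.Agent.R426.QC.CMI f := by
    refine ⟨?_, ?_, ?_, ?_⟩
    · rw [hf]
      simp only
      rw [if_pos trivial]
    · rw [hf]
      simp only
      rw [if_neg htop, ← Ideal.one_eq_top, h1]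
    · intro I J
      rw [hf]
      simp only
      by_cases hI : I = ⊥
      · rw [if_pos hI, if_pos (by rw [hI, Ideal.bot_mul]), zero_mul]
      · by_cases hJ : J = ⊥
        · rw [if_pos hJ, if_pos (by rw [hJ, Ideal.mul_bot]), mul_zero]
        · rw [if_neg hI, if_neg hJ, if_neg, hmul I J hI hJ]
          intro h
          rcases Ideal.mul_eq_bot.1 h with h | h
          · exact hI h
          · exact hJ h
    · rw [← hinj.summable_iff]
      · refine (summable_congr fun I => ?_).2 hs.of_norm
        exact hfw I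
      · intro I hI
        by_contra h
        exact hI (hsupp h)
  have h2 := Pool.Agent.R426.QC.hasProdI hC
  have h3 : ∑' I : Ideal R, f I = ∑' I : {I : Ideal R // I ≠ ⊥}, w I.1 := by
    rw [← hinj.tsum_eq hsupp]
    exact tsum_congr hfw
  rw [h3, ← (eqv hR).hasProd_iff] at h2
  have h4 : (fun v : HeightOneSpectrum R => (1 - f v.asIdeal)⁻¹) ∘ (eqv hR) =
      fun P : MaximalSpectrum R => (1 - w P.asIdeal)⁻¹ := by
    funext P
    show (1 - f (eqv hR P).asIdeal)⁻¹ = (1 - w P.asIdeal)⁻¹
    rw [hfw ⟨(eqv hR P).asIdeal, (eqv hR P).ne_bot⟩]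
    rfl
  rw [h4] at h2
  exact h2

end Pool.Agent.NH4.ZS
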