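import Mathlib

/-!
# Project ZS: zeta functions of affine arithmetic surfaces (elliptic curves over `ℤ[1/N]`)
-/

set_option autoImplicit false

open Polynomial

namespace Pool.Agent.NH4.ZS

/-- the curve `y² = x³ + a x + b` over a ring -/
def wc {S : Type} [CommRing S] (a b : S) : WeierstrassCurve.Affine S := ⟨0, 0, 0, a, b⟩

/-- `ℤ[1/N]` -/
abbrev ZN (N : ℕ) : Type := Localization.Away (N : ℤ)

/-- `ℤ[1/N][x, y] / (y² - x³ - a x - b)` -/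
abbrev RN (N : ℕ) (a b : ℤ) : Type := (wc (a : ZN N) (b : ZN N)).CoordinateRing

/-- `𝔽_p[x, y] / (y² - x³ - a x - b)` -/
abbrev RP (a b : ℤ) (p : ℕ) : Type := (wc (a : ZMod p) (b : ZMod p)).CoordinateRing

/-- `ℚ[x, y] / (y² - x³ - a x - b)` -/
abbrev RQ (a b : ℤ) : Type := (wc (a : ℚ) (b : ℚ)).CoordinateRing

/-- the number of the affine solutions modulo `p` -/
noncomputable def np (a b : ℤ) (p : ℕ) : ℕ := Nat.card {q : ZMod p × ZMod p //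
  q.2 ^ 2 = q.1 ^ 3 + (a : ZMod p) * q.1 + (b : ZMod p)}

/-- all the bad primes divide `N` -/
def OkN (N : ℕ) (a b : ℤ) : Prop := 0 < N ∧ 4 * a ^ 3 + 27 * b ^ 2 ≠ 0 ∧
  ∀ p : ℕ, p.Prime → ((p : ℤ) ∣ 2 * (4 * a ^ 3 + 27 * b ^ 2)) → p ∣ N

/-- the primes of `ℤ[1/N]` -/
abbrev Pr (N : ℕ) : Type := {p : ℕ // p.Prime ∧ ¬ p ∣ N}

/-- the Euler factor of a fibre -/
noncomputable def lf (a b : ℤ) (p : ℕ) (s : ℂ) : ℂ :=
  (1 - ((p : ℂ) - (np a b p : ℂ)) * (p : ℂ) ^ (-s) + (p : ℂ) ^ (1 - 2 * s)) / (1 - (p : ℂ) ^ (1 - s))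

/-- the `L`-function without the bad factors -/
def IsL (a b : ℤ) (F : ℂ → ℂ) : Prop :=
  Differentiable ℂ F ∧ ∀ s : ℂ, (3 : ℝ) / 2 < s.re →
    HasProd (fun p : ℕ => open Classical in
      if p.Prime ∧ ¬ ((p : ℤ) ∣ 2 * (-4 * a ^ 3 - 27 * b ^ 2)) then
        (1 - ((p : ℂ) - (Nat.card {q : ZMod p × ZMod p //
            q.2 ^ 2 = q.1 ^ 3 + (a : ZMod p) * q.1 + (b : ZMod p)} : ℂ))
            * (p : ℂ) ^ (-s) + (p : ℂ) ^ (1 - 2 * s))⁻¹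
      else 1) (F s)

theorem dom_ZN {N : ℕ} (h : 0 < N) : IsDomain (ZN N) :=
  IsLocalization.isDomain_localization (powers_le_nonZeroDivisors_of_noZeroDivisors
    (by exact_mod_cast h.ne'))

theorem dom_RN {N : ℕ} (h : 0 < N) (a b : ℤ) : IsDomain (RN N a b) := by
  have := dom_ZN h
  infer_instance

/-! ### the jobs -/

/-- SEP -/
def S_SEP : Prop := ∀ (k : Type) [Field k] (a b : k), (4 * a ^ 3 + 27 * b ^ 2 ≠ 0) →
  (X ^ 3 + C a * X + C b : k[X]).Separable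

/-- DED -/
def S_DED : Prop := ∀ (k : Type) [Field k] (a b : k), (2 : k) ≠ 0 → 4 * a ^ 3 + 27 * b ^ 2 ≠ 0 →
  IsDedekindDomain (wc a b).CoordinateRing ∧ (∀ x y : k, (wc a b).Equation x y →
    (wc a b).Nonsingular x y) ∧ ¬ IsField (wc a b).CoordinateRing

/-- FIL: the elements with bounded degree of the norm, and those which vanish at a point -/
def S_FIL : Prop := ∀ (k : Type) [Field k] [Finite k] (a b : k),
  (∀ m : ℕ, 1 ≤ m → Nat.card {g : (wc a b).CoordinateRing //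
    (Algebra.norm k[X] g).natDegree ≤ m ∨ g = 0} = Nat.card k ^ m) ∧
  (∀ (m : ℕ) (x y : k), 1 ≤ m → (wc a b).Equation x y → Nat.card {g : (wc a b).CoordinateRing //
    ((Algebra.norm k[X] g).natDegree ≤ m ∨ g = 0) ∧
      g ∈ WeierstrassCurve.Affine.CoordinateRing.XYIdeal (wc a b) x (C y)} = Nat.card k ^ (m - 1))

/-- the ideals of degree `n` -/
abbrev Id (k : Type) [Field k] (a b : k) (n : ℕ) : Type :=
  {I : Ideal (wc a b).CoordinateRing // I ≠ ⊥ ∧ Module.finrank k ((wc a b).CoordinateRing ⧸ I) = n}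

/-- CNT: the number of the ideals of degree `n` -/
def S_CNT : Prop := ∀ (k : Type) [Field k] [Finite k] (a b : k), (2 : k) ≠ 0 →
  4 * a ^ 3 + 27 * b ^ 2 ≠ 0 → ∀ n : ℕ, Finite (Id k a b n) ∧
  Nat.card (Id k a b n) = if n = 0 then 1 else if n = 1 then
    Nat.card {z : k × k // z.2 ^ 2 = z.1 ^ 3 + a * z.1 + b} else
    (Nat.card {z : k × k // z.2 ^ 2 = z.1 ^ 3 + a * z.1 + b} + 1) * Nat.card k ^ (n - 1)

/-- EUG: the Euler product of a Dedekind domain -/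
def S_EUG : Prop := ∀ (R : Type) [CommRing R] [IsDedekindDomain R], ¬ IsField R →
  ∀ w : Ideal R → ℂ, w 1 = 1 → (∀ I J, I ≠ ⊥ → J ≠ ⊥ → w (I * J) = w I * w J) →
  (∀ P : MaximalSpectrum R, ‖w P.asIdeal‖ < 1) →
  Summable (fun I : {I : Ideal R // I ≠ ⊥} => ‖w I.1‖) →
  HasProd (fun P : MaximalSpectrum R => (1 - w P.asIdeal)⁻¹) (∑' I : {I : Ideal R // I ≠ ⊥}, w I.1)

/-- LOC: the zeta function of a good fibre -/
def S_LOC : Prop := ∀ (a b : ℤ) (p : ℕ), p.Prime → ¬ ((p : ℤ) ∣ 2 * (4 * a ^ 3 + 27 * b ^ 2)) →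
  ∀ s : ℂ, 1 < s.re → HasProd (fun m : MaximalSpectrum (RP a b p) =>
    (1 - (Nat.card (RP a b p ⧸ m.asIdeal) : ℂ) ^ (-s))⁻¹) (lf a b p s)

/-- SPC: closed points of an affine scheme -/
def S_SPC : Prop := ∀ (R : Type) [CommRing R] (s : ℂ),
  ∏' x : {x : AlgebraicGeometry.Spec (CommRingCat.of R) //
      IsClosed ({x} : Set (AlgebraicGeometry.Spec (CommRingCat.of R)))},
    (1 - ((Nat.card ((AlgebraicGeometry.Spec (CommRingCat.of R)).residueField x.1) : ℂ) ^ (-s)))⁻¹ =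
  ∏' m : MaximalSpectrum R, (1 - (Nat.card (R ⧸ m.asIdeal) : ℂ) ^ (-s))⁻¹

/-- MUL: the Euler product converges -/
def S_MUL : Prop := ∀ (R : Type) [CommRing R], Algebra.FiniteType ℤ R → ∃ σ : ℝ, ∀ s : ℂ, σ < s.re →
  Multipliable (fun m : MaximalSpectrum R => (1 - (Nat.card (R ⧸ m.asIdeal) : ℂ) ^ (-s))⁻¹)

/-- PRM: the fibres -/
def S_PRM : Prop := ∀ (N : ℕ) (a b : ℤ) (p : ℕ), 0 < N → p.Prime → ¬ p ∣ N →
  ∃ π : RN N a b →+* RP a b p, Function.Surjective π ∧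
    RingHom.ker π = Ideal.span {(p : RN N a b)}

/-- FIB: the maximal ideals -/
def S_FIB : Prop := ∀ (N : ℕ) (a b : ℤ), 0 < N →
  ∃ e : MaximalSpectrum (RN N a b) ≃ Σ p : Pr N, MaximalSpectrum (RP a b p.1),
    ∀ m, Nat.card (RN N a b ⧸ m.asIdeal) = Nat.card (RP a b (e m).1.1 ⧸ (e m).2.asIdeal)

/-- FTY -/
def S_FTY : Prop := ∀ (N : ℕ) (a b : ℤ), Algebra.FiniteType ℤ (RN N a b)

/-- GEN: the generic fibre is a localization -/
def S_GEN : Prop := ∀ (N : ℕ) (a b : ℤ), 0 < N → ∃ ι : RN N a b →+* RQ a b, Function.Injective ι ∧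
  (∀ z : RQ a b, ∃ (n : ℤ) (r : RN N a b), n ≠ 0 ∧ (n : RQ a b) * z = ι r) ∧
  ∀ (c : ℚ) (r : RN N a b), ι r = algebraMap ℚ (RQ a b) c → ∃ c' : ZN N, r = algebraMap (ZN N) (RN N a b) c'

/-- UZN: the units of `ℤ[1/N]` -/
def S_UZN : Prop := ∀ N : ℕ, 0 < N → Module.rank ℤ (Additive (ZN N)ˣ) = (N.primeFactors.card : Cardinal)

/-- UNI: the units of the ring of the surface -/
def S_UNI : Prop := ∀ (N : ℕ) (a b : ℤ), 0 < N →
  Module.rank ℤ (Additive (RN N a b)ˣ) = (N.primeFactors.card : Cardinal)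

/-- VRI: ideals whose product is generated by an integer -/
def S_VRI : Prop := ∀ (R : Type) [CommRing R] [IsDomain R] [CharZero R],
  (∀ p : ℕ, p.Prime → (Ideal.span {(p : R)}).IsPrime ∨ IsUnit (p : R)) →
  ∀ (m : ℕ) (I J : Ideal R), m ≠ 0 → I * J = Ideal.span {(m : R)} →
    ∃ d : ℕ, d ≠ 0 ∧ I = Ideal.span {(d : R)}

/-- VRT: invertible modules which are trivial over `ℚ` -/
def S_VRT : Prop := ∀ (R A : Type) [CommRing R] [IsDomain R] [CharZero R] [CommRing A] [IsDomain A]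
  [Algebra R A], Function.Injective (algebraMap R A) →
  (∀ z : A, ∃ (n : ℤ) (r : R), n ≠ 0 ∧ (n : A) * z = algebraMap R A r) →
  (∀ n : ℤ, n ≠ 0 → IsUnit (n : A)) →
  (∀ p : ℕ, p.Prime → (Ideal.span {(p : R)}).IsPrime ∨ IsUnit (p : R)) →
  Function.Injective (CommRing.Pic.mapAlgebra R A)

/-- CLQ: the class group over `ℚ` -/
def S_CLQ : Prop := ∀ a b : ℤ, 4 * a ^ 3 + 27 * b ^ 2 ≠ 0 → Finite (wc (a : ℚ) (b : ℚ)).Point →
  Finite (ClassGroup (RQ a b))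

/-- CLF: the Picard group of the surface -/
def S_CLF : Prop := ∀ (N : ℕ) (a b : ℤ), 0 < N → 4 * a ^ 3 + 27 * b ^ 2 ≠ 0 →
  Finite (wc (a : ℚ) (b : ℚ)).Point → Finite (CommRing.Pic (RN N a b))

/-- GLB: the zeta function is the product of the Euler factors of the fibres -/
def S_GLB : Prop := ∀ (N : ℕ) (a b : ℤ), OkN N a b → ∃ σ : ℝ, ∀ s : ℂ, σ < s.re →
  ∏' m : MaximalSpectrum (RN N a b), (1 - (Nat.card (RN N a b ⧸ m.asIdeal) : ℂ) ^ (-s))⁻¹ =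
  ∏' p : Pr N, lf a b p.1 s

/-- the Euler factor of the `L`-function -/
noncomputable def ef (a b : ℤ) (p : ℕ) (s : ℂ) : ℂ :=
  1 - ((p : ℂ) - (np a b p : ℂ)) * (p : ℂ) ^ (-s) + (p : ℂ) ^ (1 - 2 * s)

/-- the primes dividing `N` with good reduction -/
def eP (N : ℕ) (a b : ℤ) : Finset ℕ :=
  N.primeFactors.filter fun p => ¬ ((p : ℤ) ∣ 2 * (4 * a ^ 3 + 27 * b ^ 2))

/-- the continuation of the zeta function of the surface -/
noncomputable def Zf (N : ℕ) (a b : ℤ) (F : ℂ → ℂ) (s : ℂ) : ℂ :=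
  (∏ p ∈ N.primeFactors, (1 - (p : ℂ) ^ (1 - s))) * riemannZeta (s - 1) *
    (∏ p ∈ eP N a b, (ef a b p s)⁻¹) * (F s)⁻¹

/-- ZME -/
def S_ZME : Prop := ∀ (N : ℕ) (a b : ℤ) (F : ℂ → ℂ), Differentiable ℂ F →
  MeromorphicOn (Zf N a b F) Set.univ

/-- ZPR -/
def S_ZPR : Prop := ∀ (N : ℕ) (a b : ℤ), OkN N a b → ∀ F : ℂ → ℂ, IsL a b F →
  ∀ s : ℂ, 2 < s.re → Zf N a b F s = ∏' p : Pr N, lf a b p.1 s

/-- ZO1: the order at `1` -/
def S_ZO1 : Prop := ∀ (N : ℕ) (a b : ℤ), OkN N a b → ∀ F : ℂ → ℂ, IsL a b F →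
  ∀ r : ℕ, analyticOrderAt F 1 = r →
    meromorphicOrderAt (Zf N a b F) 1 = (((N.primeFactors.card : ℤ) - r : ℤ) : WithTop ℤ)

/-- ZNV: no zeros of `F` at `2, 3, …` -/
def S_ZNV : Prop := ∀ (a b : ℤ), 4 * a ^ 3 + 27 * b ^ 2 ≠ 0 → ∀ F : ℂ → ℂ, IsL a b F →
  ∀ m : ℕ, 2 ≤ m → F m ≠ 0

/-- ZO2: the orders at `2, 3, …` -/
def S_ZO2 : Prop := ∀ (N : ℕ) (a b : ℤ), OkN N a b → ∀ F : ℂ → ℂ, Differentiable ℂ F →
  (∀ m : ℕ, 2 ≤ m → F m ≠ 0) →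
    meromorphicOrderAt (Zf N a b F) 2 = ((-1 : ℤ) : WithTop ℤ) ∧
    ∀ m : ℕ, 2 < m → meromorphicOrderAt (Zf N a b F) m = ((0 : ℤ) : WithTop ℤ)

end Pool.Agent.NH4.ZS
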