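import Mathlib
import Pool.Agent.NH4.ZS.Stm

/-!
# The maximal ideals of the ring of the surface
-/

set_option autoImplicit false

namespace Pool.Agent.NH4.ZS

namespace Fib

theorem jac_int : IsJacobsonRing ℤ := by
  rw [isJacobsonRing_iff_prime_eq]
  intro P hP
  by_cases h : P = ⊥
  · subst h
    rw [eq_bot_iff]
    intro x hx
    rw [Ideal.mem_jacobson_bot] at hx
    have h1 := hx x
    rw [Int.isUnit_iff] at h1
    rw [Ideal.mem_bot]
    rcases h1 with h1 | h1
    · have : x * x = 0 := by linarith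
      exact mul_self_eq_zero.1 this
    · exfalso
      nlinarith [mul_self_nonneg x]
  · have : P.IsMaximal := IsPrime.to_maximal_ideal h
    exact Ideal.jacobson_eq_self_of_isMaximal

/-- the characteristic of a field that is finitely generated as a ring -/
theorem char_pos (κ : Type) [Field κ] [i : Algebra ℤ κ] [Algebra.FiniteType ℤ κ] :
    ∃ p : ℕ, p.Prime ∧ (p : κ) = 0 := by
  obtain rfl : i = Ring.toIntAlgebra κ := Subsingleton.elim _ _
  have := jac_int
  have hfin : Module.Finite ℤ κ := finite_of_finite_type_of_isJacobsonRing ℤ κ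
  have hp0 : ringChar κ ≠ 0 := by
    intro h0
    have hc : CharZero κ := (CharP.charP_zero_iff_charZero κ).1 (ringChar.of_eq h0)
    have hinj : Function.Injective (algebraMap ℤ κ) := by
      have : (algebraMap ℤ κ) = Int.castRingHom κ := RingHom.ext_int _ _
      rw [this]
      exact RingHom.injective_int _
    have hint : Algebra.IsIntegral ℤ κ := Algebra.IsIntegral.of_finite ℤ κ
    exact Int.not_isField (isField_of_isIntegral_of_isField hinj (Field.toIsField κ))
  rcases CharP.char_is_prime_or_zero κ (ringChar κ) with h | h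
  · exact ⟨ringChar κ, h, CharP.cast_eq_zero κ (ringChar κ)⟩
  · exact absurd h hp0

/-- two different primes are not both in a proper ideal -/
theorem eq_of_mem {R : Type} [CommRing R] {I : Ideal R} (hI : I ≠ ⊤) {p q : ℕ} (hp : p.Prime)
    (hq : q.Prime) (h1 : (p : R) ∈ I) (h2 : (q : R) ∈ I) : p = q := by
  by_contra hne
  have hc : IsCoprime (p : ℤ) (q : ℤ) := Nat.isCoprime_iff_coprime.2 ((Nat.coprime_primes hp hq).2 hne)
  obtain ⟨a, b, h⟩ := hc
  refine hI ((Ideal.eq_top_iff_one I).2 ?_)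
  have e : (1 : R) = (a : R) * (p : R) + (b : R) * (q : R) := by
    have := congrArg (Int.cast : ℤ → R) h
    push_cast at this
    exact this.symm
  rw [e]
  exact I.add_mem (I.mul_mem_left _ h1) (I.mul_mem_left _ h2)

/-- the maximal ideals, for a general ring -/
theorem gen (R : Type) [CommRing R] [j : Algebra ℤ R] (hT : Algebra.FiniteType ℤ R) (ι : Type)
    (q : ι → ℕ)
    (hq : ∀ i, (q i).Prime) (hqi : Function.Injective q) (A : ι → Type) [∀ i, CommRing (A i)]
    (π : ∀ i, R →+* A i) (hπ : ∀ i, Function.Surjective (π i))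
    (hk : ∀ i, RingHom.ker (π i) = Ideal.span {((q i : ℕ) : R)})
    (hcov : ∀ p : ℕ, p.Prime → ¬ IsUnit (p : R) → ∃ i, q i = p) :
    ∃ e : MaximalSpectrum R ≃ Σ i, MaximalSpectrum (A i),
      ∀ m, Nat.card (R ⧸ m.asIdeal) = Nat.card (A (e m).1 ⧸ (e m).2.asIdeal) := by
  classical
  obtain rfl : j = Ring.toIntAlgebra R := Subsingleton.elim _ _
  have hmemk : ∀ i, ((q i : ℕ) : R) ∈ RingHom.ker (π i) := fun i => by
    rw [hk i]
    exact Ideal.mem_span_singleton_self _
  let F : (Σ i, MaximalSpectrum (A i)) → MaximalSpectrum R := fun x =>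
    ⟨x.2.asIdeal.comap (π x.1),
      have := x.2.isMaximal
      Ideal.comap_isMaximal_of_surjective (π x.1) (hπ x.1)⟩
  have hFm : ∀ x, ((q x.1 : ℕ) : R) ∈ (F x).asIdeal := fun x => by
    have h := hmemk x.1
    rw [RingHom.mem_ker] at h
    show π x.1 _ ∈ x.2.asIdeal
    rw [h]
    exact x.2.asIdeal.zero_mem
  have hinj : Function.Injective F := by
    rintro ⟨p, n⟩ ⟨p', n'⟩ h
    have h1 := hFm ⟨p, n⟩
    have h2 := hFm ⟨p', n'⟩
    rw [← h] at h2
    have hpq : p = p' := hqi (eq_of_mem (F ⟨p, n⟩).isMaximal.ne_top (hq p) (hq p') h1 h2)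
    subst hpq
    have h3 : n.asIdeal.comap (π p) = n'.asIdeal.comap (π p) := congrArg MaximalSpectrum.asIdeal h
    have h4 : n.asIdeal = n'.asIdeal := by
      rw [← Ideal.map_comap_of_surjective (π p) (hπ p) n.asIdeal, h3,
        Ideal.map_comap_of_surjective (π p) (hπ p) n'.asIdeal]
    have h5 : n = n' := MaximalSpectrum.ext h4
    rw [h5]
  have hsurj : Function.Surjective F := by
    intro m
    have hm := m.isMaximal
    let _ : Field (R ⧸ m.asIdeal) := Ideal.Quotient.field m.asIdeal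
    have h2 : Algebra.FiniteType ℤ (R ⧸ m.asIdeal) :=
      Algebra.FiniteType.of_surjective (Ideal.Quotient.mkₐ ℤ m.asIdeal) Ideal.Quotient.mk_surjective
    obtain ⟨p, hp, h3⟩ := char_pos (R ⧸ m.asIdeal)
    have h4 : ((p : ℕ) : R) ∈ m.asIdeal := by
      rw [← Ideal.Quotient.eq_zero_iff_mem, map_natCast]
      exact h3
    obtain ⟨i, hi⟩ := hcov p hp fun h => hm.ne_top (Ideal.eq_top_of_isUnit_mem _ h4 h)
    have h8 : RingHom.ker (π i) ≤ m.asIdeal := by
      rw [hk i, Ideal.span_singleton_le_iff_mem, hi]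
      exact h4
    have h9 : (m.asIdeal.map (π i)).comap (π i) = m.asIdeal := by
      rw [Ideal.comap_map_of_surjective (π i) (hπ i)]
      exact sup_eq_left.2 h8
    have h10 : (m.asIdeal.map (π i)).IsMaximal := by
      rcases Ideal.map_eq_top_or_isMaximal_of_surjective (π i) (hπ i) hm with h | h
      · exfalso
        rw [h, Ideal.comap_top] at h9
        exact hm.ne_top h9.symm
      · exact h
    exact ⟨⟨i, ⟨m.asIdeal.map (π i), h10⟩⟩, MaximalSpectrum.ext h9⟩
  refine ⟨(Equiv.ofBijective F ⟨hinj, hsurj⟩).symm, fun m => ?_⟩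
  obtain ⟨x, rfl⟩ := hsurj m
  have e1 : (Equiv.ofBijective F ⟨hinj, hsurj⟩).symm (F x) = x :=
    (Equiv.ofBijective F ⟨hinj, hsurj⟩).symm_apply_apply x
  rw [e1]
  have hs : Function.Surjective ((Ideal.Quotient.mk x.2.asIdeal).comp (π x.1)) :=
    Ideal.Quotient.mk_surjective.comp (hπ x.1)
  have hker : RingHom.ker ((Ideal.Quotient.mk x.2.asIdeal).comp (π x.1)) = (F x).asIdeal := by
    ext y
    rw [RingHom.mem_ker, RingHom.comp_apply, Ideal.Quotient.eq_zero_iff_mem]
    rfl
  exact Nat.card_congr ((Ideal.quotEquivOfEq hker.symm).trans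
    (RingHom.quotientKerEquivOfSurjective hs)).toEquiv

/-- the integers dividing `N` are units -/
theorem unit_of_dvd (N : ℕ) (a b : ℤ) {p : ℕ} (h : p ∣ N) : IsUnit ((p : ℕ) : RN N a b) := by
  obtain ⟨c, hc⟩ := h
  have h6 : IsUnit (algebraMap ℤ (ZN N) (N : ℤ)) := IsLocalization.Away.algebraMap_isUnit (N : ℤ)
  have h7 : IsUnit (algebraMap ℤ (ZN N) (p : ℤ)) := by
    have h9 : (N : ℤ) = (p : ℤ) * (c : ℤ) := by exact_mod_cast hc
    have h10 : algebraMap ℤ (ZN N) (N : ℤ) =
        algebraMap ℤ (ZN N) (p : ℤ) * algebraMap ℤ (ZN N) (c : ℤ) :=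
      (congrArg (algebraMap ℤ (ZN N)) h9).trans (map_mul _ _ _)
    rw [h10] at h6
    exact isUnit_of_mul_isUnit_left h6
  have h8 : IsUnit (algebraMap (ZN N) (RN N a b) (algebraMap ℤ (ZN N) (p : ℤ))) := h7.map _
  rw [eq_intCast, map_intCast, Int.cast_natCast] at h8
  exact h8

end Fib

theorem t_FIB (hP : S_PRM) (hT : S_FTY) : S_FIB := by
  intro N a b hN
  choose π hπ hk using fun p : Pr N => hP N a b p.1 hN p.2.1 p.2.2
  exact Fib.gen (RN N a b) (hT N a b) (Pr N) (fun p => p.1) (fun p => p.2.1)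
    Subtype.val_injective (fun p => RP a b p.1) π hπ hk
    fun p hp hu => ⟨⟨p, hp, fun h => hu (Fib.unit_of_dvd N a b h)⟩, rfl⟩

end Pool.Agent.NH4.ZS
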