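import Pool.Agent.NH4.ZS.Stm

/-!
# The elements of the coordinate ring with bounded degree of the norm
-/

set_option autoImplicit false

open Polynomial

namespace Pool.Agent.NH4.ZS

namespace Fil

open WeierstrassCurve.Affine WeierstrassCurve.Affine.CoordinateRing

variable {k : Type} [Field k] (W : WeierstrassCurve.Affine k)

/-- the function of a pair of polynomials of bounded degree -/
noncomputable def Ph (u v : ℕ) : (degreeLT k u × degreeLT k v) →ₗ[k] W.CoordinateRing where
  toFun := fun z => (z.1 : k[X]) • (1 : W.CoordinateRing) + (z.2 : k[X]) • mk W X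
  map_add' := by
    intro x y
    simp only [Prod.fst_add, Prod.snd_add, Submodule.coe_add, add_smul]
    abel
  map_smul' := by
    intro c x
    simp only [Prod.smul_fst, Prod.smul_snd, Submodule.coe_smul, smul_assoc, smul_add,
      RingHom.id_apply]

lemma Ph_apply (u v : ℕ) (z : degreeLT k u × degreeLT k v) :
    Ph W u v z = (z.1 : k[X]) • (1 : W.CoordinateRing) + (z.2 : k[X]) • mk W X := rfl

lemma Ph_inj (u v : ℕ) : Function.Injective (Ph W u v) := by
  rw [injective_iff_map_eq_zero]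
  intro z hz
  obtain ⟨h1, h2⟩ := smul_basis_eq_zero ((Ph_apply W u v z).symm.trans hz)
  exact Prod.ext (Subtype.ext h1) (Subtype.ext h2)

lemma two_deg (p : k[X]) (c m : ℕ) (n : ℕ) (h : ∀ d : ℕ, 2 * d + c ≤ m ↔ d < n) :
    2 • p.degree + (c : WithBot ℕ) ≤ (m : WithBot ℕ) ↔ p ∈ degreeLT k n := by
  rw [mem_degreeLT]
  by_cases hp : p = 0
  · subst hp
    simp
  · rw [degree_eq_natDegree hp]
    have e : 2 • (p.natDegree : WithBot ℕ) + (c : WithBot ℕ) =
        ((2 * p.natDegree + c : ℕ) : WithBot ℕ) := by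
      push_cast
      rw [two_nsmul, two_mul]
    rw [e, Nat.cast_le, Nat.cast_lt, h]

lemma deg_iff (m : ℕ) (hm : 1 ≤ m) (p q : k[X]) :
    (Algebra.norm k[X] (p • (1 : W.CoordinateRing) + q • mk W X)).natDegree ≤ m ↔
      p ∈ degreeLT k (m / 2 + 1) ∧ q ∈ degreeLT k ((m - 1) / 2) := by
  rw [natDegree_le_iff_degree_le, degree_norm_smul_basis, max_le_iff]
  refine and_congr ?_ ?_
  · rw [← two_deg p 0 m (m / 2 + 1) (by intro d; omega)]
    simp
  · rw [← two_deg q 3 m ((m - 1) / 2) (by intro d; omega)]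
    rfl

/-- the elements with bounded degree of the norm -/
noncomputable def V (m : ℕ) : Submodule k W.CoordinateRing :=
  LinearMap.range (Ph W (m / 2 + 1) ((m - 1) / 2))

lemma mem_V {m : ℕ} (hm : 1 ≤ m) (g : W.CoordinateRing) :
    ((Algebra.norm k[X] g).natDegree ≤ m ∨ g = 0) ↔ g ∈ V W m := by
  constructor
  · intro h
    rcases h with h | h
    · obtain ⟨p, q, rfl⟩ := exists_smul_basis_eq g
      obtain ⟨h1, h2⟩ := (deg_iff W m hm p q).1 h
      exact ⟨(⟨p, h1⟩, ⟨q, h2⟩), rfl⟩
    · rw [h]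
      exact Submodule.zero_mem _
  · rintro ⟨z, rfl⟩
    left
    rw [Ph_apply]
    exact (deg_iff W m hm _ _).2 ⟨z.1.2, z.2.2⟩

instance fin_lt (n : ℕ) : FiniteDimensional k (degreeLT k n) :=
  LinearEquiv.finiteDimensional (degreeLTEquiv k n).symm

instance fin_V (m : ℕ) : FiniteDimensional k (V W m) := by
  unfold V
  infer_instance

lemma finrank_V {m : ℕ} (hm : 1 ≤ m) : Module.finrank k (V W m) = m := by
  unfold V
  rw [LinearMap.finrank_range_of_inj (Ph_inj W _ _), Module.finrank_prod,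
    (degreeLTEquiv k _).finrank_eq, (degreeLTEquiv k _).finrank_eq, Module.finrank_fin_fun,
    Module.finrank_fin_fun]
  omega

lemma alg_mem_V {m : ℕ} (c : k) : algebraMap k W.CoordinateRing c ∈ V W m := by
  have h1 : C c ∈ degreeLT k (m / 2 + 1) := by
    rw [mem_degreeLT]
    refine lt_of_le_of_lt degree_C_le ?_
    exact_mod_cast Nat.succ_pos _
  refine ⟨(⟨C c, h1⟩, 0), ?_⟩
  rw [Ph_apply]
  show C c • (1 : W.CoordinateRing) + (0 : k[X]) • mk W X = _
  rw [zero_smul, add_zero, IsScalarTower.algebraMap_apply k k[X] W.CoordinateRing,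
    Algebra.algebraMap_eq_smul_one]
  rfl

/-- the evaluation at a point -/
noncomputable def ev {x y : k} (h : W.Equation x y) : W.CoordinateRing →ₐ[k] k :=
  (quotientXYIdealEquiv (W' := W) (x := x) (y := C y) h).toAlgHom.comp
    (Ideal.Quotient.mkₐ k (XYIdeal W x (C y)))

lemma ev_eq_zero {x y : k} (h : W.Equation x y) (g : W.CoordinateRing) :
    ev W h g = 0 ↔ g ∈ XYIdeal W x (C y) := by
  unfold ev
  rw [AlgHom.comp_apply]
  rw [← Ideal.Quotient.eq_zero_iff_mem]
  show (quotientXYIdealEquiv (W' := W) (x := x) (y := C y) h) (Ideal.Quotient.mk _ g) = 0 ↔ _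
  rw [EmbeddingLike.map_eq_zero_iff]

/-- the evaluation on the elements with bounded degree of the norm -/
noncomputable def evV {x y : k} (h : W.Equation x y) (m : ℕ) : V W m →ₗ[k] k :=
  (ev W h).toLinearMap.comp (V W m).subtype

lemma finrank_ker {x y : k} (h : W.Equation x y) {m : ℕ} (hm : 1 ≤ m) :
    Module.finrank k (LinearMap.ker (evV W h m)) = m - 1 := by
  have h1 := LinearMap.finrank_range_add_finrank_ker (evV W h m)
  have h2 : LinearMap.range (evV W h m) = ⊤ := by
    rw [LinearMap.range_eq_top]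
    intro c
    refine ⟨⟨algebraMap k W.CoordinateRing c, alg_mem_V W c⟩, ?_⟩
    show ev W h (algebraMap k W.CoordinateRing c) = c
    rw [AlgHom.commutes]
    rfl
  rw [h2, finrank_top, Module.finrank_self, finrank_V W hm] at h1
  omega

end Fil

theorem t_FIL : S_FIL := by
  intro k _ _ a b
  refine ⟨fun m hm => ?_, fun m x y hm h => ?_⟩
  · have e : Nat.card {g : (wc a b).CoordinateRing // (Algebra.norm k[X] g).natDegree ≤ m ∨ g = 0} =
        Nat.card (Fil.V (wc a b) m) :=
      Nat.card_congr (Equiv.subtypeEquivRight fun g => Fil.mem_V (wc a b) hm g)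
    rw [e, Module.natCard_eq_pow_finrank (K := k), Fil.finrank_V (wc a b) hm]
  · have e : Nat.card {g : (wc a b).CoordinateRing //
        ((Algebra.norm k[X] g).natDegree ≤ m ∨ g = 0) ∧
          g ∈ WeierstrassCurve.Affine.CoordinateRing.XYIdeal (wc a b) x (C y)} =
        Nat.card (LinearMap.ker (Fil.evV (wc a b) h m)) := by
      refine Nat.card_congr ⟨fun g => ⟨⟨g.1, (Fil.mem_V (wc a b) hm g.1).1 g.2.1⟩, ?_⟩,
        fun g => ⟨g.1.1, (Fil.mem_V (wc a b) hm g.1.1).2 g.1.2, ?_⟩, fun g => rfl, fun g => rfl⟩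
      · rw [LinearMap.mem_ker]
        exact (Fil.ev_eq_zero (wc a b) h g.1).2 g.2.2
      · exact (Fil.ev_eq_zero (wc a b) h g.1.1).1 g.2
    rw [e, Module.natCard_eq_pow_finrank (K := k), Fil.finrank_ker (wc a b) h hm]

end Pool.Agent.NH4.ZS
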