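import Pool.Agent.NH4.ZS.Stm

/-!
# FTY: the ring of the surface is of finite type
-/

set_option autoImplicit false

open Polynomial

namespace Pool.Agent.NH4.ZS

namespace Fty94

theorem ft1 (A : Type) [CommRing A] (inst : Algebra ℤ A) (g : ℤ →+* A) (h : g.FiniteType) :
    @Algebra.FiniteType ℤ A _ _ inst := by
  rw [← RingHom.finiteType_algebraMap]
  convert h
  exact RingHom.ext_int _ _

theorem ft2 (R : Type) [CommRing R] (g : ℤ →+* R) (h1 : g.FiniteType)
    (f : Polynomial (Polynomial R)) : ∃ g' : ℤ →+* AdjoinRoot f, g'.FiniteType := by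
  have i2 : Algebra.FiniteType R (Polynomial R) := inferInstance
  have h2 := RingHom.finiteType_algebraMap.2 i2
  have i3 : Algebra.FiniteType (Polynomial R) (Polynomial (Polynomial R)) := inferInstance
  have h3 := RingHom.finiteType_algebraMap.2 i3
  have h4 : (AdjoinRoot.mk f).FiniteType :=
    RingHom.FiniteType.of_surjective _ AdjoinRoot.mk_surjective
  exact ⟨_, ((h4.comp h3).comp h2).comp h1⟩

end Fty94

theorem t_FTY : S_FTY := by
  intro N a b
  have i1 : Algebra.FiniteType ℤ (ZN N) := inferInstance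
  obtain ⟨g, hg⟩ := Fty94.ft2 (ZN N) _ (RingHom.finiteType_algebraMap.2 i1)
    (wc (a : ZN N) (b : ZN N)).polynomial
  exact Fty94.ft1 _ _ g hg

end Pool.Agent.NH4.ZS
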