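import Pool.Agent.NH4.ZS.Stm

/-!
# Project ZS, GEN: the generic fibre is a localization
-/

set_option autoImplicit false

open Polynomial

namespace Pool.Agent.NH4.ZS

namespace Gen

open WeierstrassCurve.Affine WeierstrassCurve.Affine.CoordinateRing

lemma alg_eq {R : Type} [CommRing R] (W : WeierstrassCurve.Affine R) (c : R) :
    algebraMap R W.CoordinateRing c = (C c : R[X]) • (1 : W.CoordinateRing) := by
  rw [CoordinateRing.smul, mul_one]
  rfl

/-- a polynomial over `ℚ`, times an integer, comes from `S` -/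
lemma denom {S : Type} [CommRing S] (f : S →+* ℚ) (p : ℚ[X]) :
    ∃ (n : ℤ) (P : S[X]), n ≠ 0 ∧ P.map f = (n : ℚ[X]) * p := by
  obtain ⟨b, hb0, hb⟩ := IsLocalization.integerNormalization_spec (nonZeroDivisors ℤ) p
  refine ⟨b, (IsLocalization.integerNormalization (nonZeroDivisors ℤ) p).map (Int.castRingHom S),
    nonZeroDivisors.ne_zero hb0, ?_⟩
  rw [Polynomial.map_map]
  have h1 : f.comp (Int.castRingHom S) = algebraMap ℤ ℚ := RingHom.ext_int _ _
  rw [h1, hb, zsmul_eq_mul]

theorem gen {S : Type} [CommRing S] (f : S →+* ℚ) (hf : Function.Injective f)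
    (W : WeierstrassCurve.Affine S) (W' : WeierstrassCurve.Affine ℚ) (h : W' = W.map f) :
    ∃ ι : W.CoordinateRing →+* W'.CoordinateRing, Function.Injective ι ∧
      (∀ z : W'.CoordinateRing, ∃ (n : ℤ) (r : W.CoordinateRing), n ≠ 0 ∧ (n : W'.CoordinateRing) * z = ι r) ∧
      ∀ (c : ℚ) (r : W.CoordinateRing), ι r = algebraMap ℚ W'.CoordinateRing c →
        ∃ c' : S, r = algebraMap S W.CoordinateRing c' := by
  subst h
  refine ⟨CoordinateRing.map W f, CoordinateRing.map_injective hf, ?_, ?_⟩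
  · intro z
    obtain ⟨p, q, rfl⟩ := exists_smul_basis_eq z
    obtain ⟨n1, P, hn1, hP⟩ := denom f p
    obtain ⟨n2, Q, hn2, hQ⟩ := denom f q
    refine ⟨n1 * n2, ((n2 : S[X]) * P) • (1 : W.CoordinateRing) + ((n1 : S[X]) * Q) • mk W (X : S[X][X]),
      mul_ne_zero hn1 hn2, ?_⟩
    rw [map_add, CoordinateRing.map_smul, CoordinateRing.map_smul, map_one, CoordinateRing.map_mk, map_X,
      Polynomial.map_mul, Polynomial.map_mul, hP, hQ, Polynomial.map_intCast, Polynomial.map_intCast]
    simp only [CoordinateRing.smul, map_mul, map_intCast]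
    push_cast
    ring
  · intro c r hr
    obtain ⟨p, q, rfl⟩ := exists_smul_basis_eq r
    rw [map_add, CoordinateRing.map_smul, CoordinateRing.map_smul, map_one, CoordinateRing.map_mk, map_X,
      alg_eq] at hr
    have h1 : (p.map f - C c) • (1 : (W.map f).CoordinateRing) + (q.map f) • mk (W.map f) (X : ℚ[X][X]) = 0 := by
      rw [sub_smul, ← hr]
      abel
    obtain ⟨h2, h3⟩ := smul_basis_eq_zero h1
    have hq : q = 0 := (Polynomial.map_eq_zero_iff hf).1 h3
    have hp : p = C (p.coeff 0) := by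
      ext i
      rcases Nat.eq_zero_or_pos i with hi | hi
      · rw [hi, coeff_C_zero]
      · rw [coeff_C_of_ne_zero hi.ne']
        apply hf
        rw [map_zero, ← coeff_map, sub_eq_zero.1 h2, coeff_C_of_ne_zero hi.ne']
    refine ⟨p.coeff 0, ?_⟩
    rw [alg_eq, ← hp, hq, zero_smul, add_zero]

end Gen

theorem t_GEN : S_GEN := by
  intro N a b hN
  have hN' : (N : ℤ) ≠ 0 := by exact_mod_cast hN.ne'
  have hu : IsUnit ((Int.castRingHom ℚ) (N : ℤ)) := by
    rw [isUnit_iff_ne_zero]
    simpa using hN.ne'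
  let f : ZN N →+* ℚ := IsLocalization.Away.lift (N : ℤ) hu
  have hf : Function.Injective f := by
    apply (IsLocalization.lift_injective_iff _).2
    intro x y
    have hinj : Function.Injective (algebraMap ℤ (ZN N)) :=
      IsLocalization.injective _ (powers_le_nonZeroDivisors_of_noZeroDivisors hN')
    constructor
    · intro h
      rw [hinj h]
    · intro h
      have : x = y := by simpa using h
      rw [this]
  refine Gen.gen f hf (wc (a : ZN N) (b : ZN N)) (wc (a : ℚ) (b : ℚ)) ?_
  have h1 : f 0 = 0 := map_zero f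
  have h2 : f (a : ZN N) = (a : ℚ) := map_intCast f a
  have h3 : f (b : ZN N) = (b : ℚ) := map_intCast f b
  show (⟨0, 0, 0, a, b⟩ : WeierstrassCurve ℚ) = ⟨f 0, f 0, f 0, f a, f b⟩
  rw [h1, h2, h3]

end Pool.Agent.NH4.ZS
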