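import Pool.Agent.NH4.ZS.Stm

/-!
# Project ZS: the zeta function is the product of the Euler factors of the fibres
-/

set_option autoImplicit false

open Polynomial

namespace Pool.Agent.NH4.ZS

theorem t_GLB (hF : S_FIB) (hM : S_MUL) (hT : S_FTY) (hL : S_LOC) : S_GLB := by
  intro N a b hN
  obtain ⟨e, he⟩ := hF N a b hN.1
  have hft : @Algebra.FiniteType ℤ (RN N a b) _ _ (Ring.toIntAlgebra (RN N a b)) := by
    have h := hT N a b
    have h2 : ∀ i j : Algebra ℤ (RN N a b), @Algebra.FiniteType ℤ (RN N a b) _ _ i →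
        @Algebra.FiniteType ℤ (RN N a b) _ _ j := fun i j hi => by
      rwa [Subsingleton.elim j i]
    exact h2 _ _ h
  obtain ⟨σ, hσ⟩ := hM (RN N a b) hft
  refine ⟨max σ 1, fun s hs => ?_⟩
  have hs1 : σ < s.re := lt_of_le_of_lt (le_max_left _ _) hs
  have hs2 : 1 < s.re := lt_of_le_of_lt (le_max_right _ _) hs
  let f : (Σ p : Pr N, MaximalSpectrum (RP a b p.1)) → ℂ := fun x =>
    (1 - (Nat.card (RP a b x.1.1 ⧸ x.2.asIdeal) : ℂ) ^ (-s))⁻¹
  have hfe : (fun m : MaximalSpectrum (RN N a b) =>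
      (1 - (Nat.card (RN N a b ⧸ m.asIdeal) : ℂ) ^ (-s))⁻¹) = f ∘ e := by
    funext m
    change _ = (1 - (Nat.card (RP a b (e m).1.1 ⧸ (e m).2.asIdeal) : ℂ) ^ (-s))⁻¹
    rw [he m]
  have hm : Multipliable (f ∘ e) := by
    rw [← hfe]
    exact hσ s hs1
  have hmf : Multipliable f := e.multipliable_iff.1 hm
  have hp : ∀ p : Pr N, HasProd (fun m : MaximalSpectrum (RP a b p.1) => f ⟨p, m⟩)
      (lf a b p.1 s) := fun p =>
    hL a b p.1 p.2.1 (fun h => p.2.2 (hN.2.2 p.1 p.2.1 h)) s hs2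
  rw [hfe]
  have h1 : ∏' m, (f ∘ e) m = ∏' x, f x := e.tprod_eq f
  rw [h1, Multipliable.tprod_sigma' (fun p => (hp p).multipliable) hmf]
  exact tprod_congr fun p => (hp p).tprod_eq

end Pool.Agent.NH4.ZS
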