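import Pool.Agent.NH4.ZS.Stm

set_option autoImplicit false

open Polynomial

namespace Pool.Agent.NH4.ZS.Loc

/-- multiplicativity of the cardinality of the quotient in an infinite Dedekind domain -/
theorem cardQuot_mul' {S : Type} [CommRing S] [IsDedekindDomain S] [Infinite S] (I J : Ideal S) :
    Submodule.cardQuot (I * J) = Submodule.cardQuot I * Submodule.cardQuot J := by
  exact UniqueFactorizationMonoid.multiplicative_of_coprime Submodule.cardQuot I J
      (Submodule.cardQuot_bot _ _)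
      (fun {I J} hI => by simp [Ideal.isUnit_iff.mp hI, Ideal.mul_top])
      (fun {I} i hI =>
        have : Ideal.IsPrime I := Ideal.isPrime_of_prime hI
        cardQuot_pow_of_prime hI.ne_zero)
      fun {I J} hIJ => cardQuot_mul_of_coprime <| Ideal.isCoprime_iff_sup_eq.mpr
        (Ideal.isUnit_iff.mp
          (hIJ (Ideal.dvd_iff_le.mpr le_sup_left) (Ideal.dvd_iff_le.mpr le_sup_right)))

theorem infinite_cr {k : Type} [Field k] (a b : k) : Infinite (wc a b).CoordinateRing := by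
  have : Nontrivial (wc a b).CoordinateRing := inferInstance
  exact Module.Free.infinite k[X] (wc a b).CoordinateRing

/-- the generating function -/
theorem hs {F : Type} [NormedField F] (q N : ℕ) (t : F) (ht : ‖(q : F) * t‖ < 1) :
    HasSum (fun n : ℕ => ((if n = 0 then 1 else if n = 1 then N else (N + 1) * q ^ (n - 1) : ℕ) : F)
      * t ^ n) ((1 - ((q : F) - N) * t + q * t ^ 2) / (1 - q * t)) := by
  have h1 : (1 : F) - q * t ≠ 0 := by
    intro h
    have : (q : F) * t = 1 := (sub_eq_zero.1 h).symm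
    rw [this, norm_one] at ht
    exact lt_irrefl _ ht
  have hg := (hasSum_geometric_of_norm_lt_one ht).mul_left (((N : F) + 1) * t * (q * t))
  have he : (1 - ((q : F) - N) * t + q * t ^ 2) / (1 - q * t) =
      ((N : F) + 1) * t * (q * t) * (1 - q * t)⁻¹ + (1 + N * t) := by
    field_simp
    ring
  rw [he]
  have h2 := (hasSum_nat_add_iff (f := fun n : ℕ => ((if n = 0 then 1 else if n = 1 then N else
    (N + 1) * q ^ (n - 1) : ℕ) : F) * t ^ n) (g := ((N : F) + 1) * t * (q * t) * (1 - q * t)⁻¹) 2).1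
  rw [Finset.sum_range_succ, Finset.sum_range_one] at h2
  simp only [if_true, Nat.cast_one, pow_zero, mul_one, one_ne_zero, if_false, pow_one] at h2
  apply h2
  refine hg.congr_fun fun n => ?_
  have e1 : n + 2 ≠ 0 := by omega
  have e2 : n + 2 ≠ 1 := by omega
  have e3 : n + 2 - 1 = n + 1 := by omega
  rw [if_neg e1, if_neg e2, e3]
  push_cast
  ring

section

variable {k : Type} [Field k] [Finite k] (a b : k)

theorem fin_quot (hC : S_CNT) (h2 : (2 : k) ≠ 0) (hd : 4 * a ^ 3 + 27 * b ^ 2 ≠ 0)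
    (I : Ideal (wc a b).CoordinateRing) (hI : I ≠ ⊥) :
    Module.Finite k ((wc a b).CoordinateRing ⧸ I) := by
  by_contra h
  have h0 : Module.finrank k ((wc a b).CoordinateRing ⧸ I) = 0 := Module.finrank_of_not_finite h
  have hsub : Subsingleton ((wc a b).CoordinateRing ⧸ (⊤ : Ideal (wc a b).CoordinateRing)) :=
    Ideal.Quotient.subsingleton_iff.2 rfl
  have h1 : Module.finrank k ((wc a b).CoordinateRing ⧸ (⊤ : Ideal (wc a b).CoordinateRing)) = 0 :=
    Module.finrank_zero_of_subsingleton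
  obtain ⟨-, hc⟩ := hC k a b h2 hd 0
  rw [if_pos rfl, Nat.card_eq_one_iff_unique] at hc
  have htop : (⊤ : Ideal (wc a b).CoordinateRing) ≠ ⊥ := top_ne_bot
  have := hc.1
  have he : (⟨I, hI, h0⟩ : Id k a b 0) = ⟨⊤, htop, h1⟩ := Subsingleton.elim _ _
  have hI' : I = ⊤ := congrArg Subtype.val he
  subst hI'
  exact h (Module.Finite.of_finite (R := k))

/-- ideals by degree -/
noncomputable def eqv : (Σ n, Id k a b n) ≃ {I : Ideal (wc a b).CoordinateRing // I ≠ ⊥} where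
  toFun x := ⟨x.2.1, x.2.2.1⟩
  invFun I := ⟨Module.finrank k ((wc a b).CoordinateRing ⧸ I.1), I.1, I.2, rfl⟩
  left_inv := by
    rintro ⟨n, I, hI, rfl⟩
    rfl
  right_inv := fun _ => rfl

theorem card_quot (hC : S_CNT) (h2 : (2 : k) ≠ 0) (hd : 4 * a ^ 3 + 27 * b ^ 2 ≠ 0)
    (x : Σ n, Id k a b n) :
    Nat.card ((wc a b).CoordinateRing ⧸ (eqv a b x).1) = Nat.card k ^ x.1 := by
  obtain ⟨n, I, hI, rfl⟩ := x
  have := fin_quot a b hC h2 hd I hI
  show Nat.card ((wc a b).CoordinateRing ⧸ I) = _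
  exact Module.natCard_eq_pow_finrank (K := k)

theorem hsum {F : Type} [NormedField F] [CompleteSpace F] (hC : S_CNT) (h2 : (2 : k) ≠ 0)
    (hd : 4 * a ^ 3 + 27 * b ^ 2 ≠ 0) (t : F) (hsm : Summable fun x : (Σ n, Id k a b n) => t ^ x.1)
    (ht : ‖((Nat.card k : ℕ) : F) * t‖ < 1) :
    ∑' x : (Σ n, Id k a b n), t ^ x.1 =
      ((1 - (((Nat.card k : ℕ) : F) -
        ((Nat.card {z : k × k // z.2 ^ 2 = z.1 ^ 3 + a * z.1 + b} : ℕ) : F)) * t +
          ((Nat.card k : ℕ) : F) * t ^ 2) / (1 - ((Nat.card k : ℕ) : F) * t)) := by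
  have hf : ∀ n, Finite (Id k a b n) := fun n => (hC k a b h2 hd n).1
  rw [hsm.tsum_sigma' (fun n => Summable.of_finite), ← (hs (Nat.card k)
    (Nat.card {z : k × k // z.2 ^ 2 = z.1 ^ 3 + a * z.1 + b}) t ht).tsum_eq]
  apply tsum_congr
  intro n
  show ∑' _ : Id k a b n, t ^ n = _
  rw [tsum_const, (hC k a b h2 hd n).2, nsmul_eq_mul]

theorem hsm (hC : S_CNT) (h2 : (2 : k) ≠ 0) (hd : 4 * a ^ 3 + 27 * b ^ 2 ≠ 0) (t : ℝ)
    (h0 : 0 ≤ t) (ht : (Nat.card k : ℝ) * t < 1) :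
    Summable fun x : (Σ n, Id k a b n) => t ^ x.1 := by
  have hf : ∀ n, Finite (Id k a b n) := fun n => (hC k a b h2 hd n).1
  rw [summable_sigma_of_nonneg (fun x => pow_nonneg h0 _)]
  refine ⟨fun n => Summable.of_finite, ?_⟩
  have hn : ‖((Nat.card k : ℕ) : ℝ) * t‖ < 1 := by
    rw [Real.norm_of_nonneg (mul_nonneg (Nat.cast_nonneg _) h0)]
    exact ht
  refine (summable_congr fun n => ?_).2 (hs (Nat.card k)
    (Nat.card {z : k × k // z.2 ^ 2 = z.1 ^ 3 + a * z.1 + b}) t hn).summable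
  show ∑' _ : Id k a b n, t ^ n = _
  rw [tsum_const, (hC k a b h2 hd n).2, nsmul_eq_mul]

end

end Pool.Agent.NH4.ZS.Loc

namespace Pool.Agent.NH4.ZS

open Loc

theorem t_LOC (hD : S_DED) (hC : S_CNT) (hE : S_EUG) : S_LOC := by
  intro a b p hp hpd s hs1
  haveI : Fact p.Prime := ⟨hp⟩
  have hp2 : (2 : ZMod p) ≠ 0 := by
    intro h
    apply hpd
    have : ((2 : ℤ) : ZMod p) = 0 := by exact_mod_cast h
    rw [ZMod.intCast_zmod_eq_zero_iff_dvd] at this
    exact Dvd.dvd.mul_right this _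
  have hdd : 4 * (a : ZMod p) ^ 3 + 27 * (b : ZMod p) ^ 2 ≠ 0 := by
    intro h
    apply hpd
    have : ((4 * a ^ 3 + 27 * b ^ 2 : ℤ) : ZMod p) = 0 := by
      push_cast
      exact h
    rw [ZMod.intCast_zmod_eq_zero_iff_dvd] at this
    exact Dvd.dvd.mul_left this _
  have hp0 : (p : ℂ) ≠ 0 := by exact_mod_cast hp.ne_zero
  have hp1 : (1 : ℝ) < p := by exact_mod_cast hp.one_lt
  set T : ℂ := (p : ℂ) ^ (-s) with hT
  have hnT : ‖T‖ = (p : ℝ) ^ (-s.re) := by
    rw [hT, Complex.norm_natCast_cpow_of_pos hp.pos, Complex.neg_re]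
  have hpT : (p : ℝ) * ‖T‖ < 1 := by
    rw [hnT]
    calc (p : ℝ) * (p : ℝ) ^ (-s.re) = (p : ℝ) ^ (1 + -s.re) := by
          rw [Real.rpow_add (by linarith), Real.rpow_one]
      _ < 1 := Real.rpow_lt_one_of_one_lt_of_neg hp1 (by linarith)
  have hT1 : ‖T‖ < 1 := by
    have := norm_nonneg T
    nlinarith
  obtain ⟨hded, -, hnf⟩ := hD (ZMod p) (a : ZMod p) (b : ZMod p) hp2 hdd
  haveI := infinite_cr (a : ZMod p) (b : ZMod p)
  have hck : Nat.card (ZMod p) = p := Nat.card_zmod p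
  -- the weight
  have hw : ∀ x : (Σ n, Id (ZMod p) (a : ZMod p) (b : ZMod p) n),
      ((Nat.card (RP a b p ⧸ (eqv (a : ZMod p) (b : ZMod p) x).1) : ℕ) : ℂ) ^ (-s) = T ^ x.1 := by
    intro x
    rw [card_quot (a : ZMod p) (b : ZMod p) hC hp2 hdd x, hck, hT, ← Complex.cpow_nat_mul,
      Complex.natCast_cpow_natCast_mul]
    push_cast
    rfl
  have hS1 : Summable fun x : (Σ n, Id (ZMod p) (a : ZMod p) (b : ZMod p) n) => ‖T‖ ^ x.1 :=
    hsm (a : ZMod p) (b : ZMod p) hC hp2 hdd ‖T‖ (norm_nonneg _) (by rw [hck]; exact hpT)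
  have key := hE (RP a b p) hnf (fun I => ((Nat.card (RP a b p ⧸ I) : ℕ) : ℂ) ^ (-s)) ?_ ?_ ?_ ?_
  · convert key using 1
    rw [← (eqv (a : ZMod p) (b : ZMod p)).tsum_eq]
    simp only [hw]
    rw [hsum (a : ZMod p) (b : ZMod p) hC hp2 hdd T ?_ ?_, hck]
    · unfold lf np
      have e1 : (p : ℂ) ^ (1 - 2 * s) = p * T ^ 2 := by
        rw [hT, sub_eq_add_neg, Complex.cpow_add _ _ hp0, Complex.cpow_one, ← Complex.cpow_nat_mul]
        congr 2
        push_cast
        ring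
      have e2 : (p : ℂ) ^ (1 - s) = p * T := by
        rw [hT, sub_eq_add_neg, Complex.cpow_add _ _ hp0, Complex.cpow_one]
      rw [e1, e2]
    · apply Summable.of_norm
      simpa only [norm_pow] using hS1
    · rw [hck, norm_mul, Complex.norm_natCast]
      exact hpT
  · have hsub : Subsingleton (RP a b p ⧸ (1 : Ideal (RP a b p))) :=
      Ideal.Quotient.subsingleton_iff.2 Ideal.one_eq_top
    simp [Nat.card_of_subsingleton (0 : RP a b p ⧸ (1 : Ideal (RP a b p)))]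
  · intro I J _ _
    have h := cardQuot_mul' I J
    simp only [Submodule.cardQuot_apply] at h
    show ((Nat.card (RP a b p ⧸ (I * J)) : ℕ) : ℂ) ^ (-s) = _
    rw [h, Nat.cast_mul, Complex.natCast_mul_natCast_cpow]
  · intro P
    have hP : P.asIdeal ≠ ⊥ := Ring.ne_bot_of_isMaximal_of_not_isField P.isMaximal hnf
    have h1 := hw ((eqv (a : ZMod p) (b : ZMod p)).symm ⟨P.asIdeal, hP⟩)
    rw [Equiv.apply_symm_apply] at h1
    have h2 : ((Nat.card (RP a b p ⧸ P.asIdeal) : ℕ) : ℂ) ^ (-s) = _ := h1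
    show ‖((Nat.card (RP a b p ⧸ P.asIdeal) : ℕ) : ℂ) ^ (-s)‖ < 1
    rw [h2, norm_pow]
    apply pow_lt_one₀ (norm_nonneg _) hT1
    show Module.finrank (ZMod p) (RP a b p ⧸ P.asIdeal) ≠ 0
    have := fin_quot (a : ZMod p) (b : ZMod p) hC hp2 hdd P.asIdeal hP
    have hnt : Nontrivial (RP a b p ⧸ P.asIdeal) := Ideal.Quotient.nontrivial_iff.2 P.isMaximal.ne_top
    exact (Module.finrank_pos (R := ZMod p)).ne'
  · rw [← (eqv (a : ZMod p) (b : ZMod p)).summable_iff]
    refine (summable_congr fun x => ?_).2 hS1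
    show ‖((Nat.card (RP a b p ⧸ (eqv (a : ZMod p) (b : ZMod p) x).1) : ℕ) : ℂ) ^ (-s)‖ = _
    rw [hw, norm_pow]

end Pool.Agent.NH4.ZS
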