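import Pool.Agent.NH4.ZS.Stm

/-!
# The Euler product of a ring of finite type over `ℤ` converges
-/

set_option autoImplicit false

namespace Pool.Agent.NH4.ZS

namespace MulP

/-- the number of the maximal ideals of norm `q` -/
theorem fiber_card {R : Type} [CommRing R] (s : Finset R)
    (hs : Algebra.adjoin ℤ (s : Set R) = ⊤) (q : ℕ) (hq : q ≠ 0)
    (u : Finset (MaximalSpectrum R)) (hu : ∀ m ∈ u, Nat.card (R ⧸ m.asIdeal) = q) :
    u.card ≤ q ^ s.card := by
  classical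
  rcases u.eq_empty_or_nonempty with rfl | ⟨m0, hm0⟩
  · simp
  have := m0.isMaximal
  let _ : Field (R ⧸ m0.asIdeal) := Ideal.Quotient.field m0.asIdeal
  have hK : Nat.card (R ⧸ m0.asIdeal) = q := hu m0 hm0
  have : Finite (R ⧸ m0.asIdeal) := Nat.finite_of_card_ne_zero (by rw [hK]; exact hq)
  have hequiv : ∀ m : u, Nonempty (R ⧸ m.1.asIdeal ≃+* R ⧸ m0.asIdeal) := by
    intro m
    have h1 := hu m.1 m.2
    have := m.1.isMaximal
    let _ : Field (R ⧸ m.1.asIdeal) := Ideal.Quotient.field m.1.asIdeal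
    have : Finite (R ⧸ m.1.asIdeal) := Nat.finite_of_card_ne_zero (by rw [h1]; exact hq)
    let _ := Fintype.ofFinite (R ⧸ m.1.asIdeal)
    let _ := Fintype.ofFinite (R ⧸ m0.asIdeal)
    exact ⟨FiniteField.ringEquivOfCardEq (by
      rw [← Nat.card_eq_fintype_card, ← Nat.card_eq_fintype_card, h1, hK])⟩
  let e : ∀ m : u, (R ⧸ m.1.asIdeal) ≃+* (R ⧸ m0.asIdeal) := fun m => (hequiv m).some
  let φ : u → R →+* R ⧸ m0.asIdeal := fun m =>
    (e m : (R ⧸ m.1.asIdeal) →+* (R ⧸ m0.asIdeal)).comp (Ideal.Quotient.mk m.1.asIdeal)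
  have hker : ∀ (m : u) (x : R), φ m x = 0 ↔ x ∈ m.1.asIdeal := by
    intro m x
    show e m (Ideal.Quotient.mk m.1.asIdeal x) = 0 ↔ _
    rw [map_eq_zero_iff (e m) (e m).injective, Ideal.Quotient.eq_zero_iff_mem]
  have hinj : Function.Injective (fun (m : u) (x : s) => φ m x.1) := by
    intro m m' h
    have h2 : (φ m).toIntAlgHom = (φ m').toIntAlgHom :=
      AlgHom.ext_of_adjoin_eq_top hs (fun x hx => congrFun h ⟨x, hx⟩)
    apply Subtype.ext
    apply MaximalSpectrum.ext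
    ext x
    rw [← hker m, ← hker m']
    have h3 : φ m x = φ m' x := DFunLike.congr_fun h2 x
    rw [h3]
  have h4 := Nat.card_le_card_of_injective _ hinj
  rw [Nat.card_fun, hK] at h4
  simpa using h4

end MulP

open MulP in
theorem t_MUL : S_MUL := by
  classical
  intro R _ hft
  obtain ⟨s, hs⟩ := hft.out
  refine ⟨s.card + 1, fun t ht => ?_⟩
  have ht1 : 1 < t.re := by
    have : (0 : ℝ) ≤ s.card := Nat.cast_nonneg _
    linarith
  have ht0 : t ≠ 0 := by
    rintro rfl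
    simp at ht1
    linarith
  set N : MaximalSpectrum R → ℕ := fun m => Nat.card (R ⧸ m.asIdeal) with hN
  set g : ℕ → ℝ := fun q => ‖(q : ℂ) ^ (-t)‖ with hg
  have hg0 : g 0 = 0 := by
    simp only [hg, Nat.cast_zero]
    rw [Complex.zero_cpow (neg_ne_zero.2 ht0), norm_zero]
  have hgp : ∀ q : ℕ, q ≠ 0 → g q = (q : ℝ) ^ (-t.re) := by
    intro q hq
    simp only [hg]
    rw [Complex.norm_natCast_cpow_of_pos (Nat.pos_of_ne_zero hq), Complex.neg_re]
  have hsum0 : Summable (fun q : ℕ => ((q : ℝ) ^ (t.re - s.card))⁻¹) :=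
    Real.summable_nat_rpow_inv.2 (by linarith)
  have hsum : Summable (fun m => g (N m)) := by
    refine summable_of_sum_le (c := ∑' q : ℕ, ((q : ℝ) ^ (t.re - s.card))⁻¹)
      (fun m => norm_nonneg _) ?_
    intro u
    rw [Finset.sum_comp g N]
    refine le_trans (Finset.sum_le_sum (g := fun q : ℕ => ((q : ℝ) ^ (t.re - s.card))⁻¹) ?_)
      (hsum0.sum_le_tsum _ (fun q _ => by positivity))
    intro q _
    by_cases hq : q = 0
    · rw [hq, hg0, smul_zero]
      positivity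
    · have hq' : (0 : ℝ) < q := by exact_mod_cast Nat.pos_of_ne_zero hq
      have h1 : ({m ∈ u | N m = q} : Finset _).card ≤ q ^ s.card :=
        fiber_card s hs q hq _ (fun m hm => (Finset.mem_filter.1 hm).2)
      have h2 : (({m ∈ u | N m = q} : Finset _).card : ℝ) ≤ (q : ℝ) ^ (s.card : ℝ) := by
        rw [Real.rpow_natCast]
        exact_mod_cast h1
      rw [nsmul_eq_mul, hgp q hq, ← Real.rpow_neg hq'.le, neg_sub, sub_eq_add_neg,
        Real.rpow_add hq']
      exact mul_le_mul_of_nonneg_right h2 (Real.rpow_nonneg hq'.le _)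
  have hhalf : ∀ m, g (N m) ≤ 1 / 2 := by
    intro m
    by_cases hq : N m = 0
    · rw [hq, hg0]
      norm_num
    · have := m.isMaximal
      have : Nontrivial (R ⧸ m.asIdeal) := Ideal.Quotient.nontrivial_iff.2 m.isMaximal.ne_top
      have : Finite (R ⧸ m.asIdeal) := Nat.finite_of_card_ne_zero hq
      have h2 : 2 ≤ N m := Finite.one_lt_card
      rw [hgp _ hq]
      calc ((N m : ℕ) : ℝ) ^ (-t.re) ≤ ((N m : ℕ) : ℝ) ^ (-1 : ℝ) :=
            Real.rpow_le_rpow_of_exponent_le (by exact_mod_cast (by omega : 1 ≤ N m)) (by linarith)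
        _ = ((N m : ℕ) : ℝ)⁻¹ := Real.rpow_neg_one _
        _ ≤ 1 / 2 := by
          rw [one_div]
          exact inv_anti₀ (by norm_num) (by exact_mod_cast h2)
  have key : ∀ m, ‖((N m : ℂ) ^ (-t)) / (1 - (N m : ℂ) ^ (-t))‖ ≤ 2 * g (N m) := by
    intro m
    rw [norm_div]
    have h1 : 1 / 2 ≤ ‖1 - (N m : ℂ) ^ (-t)‖ := by
      have h2 := norm_sub_norm_le (1 : ℂ) ((N m : ℂ) ^ (-t))
      rw [norm_one] at h2
      have h3 := hhalf m
      simp only [hg] at h3
      linarith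
    rw [div_le_iff₀ (by linarith)]
    show g (N m) ≤ 2 * g (N m) * _
    have h4 : 0 ≤ g (N m) := norm_nonneg _
    nlinarith
  have hsum2 : Summable (fun m => ((N m : ℂ) ^ (-t)) / (1 - (N m : ℂ) ^ (-t))) :=
    Summable.of_norm_bounded (hsum.mul_left 2) key
  refine (Complex.multipliable_one_add_of_summable hsum2).congr ?_
  intro m
  have h1 : (1 : ℂ) - (N m : ℂ) ^ (-t) ≠ 0 := by
    intro h0
    have h2 : (N m : ℂ) ^ (-t) = 1 := (sub_eq_zero.1 h0).symm
    have h3 := hhalf m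
    simp only [hg] at h3
    rw [h2, norm_one] at h3
    norm_num at h3
  show 1 + ((N m : ℂ) ^ (-t)) / (1 - (N m : ℂ) ^ (-t)) = (1 - (N m : ℂ) ^ (-t))⁻¹
  field_simp
  ring

end Pool.Agent.NH4.ZS
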