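import Pool.Agent.NH4.ZS.Stm

/-!
# Project ZS: the fibres of the surface
-/

set_option autoImplicit false

open Polynomial

namespace Pool.Agent.NH4.ZS

namespace Prm

open WeierstrassCurve.Affine

/-- Reduction of coordinate rings. -/
theorem gen {A B : Type} [CommRing A] [CommRing B] (f : A →+* B) (c : A)
    (hs : Function.Surjective f) (hk : ∀ x, f x = 0 ↔ c ∣ x) (W : WeierstrassCurve.Affine A)
    (W' : WeierstrassCurve.Affine B) (h : WeierstrassCurve.map W f = W') :
    ∃ π : W.CoordinateRing →+* W'.CoordinateRing, Function.Surjective π ∧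
      RingHom.ker π = Ideal.span {algebraMap A W.CoordinateRing c} := by
  subst h
  refine ⟨CoordinateRing.map W f, ?_, ?_⟩
  · intro y
    obtain ⟨p, q, rfl⟩ := CoordinateRing.exists_smul_basis_eq y
    obtain ⟨p', rfl⟩ := Polynomial.map_surjective f hs p
    obtain ⟨q', rfl⟩ := Polynomial.map_surjective f hs q
    refine ⟨p' • 1 + q' • CoordinateRing.mk W X, ?_⟩
    rw [map_add, CoordinateRing.map_smul, CoordinateRing.map_smul, map_one,
      CoordinateRing.map_mk, map_X]
  · have hd : ∀ P : A[X], P.map f = 0 → ∃ Q : A[X], P = C c * Q := by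
      intro P hP
      have : C c ∣ P := by
        rw [Polynomial.C_dvd_iff_dvd_coeff]
        intro i
        rw [← hk, ← Polynomial.coeff_map, hP, Polynomial.coeff_zero]
      obtain ⟨Q, hQ⟩ := this
      exact ⟨Q, hQ⟩
    apply le_antisymm
    · intro y hy
      rw [RingHom.mem_ker] at hy
      obtain ⟨p, q, rfl⟩ := CoordinateRing.exists_smul_basis_eq y
      rw [map_add, CoordinateRing.map_smul, CoordinateRing.map_smul, map_one,
        CoordinateRing.map_mk, map_X] at hy
      obtain ⟨hp, hq⟩ := CoordinateRing.smul_basis_eq_zero hy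
      obtain ⟨p', rfl⟩ := hd p hp
      obtain ⟨q', rfl⟩ := hd q hq
      rw [Ideal.mem_span_singleton]
      refine ⟨p' • 1 + q' • CoordinateRing.mk W X, ?_⟩
      have e : algebraMap A W.CoordinateRing c = CoordinateRing.mk W (C (C c)) := rfl
      rw [e]
      simp only [CoordinateRing.smul, map_mul]
      ring
    · rw [Ideal.span_singleton_le_iff_mem, RingHom.mem_ker]
      have e : algebraMap A W.CoordinateRing c = CoordinateRing.mk W (C (C c)) := rfl
      rw [e, CoordinateRing.map_mk, map_C, coe_mapRingHom, map_C, (hk c).2 dvd_rfl]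
      simp

/-- The reduction modulo `p`. -/
theorem red (N p : ℕ) (hN : 0 < N) (hp : p.Prime) (h : ¬ p ∣ N) :
    ∃ f : ZN N →+* ZMod p, Function.Surjective f ∧ ∀ x, f x = 0 ↔ (p : ZN N) ∣ x := by
  have := Fact.mk hp
  have hu : IsUnit (Int.castRingHom (ZMod p) (N : ℤ)) := by
    rw [eq_intCast, Int.cast_natCast, isUnit_iff_ne_zero]
    intro h1
    exact h ((ZMod.natCast_eq_zero_iff N p).1 h1)
  refine ⟨IsLocalization.Away.lift (N : ℤ) hu, ?_, ?_⟩
  · intro y
    obtain ⟨z, rfl⟩ := ZMod.intCast_surjective y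
    exact ⟨(z : ZN N), map_intCast _ z⟩
  · intro x
    constructor
    · intro h1
      obtain ⟨n, z, hz⟩ := IsLocalization.Away.surj (N : ℤ) x
      have h2 : (z : ZMod p) = 0 := by
        have := congrArg (IsLocalization.Away.lift (S := ZN N) (N : ℤ) hu) hz
        rw [map_mul, h1, zero_mul, eq_intCast (algebraMap ℤ (ZN N)) z, map_intCast] at this
        exact this.symm
      rw [ZMod.intCast_zmod_eq_zero_iff_dvd] at h2
      obtain ⟨w, rfl⟩ := h2
      have hun : IsUnit (algebraMap ℤ (ZN N) (N : ℤ) ^ n) :=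
        (IsLocalization.Away.algebraMap_isUnit (N : ℤ)).pow n
      have h3 : (p : ZN N) ∣ x * algebraMap ℤ (ZN N) (N : ℤ) ^ n := by
        rw [hz]
        refine ⟨(w : ZN N), ?_⟩
        push_cast
        simp
      exact hun.dvd_mul_right.1 h3
    · rintro ⟨y, rfl⟩
      rw [map_mul, map_natCast, ZMod.natCast_self, zero_mul]

end Prm

theorem t_PRM : S_PRM := by
  intro N a b p hN hp h
  obtain ⟨f, hs, hk⟩ := Prm.red N p hN hp h
  have e : WeierstrassCurve.map (wc (a : ZN N) (b : ZN N)) f = wc (a : ZMod p) (b : ZMod p) := by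
    unfold WeierstrassCurve.map wc
    simp
  obtain ⟨π, h1, h2⟩ := Prm.gen f (p : ZN N) hs hk _ _ e
  refine ⟨π, h1, ?_⟩
  rw [h2, map_natCast]

end Pool.Agent.NH4.ZS
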