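import Pool.Agent.NH4.ZS.Stm

/-!
# ZS-SEP: the cubic is separable (helper58)
-/

set_option autoImplicit false

open Polynomial

namespace Pool.Agent.NH4.ZS

theorem t_SEP : S_SEP := by
  intro k _ a b h
  have hd : derivative (X ^ 3 + C a * X + C b : k[X]) = C 3 * X ^ 2 + C a := by
    simp only [derivative_add, derivative_X_pow, derivative_mul, derivative_C, derivative_X]
    simp
  refine ⟨C (-(4 * a ^ 3 + 27 * b ^ 2)⁻¹) * (C (18 * a) * X - C (27 * b)),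
    C ((4 * a ^ 3 + 27 * b ^ 2)⁻¹) * (C (6 * a) * X ^ 2 - C (9 * b) * X + C (4 * a ^ 2)), ?_⟩
  rw [hd]
  have h1 : C ((4 * a ^ 3 + 27 * b ^ 2)⁻¹) * C (4 * a ^ 3 + 27 * b ^ 2) = (1 : k[X]) := by
    rw [← C_mul, inv_mul_cancel₀ h, C_1]
  rw [← h1]
  simp only [C_neg, C_mul, C_add, C_pow, C_ofNat]
  ring

end Pool.Agent.NH4.ZS
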