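import Pool.Agent.NH4.ZS.Stm

/-!
# Project ZS: closed points of an affine scheme
-/

set_option autoImplicit false

open AlgebraicGeometry

namespace Pool.Agent.NH4.ZS

namespace Spc

/-- the residue field at a closed point -/
theorem card_eq (R : Type) [CommRing R] (x : Spec (CommRingCat.of R))
    (hx : (show PrimeSpectrum R from x).asIdeal.IsMaximal) :
    Nat.card ((Spec (CommRingCat.of R)).residueField x) =
      Nat.card (R ⧸ (show PrimeSpectrum R from x).asIdeal) := by
  have e1 : ((Spec (CommRingCat.of R)).residueField x) ≃
      (show PrimeSpectrum R from x).asIdeal.ResidueField :=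
    (Scheme.Spec.residueFieldIso (CommRingCat.of R) x).commRingCatIsoToRingEquiv.toEquiv
  rw [Nat.card_congr e1]
  have := hx
  exact (Nat.card_congr (Equiv.ofBijective _
    (Ideal.bijective_algebraMap_quotient_residueField
      (show PrimeSpectrum R from x).asIdeal))).symm

end Spc

/-- SPC: closed points of an affine scheme -/
theorem t_SPC : S_SPC := by
  intro R _ s
  let e : {x : Spec (CommRingCat.of R) // IsClosed ({x} : Set (Spec (CommRingCat.of R)))} ≃
      MaximalSpectrum R :=
    { toFun := fun x => ⟨(show PrimeSpectrum R from x.1).asIdeal,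
        (PrimeSpectrum.isClosed_singleton_iff_isMaximal (show PrimeSpectrum R from x.1)).1 x.2⟩
      invFun := fun m => ⟨(show Spec (CommRingCat.of R) from m.toPrimeSpectrum),
        (PrimeSpectrum.isClosed_singleton_iff_isMaximal m.toPrimeSpectrum).2 m.isMaximal⟩
      left_inv := fun x => rfl
      right_inv := fun m => rfl }
  rw [← Equiv.tprod_eq e]
  refine tprod_congr fun x => ?_
  rw [Spc.card_eq R x.1 (e x).isMaximal]
  rfl

end Pool.Agent.NH4.ZS
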