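import Pool.Agent.NH4.ZS.Stm

/-!
# Project ZS: the units of the ring of the surface
-/

set_option autoImplicit false

open Polynomial

namespace Pool.Agent.NH4.ZS

namespace Uni

open WeierstrassCurve.Affine WeierstrassCurve.Affine.CoordinateRing

variable {k : Type} [Field k] {W : WeierstrassCurve.Affine k}

theorem unit_const (u : W.CoordinateRingˣ) :
    ∃ c : k, (u : W.CoordinateRing) = algebraMap k W.CoordinateRing c := by
  obtain ⟨p, q, h⟩ := exists_smul_basis_eq (u : W.CoordinateRing)
  have h1 : IsUnit (Algebra.norm k[X] (u : W.CoordinateRing)) := u.isUnit.map _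
  have h2 : (Algebra.norm k[X] (u : W.CoordinateRing)).degree = 0 := degree_eq_zero_of_isUnit h1
  rw [← h, degree_norm_smul_basis] at h2
  have hq : q = 0 := by
    by_contra hq
    have h3 : 2 • q.degree + 3 ≤ 0 := by
      rw [← h2]
      exact le_max_right _ _
    rw [degree_eq_natDegree hq] at h3
    have h4 : ((2 * q.natDegree + 3 : ℕ) : WithBot ℕ) ≤ ((0 : ℕ) : WithBot ℕ) := by
      push_cast
      rw [two_nsmul] at h3
      rw [two_mul]
      exact h3
    have : 2 * q.natDegree + 3 ≤ 0 := Nat.cast_le.1 h4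
    omega
  subst hq
  have hp : p.degree ≤ 0 := by
    by_cases hp0 : p = 0
    · rw [hp0, degree_zero]
      exact bot_le
    · have h3 : 2 • p.degree ≤ 0 := by
        rw [← h2]
        exact le_max_left _ _
      rw [degree_eq_natDegree hp0] at h3 ⊢
      have h4 : ((2 * p.natDegree : ℕ) : WithBot ℕ) ≤ ((0 : ℕ) : WithBot ℕ) := by
        push_cast
        rw [two_nsmul] at h3
        rw [two_mul]
        exact h3
      have h5 : 2 * p.natDegree ≤ 0 := Nat.cast_le.1 h4
      exact_mod_cast (by omega : p.natDegree ≤ 0)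
  refine ⟨p.coeff 0, ?_⟩
  rw [← h, zero_smul, add_zero, eq_C_of_degree_le_zero hp, coeff_C_zero,
    IsScalarTower.algebraMap_apply k k[X] W.CoordinateRing, Algebra.algebraMap_eq_smul_one]
  rfl

end Uni

theorem t_UNI (hG : S_GEN) (hU : S_UZN) : S_UNI := by
  intro N a b hN
  obtain ⟨ι, -, -, hc⟩ := hG N a b hN
  have key : ∀ u : (RN N a b)ˣ, ∃ c : ZN N, (u : RN N a b) = algebraMap (ZN N) (RN N a b) c := by
    intro u
    obtain ⟨c, h⟩ := Uni.unit_const (W := wc (a : ℚ) (b : ℚ)) (Units.map (ι : RN N a b →* RQ a b) u)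
    exact hc c u h
  have hinj : Function.Injective (algebraMap (ZN N) (RN N a b)) :=
    FaithfulSMul.algebraMap_injective (ZN N) (RN N a b)
  let φ : (ZN N)ˣ →* (RN N a b)ˣ := Units.map (algebraMap (ZN N) (RN N a b)).toMonoidHom
  have hφ : Function.Bijective φ := by
    constructor
    · intro x y hxy
      apply Units.ext
      apply hinj
      exact congrArg Units.val hxy
    · intro u
      obtain ⟨c, h1⟩ := key u
      obtain ⟨c', h2⟩ := key u⁻¹
      have h3 : c * c' = 1 := by
        apply hinj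
        rw [map_mul, map_one, ← h1, ← h2, Units.mul_inv]
      refine ⟨⟨c, c', h3, by rw [mul_comm]; exact h3⟩, Units.ext ?_⟩
      exact h1.symm
  let ψ : Additive (ZN N)ˣ ≃+ Additive (RN N a b)ˣ := MulEquiv.toAdditive (MulEquiv.ofBijective φ hφ)
  rw [← hU N hN]
  exact ψ.toIntLinearEquiv.rank_eq.symm

end Pool.Agent.NH4.ZS
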