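import Pool.Agent.NH4.ZS.Stm

/-!
# Project ZS, VRI: ideals whose product is generated by an integer
-/

set_option autoImplicit false

namespace Pool.Agent.NH4.ZS.Vri

variable {R : Type} [CommRing R]

/-- Division of an ideal by a generator of a principal ideal which contains it. -/
theorem exDiv (x : R) (I : Ideal R) (h : I ≤ Ideal.span {x}) :
    ∃ I' : Ideal R, I = Ideal.span {x} * I' := by
  refine ⟨Submodule.comap (LinearMap.lsmul R R x) I, le_antisymm ?_ ?_⟩
  · rw [Ideal.le_span_singleton_mul_iff]
    intro z hz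
    obtain ⟨y, hy⟩ := Ideal.mem_span_singleton'.1 (h hz)
    refine ⟨y, ?_, ?_⟩
    · rw [Submodule.mem_comap, LinearMap.lsmul_apply, smul_eq_mul, mul_comm, hy]
      exact hz
    · rw [mul_comm, hy]
  · rw [Ideal.span_singleton_mul_le_iff]
    intro z hz
    exact hz

end Pool.Agent.NH4.ZS.Vri

namespace Pool.Agent.NH4.ZS

open Vri

theorem t_VRI : S_VRI := by
  intro R _ _ _ hR m
  induction m using Nat.strong_induction_on with
  | _ m ih =>
    intro I J hm hIJ
    by_cases h1 : m = 1
    · refine ⟨1, one_ne_zero, ?_⟩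
      rw [h1, Nat.cast_one, Ideal.span_singleton_one] at hIJ
      rw [Nat.cast_one, Ideal.span_singleton_one, eq_top_iff, ← hIJ]
      exact Ideal.mul_le_left
    · have hp := Nat.minFac_prime h1
      obtain ⟨m', hm'⟩ := Nat.minFac_dvd m
      set p := m.minFac with hpdef
      have hm0 : m' ≠ 0 := by
        rintro rfl
        exact hm (by rw [hm', mul_zero])
      have hlt : m' < m := by
        have h2 := hp.two_le
        have h3 : 0 < m' := Nat.pos_of_ne_zero hm0
        calc m' < 2 * m' := by omega
          _ ≤ p * m' := Nat.mul_le_mul_right _ h2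
          _ = m := hm'.symm
      have hcast : (m : R) = (p : R) * (m' : R) := by
        rw [← Nat.cast_mul, ← hm']
      have hsp : Ideal.span {(m : R)} = Ideal.span {(p : R)} * Ideal.span {(m' : R)} := by
        rw [Ideal.span_singleton_mul_span_singleton, hcast]
      have hp0 : (p : R) ≠ 0 := Nat.cast_ne_zero.2 hp.ne_zero
      rcases hR p hp with hpr | hu
      · have hle : I * J ≤ Ideal.span {(p : R)} := by
          rw [hIJ, hsp]
          exact Ideal.mul_le_left
        rcases hpr.mul_le.1 hle with hI | hJ
        · obtain ⟨I', rfl⟩ := exDiv _ I hI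
          rw [hsp, mul_assoc, Ideal.span_singleton_mul_right_inj hp0] at hIJ
          obtain ⟨d, hd, hd2⟩ := ih m' hlt I' J hm0 hIJ
          refine ⟨p * d, Nat.mul_ne_zero hp.ne_zero hd, ?_⟩
          rw [hd2, Ideal.span_singleton_mul_span_singleton, Nat.cast_mul]
        · obtain ⟨J', rfl⟩ := exDiv _ J hJ
          rw [hsp, mul_left_comm, Ideal.span_singleton_mul_right_inj hp0] at hIJ
          exact ih m' hlt I J' hm0 hIJ
      · rw [hsp, Ideal.span_singleton_eq_top.2 hu, Ideal.top_mul] at hIJ
        exact ih m' hlt I J hm0 hIJ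

end Pool.Agent.NH4.ZS
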