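import Pool.Agent.NH4.ZS.Stm

/-!
# Project ZS, VRT: invertible modules which are trivial over `ℚ`
-/

set_option autoImplicit false

namespace Pool.Agent.NH4.ZS

namespace VRTp

open Submodule CommRing

theorem clear_denoms {R A : Type} [CommRing R] [CommRing A] [Algebra R A]
    (hz : ∀ z : A, ∃ (n : ℤ) (r : R), n ≠ 0 ∧ (n : A) * z = algebraMap R A r)
    (I : Submodule R A) (hI : I.FG) :
    ∃ n : ℤ, n ≠ 0 ∧ ∀ x ∈ I, ∃ r : R, (n : A) * x = algebraMap R A r := by
  refine Submodule.fg_induction (motive := fun I _ =>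
    ∃ n : ℤ, n ≠ 0 ∧ ∀ x ∈ I, ∃ r : R, (n : A) * x = algebraMap R A r) ?_ ?_ I hI
  · intro x
    obtain ⟨n, r, hn, hr⟩ := hz x
    refine ⟨n, hn, ?_⟩
    intro y hy
    obtain ⟨t, rfl⟩ := Submodule.mem_span_singleton.1 hy
    refine ⟨t * r, ?_⟩
    rw [map_mul, ← hr, Algebra.smul_def]
    ring
  · rintro M₁ M₂ _ _ ⟨n₁, h₁, H₁⟩ ⟨n₂, h₂, H₂⟩
    refine ⟨n₁ * n₂, mul_ne_zero h₁ h₂, ?_⟩
    intro x hx
    obtain ⟨y, hy, z, hz, rfl⟩ := Submodule.mem_sup.1 hx
    obtain ⟨r, hr⟩ := H₁ y hy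
    obtain ⟨s, hs⟩ := H₂ z hz
    refine ⟨n₂ * r + n₁ * s, ?_⟩
    rw [map_add, map_mul, map_mul, ← hr, ← hs]
    simp only [map_intCast]
    push_cast
    ring

end VRTp

open Submodule CommRing in
theorem t_VRT (h : S_VRI) : S_VRT := by
  intro R A _ _ _ _ _ _ hinj hz hu hp
  have hfs : FaithfulSMul R A := (faithfulSMul_iff_algebraMap_injective R A).2 hinj
  rw [injective_iff_map_eq_one]
  intro P hP
  have hP' : P ∈ (unitsToPic R A).range := by
    rw [Submodule.range_unitsToPic]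
    exact hP
  obtain ⟨I, rfl⟩ := hP'
  -- denominators
  obtain ⟨n₁, hn₁, H₁⟩ := VRTp.clear_denoms hz I.1 (Submodule.fg_unit I)
  obtain ⟨n₂, hn₂, H₂⟩ := VRTp.clear_denoms hz (I⁻¹).1 (Submodule.fg_unit I⁻¹)
  set n : ℤ := n₁ * n₂ with hn
  have hn0 : n ≠ 0 := mul_ne_zero hn₁ hn₂
  have K₁ : ∀ x ∈ I.1, ∃ r : R, (n : A) * x = algebraMap R A r := by
    intro x hx
    obtain ⟨r, hr⟩ := H₁ x hx
    refine ⟨n₂ * r, ?_⟩
    rw [map_mul, ← hr, hn]
    simp only [map_intCast]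
    push_cast
    ring
  have K₂ : ∀ x ∈ (I⁻¹).1, ∃ r : R, (n : A) * x = algebraMap R A r := by
    intro x hx
    obtain ⟨r, hr⟩ := H₂ x hx
    refine ⟨n₁ * r, ?_⟩
    rw [map_mul, ← hr, hn]
    simp only [map_intCast]
    push_cast
    ring
  set f : R →ₐ[R] A := Algebra.ofId R A with hf
  have hfi : Function.Injective f.toLinearMap := hinj
  -- the two ideals
  have key : ∀ M : Submodule R A, (∀ x ∈ M, ∃ r : R, (n : A) * x = algebraMap R A r) →
      ∃ I' : Ideal R, Submodule.map f.toLinearMap I' = span R {(n : A)} * M := by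
    intro M hM
    refine ⟨Submodule.comap f.toLinearMap (span R {(n : A)} * M), ?_⟩
    rw [Submodule.map_comap_eq, inf_eq_right]
    intro y hy
    obtain ⟨x, hx, rfl⟩ := Submodule.mem_span_singleton_mul.1 hy
    obtain ⟨r, hr⟩ := hM x hx
    exact ⟨r, hr.symm⟩
  obtain ⟨I', hI'⟩ := key I.1 K₁
  obtain ⟨J', hJ'⟩ := key (I⁻¹).1 K₂
  have hIJ : I' * J' = Ideal.span {((n.natAbs ^ 2 : ℕ) : R)} := by
    apply Submodule.map_injective_of_injective hfi
    have e1 : Submodule.map f.toLinearMap (I' * J') =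
        Submodule.map f.toLinearMap I' * Submodule.map f.toLinearMap J' :=
      Submodule.map_mul I' J' f
    rw [e1, hI', hJ']
    have e2 : span R {(n : A)} * I.1 * (span R {(n : A)} * (I⁻¹).1) = span R {((n : A) * (n : A))} := by
      rw [mul_mul_mul_comm, Submodule.span_mul_span]
      simp
    rw [e2, Ideal.span, Submodule.map_span, Set.image_singleton]
    congr 2
    have e3 : ((n.natAbs ^ 2 : ℕ) : ℤ) = n * n := by
      rw [Nat.cast_pow, Int.natCast_natAbs, sq_abs]; ring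
    have e4 : ((n.natAbs ^ 2 : ℕ) : A) = (n : A) * (n : A) := by
      have : (((n.natAbs ^ 2 : ℕ) : ℤ) : A) = ((n * n : ℤ) : A) := by rw [e3]
      rw [Int.cast_natCast] at this
      rw [this]; push_cast; ring
    rw [← e4]
    simp [hf]
  obtain ⟨d, hd, hId⟩ := h R hp (n.natAbs ^ 2) I' J' (pow_ne_zero _ (Int.natAbs_ne_zero.2 hn0)) hIJ
  obtain ⟨un, hun⟩ := hu n hn0
  obtain ⟨ud, hud⟩ := hu (d : ℤ) (by exact_mod_cast hd)
  have hcI : span R {(n : A)} * I.1 = span R {(d : A)} := by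
    rw [← hI', hId, Ideal.span, Submodule.map_span, Set.image_singleton]
    simp [hf]
  have hI : I.1 = span R {((un⁻¹ * ud : Aˣ) : A)} := by
    have e5 : span R {((un⁻¹ : Aˣ) : A)} * (span R {(n : A)} * I.1) = I.1 := by
      rw [← mul_assoc, Submodule.span_mul_span]
      simp only [Set.mul_singleton, Set.image_singleton, ← hun]
      simp
      rw [← Submodule.one_eq_span, one_mul]
    rw [← e5, hcI, Submodule.span_mul_span]
    simp only [Set.mul_singleton, Set.image_singleton, Units.val_mul, hud]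
    simp
  have hk : I ∈ (unitsToPic R A).ker := by
    rw [Submodule.ker_unitsToPic]
    refine ⟨un⁻¹ * ud, Units.ext ?_⟩
    rw [hI]
    rfl
  exact hk

end Pool.Agent.NH4.ZS
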