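import Pool.Agent.NH4.ZS.Stm

/-!
# Project ZS: the continuation is meromorphic
-/

set_option autoImplicit false

open Filter Topology

namespace Pool.Agent.NH4.ZS

namespace Zme

/-- The Riemann zeta function is meromorphic. -/
theorem mero_riemann : MeromorphicOn riemannZeta Set.univ := by
  intro z _
  by_cases hz : z = 1
  · subst hz
    refine ⟨2, ?_⟩
    refine Complex.analyticAt_of_differentiable_on_punctured_nhds_of_continuousAt ?_ ?_
    · filter_upwards [self_mem_nhdsWithin] with s hs
      exact ((differentiableAt_id.sub_const 1).pow 2).smul (differentiableAt_riemannZeta hs)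
    · rw [continuousAt_iff_punctured_nhds]
      have h1 := riemannZeta_residue_one
      have h2 : Tendsto (fun s : ℂ => s - 1) (𝓝[≠] 1) (𝓝 0) := by
        have : Tendsto (fun s : ℂ => s - 1) (𝓝 1) (𝓝 (1 - 1)) :=
          (continuous_id.sub continuous_const).tendsto 1
        rw [sub_self] at this
        exact this.mono_left nhdsWithin_le_nhds
      have h3 := h2.mul h1
      have h4 : (((1 : ℂ) - 1) ^ 2 • riemannZeta 1) = 0 * 1 := by simp
      rw [h4]
      refine h3.congr fun s => ?_
      rw [smul_eq_mul]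
      ring
  · refine AnalyticAt.meromorphicAt ?_
    refine DifferentiableOn.analyticAt (s := {1}ᶜ) (fun s hs => ?_)
      (isOpen_compl_singleton.mem_nhds hz)
    exact (differentiableAt_riemannZeta hs).differentiableWithinAt

variable {N : ℕ} {a b : ℤ} {p : ℕ}

theorem diff_cpow (hp : p ≠ 0) {g : ℂ → ℂ} (hg : Differentiable ℂ g) :
    Differentiable ℂ (fun s : ℂ => (p : ℂ) ^ g s) := by
  intro s
  exact (hg s).const_cpow (Or.inl (by exact_mod_cast hp))

theorem diff_one (hp : p ≠ 0) : Differentiable ℂ (fun s : ℂ => 1 - (p : ℂ) ^ (1 - s)) :=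
  (differentiable_const _).sub (diff_cpow hp ((differentiable_const _).sub differentiable_id))

theorem diff_ef (hp : p ≠ 0) : Differentiable ℂ (ef a b p) := by
  have h1 : Differentiable ℂ (fun s : ℂ => (p : ℂ) ^ (-s)) := diff_cpow hp differentiable_id.neg
  have h2 : Differentiable ℂ (fun s : ℂ => (p : ℂ) ^ (1 - 2 * s)) :=
    diff_cpow hp ((differentiable_const _).sub (differentiable_id.const_mul 2))
  exact ((differentiable_const _).sub (h1.const_mul _)).add h2

theorem ne_of_mem (h : p ∈ N.primeFactors) : p ≠ 0 := (Nat.prime_of_mem_primeFactors h).ne_zero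

theorem mem_of_mem (h : p ∈ eP N a b) : p ∈ N.primeFactors := (Finset.mem_filter.1 h).1

theorem mero1 (z : ℂ) :
    ∀ p ∈ N.primeFactors, MeromorphicAt (fun s : ℂ => 1 - (p : ℂ) ^ (1 - s)) z := fun _ hp =>
  ((diff_one (ne_of_mem hp)).analyticAt z).meromorphicAt

theorem mero2 (z : ℂ) : MeromorphicAt (fun s : ℂ => riemannZeta (s - 1)) z :=
  MeromorphicAt.comp_analyticAt (f := riemannZeta) (g := fun s : ℂ => s - 1)
    (mero_riemann (z - 1) (Set.mem_univ _)) (analyticAt_id.sub analyticAt_const)

theorem mero3 (z : ℂ) : ∀ p ∈ eP N a b, MeromorphicAt (fun s : ℂ => (ef a b p s)⁻¹) z := fun _ hp =>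
  ((diff_ef (ne_of_mem (mem_of_mem hp))).analyticAt z).meromorphicAt.inv

end Zme

open Zme

/-- **ZME** -/
theorem t_ZME : S_ZME := by
  intro N a b F hF z _
  have h4 : MeromorphicAt (fun s : ℂ => (F s)⁻¹) z := (hF.analyticAt z).meromorphicAt.inv
  exact (((MeromorphicAt.fun_prod (mero1 z)).mul (mero2 z)).mul
    (MeromorphicAt.fun_prod (mero3 z))).mul h4

end Pool.Agent.NH4.ZS
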