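import Pool.Agent.NH4.ZS.Stm
import Pool.Agent.H341R2.WeilSharp

/-! Project ZS, job ZNV: no zeros of the `L`-function at `2, 3, …` (helper86). -/

set_option autoImplicit false

open Polynomial

namespace Pool.Agent.NH4.ZS.ZNV

lemma np_eq (a b : ℤ) (p : ℕ) [Fact p.Prime] (h2 : p ≠ 2) :
    (np a b p : ℤ) = p + ∑ x : ZMod p,
      quadraticChar (ZMod p) ((X ^ 3 + C (a : ZMod p) * X + C (b : ZMod p)).eval x) := by
  classical
  have hF : ringChar (ZMod p) ≠ 2 := by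
    rw [ZMod.ringChar_zmod_n]
    exact h2
  unfold np
  rw [Nat.card_eq_fintype_card, Fintype.card_subtype]
  have h1 : (Finset.univ.filter fun q : ZMod p × ZMod p =>
      q.2 ^ 2 = q.1 ^ 3 + (a : ZMod p) * q.1 + (b : ZMod p)).card =
      ∑ x : ZMod p, (Finset.univ.filter fun y : ZMod p =>
        y ^ 2 = x ^ 3 + (a : ZMod p) * x + (b : ZMod p)).card := by
    simp_rw [Finset.card_filter]
    rw [Fintype.sum_prod_type]
  rw [h1]
  push_cast
  have h3 : ∀ x : ZMod p, ((Finset.univ.filter fun y : ZMod p =>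
        y ^ 2 = x ^ 3 + (a : ZMod p) * x + (b : ZMod p)).card : ℤ) =
      1 + quadraticChar (ZMod p) ((X ^ 3 + C (a : ZMod p) * X + C (b : ZMod p)).eval x) := by
    intro x
    have h4 := quadraticChar_card_sqrts hF (x ^ 3 + (a : ZMod p) * x + (b : ZMod p))
    have h5 : (X ^ 3 + C (a : ZMod p) * X + C (b : ZMod p)).eval x =
        x ^ 3 + (a : ZMod p) * x + (b : ZMod p) := by simp
    rw [h5, add_comm 1 (quadraticChar (ZMod p) _), ← h4, Set.toFinset_ofPred]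
  simp_rw [h3]
  rw [Finset.sum_add_distrib]
  simp [ZMod.card]

lemma np_bound (a b : ℤ) (p : ℕ) [Fact p.Prime] (h2 : p ≠ 2) :
    |(p : ℝ) - np a b p| ≤ 2 * Real.sqrt p := by
  have hF : ringChar (ZMod p) ≠ 2 := by
    rw [ZMod.ringChar_zmod_n]
    exact h2
  set f : (ZMod p)[X] := X ^ 3 + C (a : ZMod p) * X + C (b : ZMod p) with hf
  have hd : f.natDegree = 3 := by
    rw [hf]
    compute_degree!
  have hw := Pool.Agent.H341R2.Sharp.weil_sharp hF f (by rw [hd]; norm_num) (by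
    intro c h hch
    have h0 : f ≠ 0 := by
      intro h0
      rw [h0] at hd
      simp at hd
    have hc : c ≠ 0 := by
      rintro rfl
      apply h0
      rw [hch]; simp
    have := congrArg natDegree hch
    rw [hd, natDegree_C_mul hc, natDegree_pow] at this
    omega)
  rw [hd, ZMod.card] at hw
  have h1 : (p : ℝ) - np a b p = -∑ x : ZMod p, (quadraticChar (ZMod p) (f.eval x) : ℝ) := by
    have h3 : ((np a b p : ℤ) : ℝ) = ((p + ∑ x : ZMod p,
      quadraticChar (ZMod p) (f.eval x) : ℤ) : ℝ) := by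
      rw [hf, np_eq a b p h2]
    push_cast at h3
    linarith
  rw [h1, abs_neg]
  refine hw.trans (le_of_eq ?_)
  norm_num

/-- the Euler factor minus one -/
noncomputable def u (a b : ℤ) (m p : ℕ) : ℂ :=
  -(((p : ℂ) - (np a b p : ℂ)) * (p : ℂ) ^ (-(m : ℂ))) + (p : ℂ) ^ (1 - 2 * (m : ℂ))

lemma u_le (a b : ℤ) {m p : ℕ} (hm : 2 ≤ m) (hp : p.Prime) (h2 : p ≠ 2) :
    ‖u a b m p‖ ≤ 3 * (p : ℝ) ^ (-(3 / 2) : ℝ) := by
  have : Fact p.Prime := ⟨hp⟩
  have hp1 : (1 : ℝ) ≤ p := by exact_mod_cast hp.one_lt.le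
  have hp0 : (0 : ℝ) < p := by linarith
  have hm' : (2 : ℝ) ≤ m := by exact_mod_cast hm
  have h1 : ‖(p : ℂ) - (np a b p : ℂ)‖ ≤ 2 * Real.sqrt p := by
    have h := np_bound a b p h2
    have e : (p : ℂ) - (np a b p : ℂ) = (((p : ℝ) - np a b p : ℝ) : ℂ) := by push_cast; rfl
    rw [e, Complex.norm_real]
    exact h
  have h3 : ‖(p : ℂ) ^ (-(m : ℂ))‖ ≤ (p : ℝ) ^ (-2 : ℝ) := by
    rw [Complex.norm_natCast_cpow_of_pos hp.pos]
    apply Real.rpow_le_rpow_of_exponent_le hp1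
    simp only [Complex.neg_re, Complex.natCast_re]
    linarith
  have h4 : ‖(p : ℂ) ^ (1 - 2 * (m : ℂ))‖ ≤ (p : ℝ) ^ (-(3 / 2) : ℝ) := by
    rw [Complex.norm_natCast_cpow_of_pos hp.pos]
    apply Real.rpow_le_rpow_of_exponent_le hp1
    simp only [Complex.sub_re, Complex.one_re, Complex.mul_re, Complex.natCast_re,
      Complex.re_ofNat, Complex.im_ofNat, zero_mul, sub_zero]
    linarith
  have h5 : 2 * Real.sqrt p * (p : ℝ) ^ (-2 : ℝ) = 2 * (p : ℝ) ^ (-(3 / 2) : ℝ) := by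
    rw [Real.sqrt_eq_rpow, mul_assoc, ← Real.rpow_add hp0]
    norm_num
  unfold u
  refine (norm_add_le _ _).trans ?_
  rw [norm_neg, norm_mul]
  have h6 := mul_le_mul h1 h3 (norm_nonneg _) (by positivity)
  rw [h5] at h6
  linarith

lemma small {p : ℕ} (h : 3 ≤ p) : 3 * (p : ℝ) ^ (-(3 / 2) : ℝ) < 1 := by
  have h3 : (3 : ℝ) ≤ p := by exact_mod_cast h
  have h1 : (p : ℝ) ^ (-(3 / 2) : ℝ) ≤ (3 : ℝ) ^ (-(3 / 2) : ℝ) :=
    Real.rpow_le_rpow_of_nonpos (by norm_num) h3 (by norm_num)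
  have h2 : (3 : ℝ) ^ (-(3 / 2) : ℝ) < (3 : ℝ) ^ (-1 : ℝ) :=
    Real.rpow_lt_rpow_of_exponent_lt (by norm_num) (by norm_num)
  rw [Real.rpow_neg_one] at h2
  linarith

end Pool.Agent.NH4.ZS.ZNV

namespace Pool.Agent.NH4.ZS

open ZNV in
theorem t_ZNV : S_ZNV := by
  classical
  intro a b _ F hF m hm
  have hre : (3 : ℝ) / 2 < ((m : ℂ)).re := by
    have : (2 : ℝ) ≤ m := by exact_mod_cast hm
    rw [Complex.natCast_re]
    linarith
  have hprod := hF.2 (m : ℂ) hre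
  let v : ℕ → ℂ := fun p =>
    if p.Prime ∧ ¬ ((p : ℤ) ∣ 2 * (-4 * a ^ 3 - 27 * b ^ 2)) then u a b m p else 0
  have hgood : ∀ p : ℕ, p.Prime ∧ ¬ ((p : ℤ) ∣ 2 * (-4 * a ^ 3 - 27 * b ^ 2)) →
      p.Prime ∧ p ≠ 2 := by
    rintro p ⟨h1, h2⟩
    refine ⟨h1, ?_⟩
    rintro rfl
    exact h2 (dvd_mul_right _ _)
  have hv : ∀ p, ‖v p‖ ≤ 3 * (p : ℝ) ^ (-(3 / 2) : ℝ) := by
    intro p
    by_cases h : p.Prime ∧ ¬ ((p : ℤ) ∣ 2 * (-4 * a ^ 3 - 27 * b ^ 2))
    · simp only [v, if_pos h]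
      exact u_le a b hm (hgood p h).1 (hgood p h).2
    · simp only [v, if_neg h, norm_zero]
      positivity
  have hne : ∀ p, 1 + v p ≠ 0 := by
    intro p h0
    by_cases h : p.Prime ∧ ¬ ((p : ℤ) ∣ 2 * (-4 * a ^ 3 - 27 * b ^ 2))
    · have h3 : 3 ≤ p := by
        have h4 := (hgood p h).1.two_le
        have h5 := (hgood p h).2
        omega
      have h6 := (hv p).trans_lt (small h3)
      have h7 : v p = -1 := by linear_combination h0
      rw [h7] at h6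
      norm_num at h6
    · simp only [v, if_neg h, add_zero] at h0
      exact one_ne_zero h0
  have hsum : Summable fun p => ‖v p‖ := by
    refine Summable.of_nonneg_of_le (fun _ => norm_nonneg _) hv ?_
    exact (Real.summable_nat_rpow.2 (by norm_num)).mul_left 3
  have hm2 : Multipliable fun p => 1 + v p := multipliable_one_add_of_summable hsum
  obtain ⟨P, hP⟩ := hm2
  have h1 := hprod.mul hP
  have h2 : (fun p : ℕ => (if p.Prime ∧ ¬ ((p : ℤ) ∣ 2 * (-4 * a ^ 3 - 27 * b ^ 2)) then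
        (1 - ((p : ℂ) - (Nat.card {q : ZMod p × ZMod p //
            q.2 ^ 2 = q.1 ^ 3 + (a : ZMod p) * q.1 + (b : ZMod p)} : ℂ))
            * (p : ℂ) ^ (-(m : ℂ)) + (p : ℂ) ^ (1 - 2 * (m : ℂ)))⁻¹
      else 1) * (1 + v p)) = fun _ => 1 := by
    funext p
    by_cases h : p.Prime ∧ ¬ ((p : ℤ) ∣ 2 * (-4 * a ^ 3 - 27 * b ^ 2))
    · rw [if_pos h]
      have h3 : (1 - ((p : ℂ) - (Nat.card {q : ZMod p × ZMod p //
            q.2 ^ 2 = q.1 ^ 3 + (a : ZMod p) * q.1 + (b : ZMod p)} : ℂ))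
            * (p : ℂ) ^ (-(m : ℂ)) + (p : ℂ) ^ (1 - 2 * (m : ℂ))) = 1 + v p := by
        simp only [v, if_pos h, u, np]
        ring
      rw [h3]
      exact inv_mul_cancel₀ (hne p)
    · rw [if_neg h]
      simp only [v, if_neg h, add_zero, mul_one]
  have h3 : HasProd (fun _ : ℕ => (1 : ℂ)) (F m * P) := by
    rw [← h2]
    exact h1
  have h4 := h3.unique hasProd_one
  intro h0
  rw [h0, zero_mul] at h4
  exact zero_ne_one h4

end Pool.Agent.NH4.ZS
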