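import Pool.Agent.NH4.ZS.Zme

/-!
# Project ZS: the order at `1`
-/

set_option autoImplicit false

open Filter Topology

namespace Pool.Agent.NH4.ZS

namespace Zo1

open Zme

variable {N : ℕ} {a b : ℤ} {p : ℕ}

theorem order_zero {f : ℂ → ℂ} {z : ℂ} (h : AnalyticAt ℂ f z) (h0 : f z ≠ 0) :
    meromorphicOrderAt f z = 0 := by
  rw [h.meromorphicOrderAt_eq, h.analyticOrderAt_eq_zero.2 h0]
  rfl

theorem order1 (hp : p.Prime) :
    meromorphicOrderAt (fun s : ℂ => 1 - (p : ℂ) ^ (1 - s)) 1 = 1 := by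
  have h := (diff_one hp.ne_zero).analyticAt 1
  have hp0 : (p : ℂ) ≠ 0 := by exact_mod_cast hp.ne_zero
  have hd : HasDerivAt (fun s : ℂ => 1 - (p : ℂ) ^ (1 - s)) (Complex.log p) 1 := by
    have h1 := (((hasDerivAt_id (1 : ℂ)).const_sub 1).const_cpow (c := (p : ℂ))
      (Or.inl hp0)).const_sub 1
    refine h1.congr_deriv ?_
    simp
  have hlog : Complex.log p ≠ 0 := by
    rw [← Complex.natCast_log]
    have : Real.log (p : ℝ) ≠ 0 := (Real.log_pos (by exact_mod_cast hp.one_lt)).ne'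
    exact_mod_cast this
  have h2 := h.analyticOrderAt_eq_one_of_zero_deriv_ne_zero (by simp) (by rw [hd.deriv]; exact hlog)
  rw [h.meromorphicOrderAt_eq, h2]
  rfl

theorem ef_one (hp : p.Prime) : ef a b p 1 ≠ 0 := by
  have hp0 : (p : ℂ) ≠ 0 := by exact_mod_cast hp.ne_zero
  have h1 : ef a b p 1 = ((np a b p + 1 : ℕ) : ℂ) / p := by
    unfold ef
    rw [show (1 : ℂ) - 2 * 1 = -1 by norm_num, Complex.cpow_neg_one]
    field_simp
    push_cast
    ring
  rw [h1]
  exact div_ne_zero (Nat.cast_ne_zero.2 (Nat.succ_ne_zero _)) hp0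

theorem order2 : meromorphicOrderAt (fun s : ℂ => riemannZeta (s - 1)) 1 = 0 := by
  have hd : ∀ᶠ s in 𝓝 (1 : ℂ), DifferentiableAt ℂ (fun s : ℂ => riemannZeta (s - 1)) s := by
    have h2 : ∀ᶠ s in 𝓝 (1 : ℂ), s ≠ 2 := continuousAt_id.eventually_ne (by norm_num)
    filter_upwards [h2] with s hs
    have h3 : s - 1 ≠ 1 := by
      intro h
      apply hs
      linear_combination h
    exact DifferentiableAt.comp s (g := riemannZeta) (f := fun s : ℂ => s - 1)
      (differentiableAt_riemannZeta h3) (differentiableAt_id.sub_const 1)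
  have ha : AnalyticAt ℂ (fun s : ℂ => riemannZeta (s - 1)) 1 :=
    Complex.analyticAt_iff_eventually_differentiableAt.2 hd
  refine order_zero ha ?_
  simp only [sub_self]
  rw [riemannZeta_zero]
  norm_num

end Zo1

open Zme Zo1

/-- **ZO1** -/
theorem t_ZO1 : S_ZO1 := by
  intro N a b hN F hF r hr
  have ha := hF.1.analyticAt 1
  have h4 : MeromorphicAt (fun s : ℂ => (F s)⁻¹) 1 := ha.meromorphicAt.inv
  have o4 : meromorphicOrderAt (fun s : ℂ => (F s)⁻¹) 1 = ((-(r : ℤ) : ℤ) : WithTop ℤ) := by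
    have h5 : meromorphicOrderAt F 1 = ((r : ℤ) : WithTop ℤ) := by
      rw [ha.meromorphicOrderAt_eq, hr]
      rfl
    rw [fun_meromorphicOrderAt_inv, h5]
    rfl
  have o1 : meromorphicOrderAt (fun s : ℂ => ∏ p ∈ N.primeFactors, (1 - (p : ℂ) ^ (1 - s))) 1 =
      ((N.primeFactors.card : ℤ) : WithTop ℤ) := by
    rw [meromorphicOrderAt_fun_prod (mero1 1), Finset.sum_congr rfl (fun p hp =>
      order1 (Nat.prime_of_mem_primeFactors hp)), Finset.sum_const]
    simp
  have o3 : meromorphicOrderAt (fun s : ℂ => ∏ p ∈ eP N a b, (ef a b p s)⁻¹) 1 = 0 := by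
    rw [meromorphicOrderAt_fun_prod (mero3 1)]
    refine Finset.sum_eq_zero fun p hp => ?_
    have hp' := Nat.prime_of_mem_primeFactors (mem_of_mem hp)
    rw [fun_meromorphicOrderAt_inv, order_zero ((diff_ef hp'.ne_zero).analyticAt 1) (ef_one hp')]
    rfl
  have m1 : MeromorphicAt (fun s : ℂ => ∏ p ∈ N.primeFactors, (1 - (p : ℂ) ^ (1 - s))) 1 :=
    MeromorphicAt.fun_prod (mero1 1)
  have m3 : MeromorphicAt (fun s : ℂ => ∏ p ∈ eP N a b, (ef a b p s)⁻¹) 1 :=
    MeromorphicAt.fun_prod (mero3 1)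
  have e1 := fun_meromorphicOrderAt_mul m1 (mero2 1)
  have e2 := fun_meromorphicOrderAt_mul (m1.fun_mul (mero2 1)) m3
  have e3 := fun_meromorphicOrderAt_mul ((m1.fun_mul (mero2 1)).fun_mul m3) h4
  rw [e2, e1, o1, order2, o3, o4] at e3
  refine e3.trans ?_
  rw [add_zero, add_zero, ← WithTop.coe_add]
  rfl

end Pool.Agent.NH4.ZS
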