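import Pool.Agent.NH4.ZS.Stm

/-!
# ZS-ZO2: the orders at `2, 3, …`
-/

set_option autoImplicit false

open Filter Topology

namespace Pool.Agent.NH4.ZS

namespace ZO2

lemma diff_cpow {p : ℕ} (hp : p ≠ 0) {g : ℂ → ℂ} (hg : Differentiable ℂ g) :
    Differentiable ℂ fun s => (p : ℂ) ^ (g s) :=
  fun s => (hg s).const_cpow (Or.inl (Nat.cast_ne_zero.2 hp))

lemma diff_one_sub {p : ℕ} (hp : p ≠ 0) : Differentiable ℂ fun s : ℂ => 1 - (p : ℂ) ^ (1 - s) :=
  (differentiable_const 1).sub (diff_cpow hp (by fun_prop))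

lemma diff_ef (a b : ℤ) {p : ℕ} (hp : p ≠ 0) : Differentiable ℂ (ef a b p) := by
  have h1 : Differentiable ℂ fun s : ℂ => (p : ℂ) ^ (-s) := diff_cpow hp (by fun_prop)
  have h2 : Differentiable ℂ fun s : ℂ => (p : ℂ) ^ (1 - 2 * s) := diff_cpow hp (by fun_prop)
  exact ((differentiable_const 1).sub ((differentiable_const _).mul h1)).add h2

lemma diff_prod {t : Finset ℕ} {g : ℕ → ℂ → ℂ} (h : ∀ p ∈ t, Differentiable ℂ (g p)) :
    Differentiable ℂ fun s => ∏ p ∈ t, g p s := by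
  classical
  induction t using Finset.induction_on with
  | empty => simp
  | insert a t ha ih =>
    have : (fun s => ∏ p ∈ insert a t, g p s) = fun s => g a s * ∏ p ∈ t, g p s := by
      funext s
      rw [Finset.prod_insert ha]
    rw [this]
    exact (h a (Finset.mem_insert_self _ _)).mul (ih fun p hp => h p (Finset.mem_insert_of_mem hp))

lemma one_sub_ne {p m : ℕ} (hp : 2 ≤ p) (hm : 2 ≤ m) : (1 : ℂ) - (p : ℂ) ^ (1 - (m : ℂ)) ≠ 0 := by
  have hp0 : (p : ℂ) ≠ 0 := by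
    have : p ≠ 0 := by omega
    exact_mod_cast this
  have hpR : (2 : ℝ) ≤ p := by exact_mod_cast hp
  rw [Complex.cpow_sub _ _ hp0, Complex.cpow_one, Complex.cpow_natCast]
  have h1 : (1 : ℝ) - (p : ℝ) / (p : ℝ) ^ m ≠ 0 := by
    have h2 : (p : ℝ) / (p : ℝ) ^ m < 1 := by
      rw [div_lt_one (by positivity)]
      calc (p : ℝ) = (p : ℝ) ^ 1 := (pow_one _).symm
        _ < (p : ℝ) ^ m := pow_lt_pow_right₀ (by linarith) (by omega)
    exact (sub_pos.2 h2).ne'
  intro h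
  apply h1
  have h3 : (((1 : ℝ) - (p : ℝ) / (p : ℝ) ^ m : ℝ) : ℂ) = 0 := by
    push_cast
    exact h
  exact_mod_cast h3

lemma ef_ne (a b : ℤ) {p m : ℕ} (hp : 2 ≤ p) (hm : 2 ≤ m) : ef a b p (m : ℂ) ≠ 0 := by
  have hp0 : (p : ℂ) ≠ 0 := by
    have : p ≠ 0 := by omega
    exact_mod_cast this
  have hpR : (2 : ℝ) ≤ p := by exact_mod_cast hp
  unfold ef
  have e1 : (2 : ℂ) * (m : ℂ) = ((2 * m : ℕ) : ℂ) := by push_cast; ring
  rw [Complex.cpow_sub _ _ hp0, Complex.cpow_one, Complex.cpow_neg, Complex.cpow_natCast, e1,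
    Complex.cpow_natCast]
  have h1 : (0 : ℝ) < 1 - ((p : ℝ) - (np a b p : ℝ)) * ((p : ℝ) ^ m)⁻¹ + (p : ℝ) / (p : ℝ) ^ (2 * m) := by
    have h2 : ((p : ℝ) - (np a b p : ℝ)) * ((p : ℝ) ^ m)⁻¹ ≤ 1 := by
      rw [← div_eq_mul_inv, div_le_one (by positivity)]
      calc (p : ℝ) - (np a b p : ℝ) ≤ p := sub_le_self _ (Nat.cast_nonneg _)
        _ = (p : ℝ) ^ 1 := (pow_one _).symm
        _ ≤ (p : ℝ) ^ m := pow_le_pow_right₀ (by linarith) (by omega)
    have h3 : (0 : ℝ) < (p : ℝ) / (p : ℝ) ^ (2 * m) := by positivity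
    linarith
  intro h
  apply h1.ne'
  have h3 : ((1 - ((p : ℝ) - (np a b p : ℝ)) * ((p : ℝ) ^ m)⁻¹ + (p : ℝ) / (p : ℝ) ^ (2 * m) : ℝ) :
      ℂ) = 0 := by
    push_cast
    exact h
  exact_mod_cast h3

/-- the nonzero analytic factors -/
lemma rest (N : ℕ) (a b : ℤ) {F : ℂ → ℂ} (hF : Differentiable ℂ F) {m : ℕ} (hm : 2 ≤ m)
    (hFm : F m ≠ 0) : ∃ A B : ℂ → ℂ, AnalyticAt ℂ A m ∧ AnalyticAt ℂ B m ∧ A m ≠ 0 ∧ B m ≠ 0 ∧
      ∀ s, Zf N a b F s = A s * riemannZeta (s - 1) * B s := by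
  have hp : ∀ p ∈ N.primeFactors, 2 ≤ p := fun p h => (Nat.prime_of_mem_primeFactors h).two_le
  have hq : ∀ p ∈ eP N a b, 2 ≤ p := fun p h => hp p (Finset.mem_filter.1 h).1
  have dE : Differentiable ℂ fun s => ∏ p ∈ eP N a b, ef a b p s :=
    diff_prod fun p h => diff_ef a b (by have := hq p h; omega)
  have nE : ∏ p ∈ eP N a b, ef a b p (m : ℂ) ≠ 0 :=
    Finset.prod_ne_zero_iff.2 fun p h => ef_ne a b (hq p h) hm
  refine ⟨fun s => ∏ p ∈ N.primeFactors, (1 - (p : ℂ) ^ (1 - s)),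
    fun s => (∏ p ∈ eP N a b, ef a b p s)⁻¹ * (F s)⁻¹, ?_, ?_, ?_, ?_, ?_⟩
  · exact (diff_prod fun p h => diff_one_sub (by have := hp p h; omega)).analyticAt _
  · exact ((dE.analyticAt _).inv nE).mul ((hF.analyticAt _).inv hFm)
  · exact Finset.prod_ne_zero_iff.2 fun p h => one_sub_ne (hp p h) hm
  · exact mul_ne_zero (inv_ne_zero nE) (inv_ne_zero hFm)
  · intro s
    unfold Zf
    rw [Finset.prod_inv_distrib]
    ring

/-- `(s - 2) ζ(s - 1)` with the value `1` at `2` -/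
noncomputable def G : ℂ → ℂ := Function.update (fun s => (s - 2) * riemannZeta (s - 1)) 2 1

lemma G_two : G 2 = 1 := Function.update_self _ _ _

lemma G_ne {s : ℂ} (h : s ≠ 2) : G s = (s - 2) * riemannZeta (s - 1) := Function.update_of_ne h _ _

lemma G_an : AnalyticAt ℂ G 2 := by
  refine Complex.analyticAt_of_differentiable_on_punctured_nhds_of_continuousAt ?_ ?_
  · filter_upwards [self_mem_nhdsWithin] with s hs
    have hs' : s ≠ 2 := hs
    have h1 : DifferentiableAt ℂ (fun s : ℂ => (s - 2) * riemannZeta (s - 1)) s := by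
      refine (by fun_prop : DifferentiableAt ℂ (fun s : ℂ => s - 2) s).mul ?_
      have h2 : DifferentiableAt ℂ riemannZeta (s - 1) := differentiableAt_riemannZeta (by
        intro h
        apply hs'
        linear_combination h)
      exact h2.comp s (by fun_prop)
    refine h1.congr_of_eventuallyEq ?_
    filter_upwards [isOpen_ne.mem_nhds hs'] with t ht
    exact G_ne ht
  · refine continuousAt_update_same.2 ?_
    have h1 : Tendsto (fun s : ℂ => s - 1) (𝓝[≠] 2) (𝓝[≠] 1) := by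
      refine tendsto_nhdsWithin_iff.2 ⟨?_, ?_⟩
      · have h2 : Tendsto (fun s : ℂ => s - 1) (𝓝 2) (𝓝 (2 - 1)) := by
          exact (continuous_id.sub continuous_const).tendsto 2
        rw [show (2 : ℂ) - 1 = 1 by norm_num] at h2
        exact h2.mono_left nhdsWithin_le_nhds
      · filter_upwards [self_mem_nhdsWithin] with s hs
        have hs' : s ≠ 2 := hs
        intro h
        apply hs'
        have h3 : s - 1 = 1 := h
        linear_combination h3
    have h2 := riemannZeta_residue_one.comp h1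
    refine h2.congr fun s => ?_
    show (s - 1 - 1) * riemannZeta (s - 1) = (s - 2) * riemannZeta (s - 1)
    ring

end ZO2

open ZO2 in
/-- **ZO2** -/
theorem t_ZO2 : S_ZO2 := by
  intro N a b hN F hF hFm
  constructor
  · obtain ⟨A, B, hA, hB, hA0, hB0, hZ⟩ := rest N a b hF le_rfl (hFm 2 le_rfl)
    rw [Nat.cast_ofNat] at hA hB hA0 hB0
    have hg : AnalyticAt ℂ (fun s => A s * G s * B s) 2 := (hA.mul G_an).mul hB
    have hg0 : A 2 * G 2 * B 2 ≠ 0 := by
      rw [G_two, mul_one]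
      exact mul_ne_zero hA0 hB0
    have he : (fun s : ℂ => (s - 2) ^ (-1 : ℤ) • (A s * G s * B s)) =ᶠ[𝓝[≠] 2] Zf N a b F := by
      filter_upwards [self_mem_nhdsWithin] with s hs
      have hs' : s ≠ 2 := hs
      have h2 : s - 2 ≠ 0 := sub_ne_zero.2 hs'
      rw [hZ s, G_ne hs', smul_eq_mul, zpow_neg_one]
      field_simp
    have hm : MeromorphicAt (Zf N a b F) 2 := by
      refine MeromorphicAt.congr ?_ he
      exact (((MeromorphicAt.id 2).sub (MeromorphicAt.const 2 2)).zpow (-1)).smul hg.meromorphicAt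
    exact (meromorphicOrderAt_eq_int_iff hm).2 ⟨_, hg, hg0, he.symm⟩
  · intro m hm
    obtain ⟨A, B, hA, hB, hA0, hB0, hZ⟩ := rest N a b hF hm.le (hFm m hm.le)
    have hre : (1 : ℝ) < ((m : ℂ) - 1).re := by
      have h1 : ((m : ℂ) - 1).re = (m : ℝ) - 1 := by simp
      have h2 : (3 : ℝ) ≤ m := by exact_mod_cast hm
      rw [h1]
      linarith
    have h1 : (m : ℂ) - 1 ≠ 1 := by
      intro h
      rw [h] at hre
      norm_num at hre
    have hz : AnalyticAt ℂ (fun s : ℂ => riemannZeta (s - 1)) m := by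
      have h2 : AnalyticAt ℂ riemannZeta ((m : ℂ) - 1) := analyticOn_riemannZeta _ h1
      exact AnalyticAt.fun_comp h2 (analyticAt_id.sub analyticAt_const)
    have hg : AnalyticAt ℂ (fun s => A s * riemannZeta (s - 1) * B s) m := (hA.mul hz).mul hB
    have hg0 : A m * riemannZeta ((m : ℂ) - 1) * B m ≠ 0 :=
      mul_ne_zero (mul_ne_zero hA0 (riemannZeta_ne_zero_of_one_lt_re hre)) hB0
    have he : Zf N a b F = fun s => A s * riemannZeta (s - 1) * B s := funext hZ
    rw [he]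
    refine (meromorphicOrderAt_eq_int_iff hg.meromorphicAt).2 ⟨_, hg, hg0, ?_⟩
    exact Eventually.of_forall fun s => by rw [zpow_zero, one_smul]

end Pool.Agent.NH4.ZS
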