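import Pool.Agent.NH4.ZS.Stm

/-!
# Project ZS: the Euler product of the zeta function of the surface
-/

set_option autoImplicit false

namespace Pool.Agent.NH4.ZS

namespace Zpr

/-- at most two `y` for every `x` -/
theorem np_le (a b : ℤ) {p : ℕ} (hp : p.Prime) : np a b p ≤ 2 * p := by
  classical
  haveI : Fact p.Prime := ⟨hp⟩
  unfold np
  rw [Nat.card_eq_fintype_card, Fintype.card_subtype]
  have h := Finset.card_le_mul_card_image_of_maps_to
    (s := Finset.univ.filter fun q : ZMod p × ZMod p =>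
      q.2 ^ 2 = q.1 ^ 3 + (a : ZMod p) * q.1 + (b : ZMod p))
    (t := (Finset.univ : Finset (ZMod p))) (f := Prod.fst) (fun _ _ => Finset.mem_univ _) 2 ?_
  · rwa [Finset.card_univ, ZMod.card] at h
  · intro x _
    by_cases he : ((Finset.univ.filter fun q : ZMod p × ZMod p =>
      q.2 ^ 2 = q.1 ^ 3 + (a : ZMod p) * q.1 + (b : ZMod p)).filter fun q => q.1 = x) = ∅
    · rw [he]
      simp
    · obtain ⟨q0, hq0⟩ := Finset.nonempty_iff_ne_empty.2 he
      simp only [Finset.mem_filter, Finset.mem_univ, true_and] at hq0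
      have hsub : ((Finset.univ.filter fun q : ZMod p × ZMod p =>
          q.2 ^ 2 = q.1 ^ 3 + (a : ZMod p) * q.1 + (b : ZMod p)).filter fun q => q.1 = x) ⊆
          {(x, q0.2), (x, -q0.2)} := by
        intro q hq
        simp only [Finset.mem_filter, Finset.mem_univ, true_and] at hq
        have h2 : q.2 ^ 2 = q0.2 ^ 2 := by rw [hq.1, hq0.1, hq.2, hq0.2]
        rcases sq_eq_sq_iff_eq_or_eq_neg.1 h2 with h3 | h3
        · have : q = (x, q0.2) := Prod.ext hq.2 h3
          rw [this]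
          simp
        · have : q = (x, -q0.2) := Prod.ext hq.2 h3
          rw [this]
          simp
      exact (Finset.card_le_card hsub).trans Finset.card_le_two

theorem norm_sub_le (a b : ℤ) {p : ℕ} (hp : p.Prime) : ‖(p : ℂ) - (np a b p : ℂ)‖ ≤ (p : ℝ) := by
  have h := np_le a b hp
  have h1 : (np a b p : ℝ) ≤ 2 * (p : ℝ) := by exact_mod_cast h
  have h2 : (0 : ℝ) ≤ (np a b p : ℝ) := Nat.cast_nonneg _
  have h3 : (p : ℂ) - (np a b p : ℂ) = (((p : ℝ) - (np a b p : ℝ) : ℝ) : ℂ) := by push_cast; rfl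
  rw [h3, Complex.norm_real, Real.norm_eq_abs, abs_le]
  constructor <;> linarith

theorem norm_ef (a b : ℤ) {p : ℕ} (hp : p.Prime) {s : ℂ} (hs : 2 < s.re) :
    ‖ef a b p s - 1‖ ≤ (p : ℝ) ^ (1 - s.re) + (p : ℝ) ^ (1 - 2 * s.re) := by
  have hp0 : (0 : ℝ) < p := by exact_mod_cast hp.pos
  have e : ef a b p s - 1 = -(((p : ℂ) - (np a b p : ℂ)) * (p : ℂ) ^ (-s)) + (p : ℂ) ^ (1 - 2 * s) := by
    unfold ef
    ring
  rw [e]
  refine (norm_add_le _ _).trans ?_
  rw [norm_neg, norm_mul, Complex.norm_natCast_cpow_of_pos hp.pos,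
    Complex.norm_natCast_cpow_of_pos hp.pos]
  have e1 : (1 - 2 * s : ℂ).re = 1 - 2 * s.re := by simp
  have e2 : (p : ℝ) ^ (1 - s.re) = (p : ℝ) * (p : ℝ) ^ (-s.re) := by
    rw [sub_eq_add_neg, Real.rpow_add hp0, Real.rpow_one]
  rw [e1, e2, Complex.neg_re]
  gcongr
  exact norm_sub_le a b hp

theorem rpow_lt_half {p : ℕ} (hp : p.Prime) {t : ℝ} (ht : t < -1) : (p : ℝ) ^ t < 1 / 2 := by
  have hp2 : (2 : ℝ) ≤ p := by exact_mod_cast hp.two_le
  have h1 : (p : ℝ) ^ t < (p : ℝ) ^ (-1 : ℝ) := Real.rpow_lt_rpow_of_exponent_lt (by linarith) ht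
  rw [Real.rpow_neg_one] at h1
  refine h1.trans_le ?_
  rw [one_div]
  exact inv_anti₀ (by norm_num) hp2

theorem ef_ne (a b : ℤ) {p : ℕ} (hp : p.Prime) {s : ℂ} (hs : 2 < s.re) : ef a b p s ≠ 0 := by
  intro h
  have h1 := norm_ef a b hp hs
  rw [h, zero_sub, norm_neg, norm_one] at h1
  have h2 := rpow_lt_half hp (t := 1 - s.re) (by linarith)
  have h3 := rpow_lt_half hp (t := 1 - 2 * s.re) (by linarith)
  linarith

theorem one_sub_ne {p : ℕ} (hp : p.Prime) {s : ℂ} (hs : 2 < s.re) : 1 - (p : ℂ) ^ (1 - s) ≠ 0 := by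
  intro h
  have h1 : (p : ℂ) ^ (1 - s) = 1 := (sub_eq_zero.1 h).symm
  have h2 := congrArg norm h1
  rw [Complex.norm_natCast_cpow_of_pos hp.pos, norm_one] at h2
  have e1 : (1 - s : ℂ).re = 1 - s.re := by simp
  have h3 := rpow_lt_half hp (t := 1 - s.re) (by linarith)
  rw [e1] at h2
  linarith

open Classical in
/-- the good Euler factors -/
noncomputable def g (a b : ℤ) (s : ℂ) (p : ℕ) : ℂ :=
  if p.Prime ∧ ¬ ((p : ℤ) ∣ 2 * (4 * a ^ 3 + 27 * b ^ 2)) then ef a b p s else 1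

open Classical in
/-- the factors of the zeta function -/
noncomputable def h (s : ℂ) (p : ℕ) : ℂ := if p.Prime then (1 - (p : ℂ) ^ (1 - s))⁻¹ else 1

open Classical in
/-- the correction at the primes dividing `N` -/
noncomputable def c (N : ℕ) (a b : ℤ) (s : ℂ) (p : ℕ) : ℂ :=
  if p ∈ N.primeFactors then (1 - (p : ℂ) ^ (1 - s)) *
    (if ¬ ((p : ℤ) ∣ 2 * (4 * a ^ 3 + 27 * b ^ 2)) then (ef a b p s)⁻¹ else 1) else 1

open Classical in
/-- the factors of the answer -/
noncomputable def k (N : ℕ) (a b : ℤ) (s : ℂ) (p : ℕ) : ℂ :=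
  if p.Prime ∧ ¬ p ∣ N then lf a b p s else 1

theorem g_ne (a b : ℤ) {s : ℂ} (hs : 2 < s.re) (p : ℕ) : g a b s p ≠ 0 := by
  unfold g
  split_ifs with h
  · exact ef_ne a b h.1 hs
  · exact one_ne_zero

theorem summable_g (a b : ℤ) {s : ℂ} (hs : 2 < s.re) : Summable fun p => ‖g a b s p - 1‖ := by
  have h1 : Summable fun p : ℕ => 2 * (p : ℝ) ^ (1 - s.re) :=
    (Real.summable_nat_rpow.2 (by linarith)).mul_left 2
  refine Summable.of_nonneg_of_le (fun _ => norm_nonneg _) (fun p => ?_) h1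
  have h0 : (0 : ℝ) ≤ (p : ℝ) ^ (1 - s.re) := Real.rpow_nonneg (Nat.cast_nonneg _) _
  unfold g
  split_ifs with h
  · refine (norm_ef a b h.1 hs).trans ?_
    have h2 : (p : ℝ) ^ (1 - 2 * s.re) ≤ (p : ℝ) ^ (1 - s.re) :=
      Real.rpow_le_rpow_of_exponent_le (by exact_mod_cast h.1.one_lt.le) (by linarith)
    linarith
  · rw [sub_self, norm_zero]
    linarith

theorem multipliable_g (a b : ℤ) {s : ℂ} (hs : 2 < s.re) : Multipliable (g a b s) := by
  have h := multipliable_one_add_of_summable (summable_g a b hs)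
  refine h.congr fun p => ?_
  ring

theorem prod_g (a b : ℤ) {F : ℂ → ℂ} (hF : IsL a b F) {s : ℂ} (hs : 2 < s.re) :
    HasProd (g a b s) (F s)⁻¹ := by
  have h1 := (multipliable_g a b hs).hasProd
  have h2 := hF.2 s (by linarith)
  have h3 : HasProd (fun p => (g a b s p)⁻¹) (F s) := by
    refine h2.congr_fun fun p => ?_
    have hd : ((p : ℤ) ∣ 2 * (-4 * a ^ 3 - 27 * b ^ 2)) ↔ ((p : ℤ) ∣ 2 * (4 * a ^ 3 + 27 * b ^ 2)) := by
      have e : 2 * (-4 * a ^ 3 - 27 * b ^ 2) = -(2 * (4 * a ^ 3 + 27 * b ^ 2)) := by ring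
      rw [e, dvd_neg]
    unfold g
    by_cases hg : p.Prime ∧ ¬ (p : ℤ) ∣ 2 * (4 * a ^ 3 + 27 * b ^ 2)
    · rw [if_pos hg, if_pos (by rwa [hd])]
      rfl
    · rw [if_neg hg, if_neg (by rwa [hd]), inv_one]
  have h4 := h1.mul h3
  have h5 : (fun p => g a b s p * (g a b s p)⁻¹) = fun _ => 1 :=
    funext fun p => mul_inv_cancel₀ (g_ne a b hs p)
  rw [h5] at h4
  have h6 : (∏' p, g a b s p) * F s = 1 := h4.unique hasProd_one
  rwa [eq_inv_of_mul_eq_one_left h6] at h1

theorem prod_h {s : ℂ} (hs : 2 < s.re) : HasProd (h s) (riemannZeta (s - 1)) := by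
  have h1 := riemannZeta_eulerProduct_hasProd (s := s - 1) (by rw [Complex.sub_re, Complex.one_re]; linarith)
  have h2 := (Function.Injective.hasProd_iff (f := h s) (a := riemannZeta (s - 1))
    (g := fun p : Nat.Primes => (p : ℕ)) Subtype.val_injective ?_).1 ?_
  · exact h2
  · intro p hp
    unfold h
    rw [if_neg]
    intro hp'
    exact hp ⟨⟨p, hp'⟩, rfl⟩
  · refine h1.congr_fun fun p => ?_
    show h s p.1 = _
    unfold h
    rw [if_pos p.2]
    have e : -(s - 1) = 1 - s := by ring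
    rw [e]

theorem prod_c (N : ℕ) (a b : ℤ) (s : ℂ) : HasProd (c N a b s)
    ((∏ p ∈ N.primeFactors, (1 - (p : ℂ) ^ (1 - s))) * ∏ p ∈ eP N a b, (ef a b p s)⁻¹) := by
  have h1 : HasProd (c N a b s) (∏ p ∈ N.primeFactors, c N a b s p) :=
    hasProd_prod_of_ne_finset_one fun p hp => by unfold c; rw [if_neg hp]
  have e : (∏ p ∈ N.primeFactors, c N a b s p) =
      (∏ p ∈ N.primeFactors, (1 - (p : ℂ) ^ (1 - s))) * ∏ p ∈ eP N a b, (ef a b p s)⁻¹ := by
    unfold eP
    rw [Finset.prod_filter, ← Finset.prod_mul_distrib]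
    refine Finset.prod_congr rfl fun p hp => ?_
    unfold c
    rw [if_pos hp]
  rwa [e] at h1

theorem prod_k {N : ℕ} {a b : ℤ} (hN : OkN N a b) {F : ℂ → ℂ} (hF : IsL a b F) {s : ℂ}
    (hs : 2 < s.re) : HasProd (k N a b s) (Zf N a b F s) := by
  have h1 := ((prod_c N a b s).mul (prod_h hs)).mul (prod_g a b hF hs)
  have e : (fun p => c N a b s p * h s p * g a b s p) = k N a b s := by
    funext p
    by_cases hp : p.Prime
    · have hne := ef_ne a b hp hs
      have hne' := one_sub_ne hp hs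
      by_cases hd : p ∣ N
      · have hm : p ∈ N.primeFactors := Nat.mem_primeFactors.2 ⟨hp, hd, hN.1.ne'⟩
        unfold c h g k
        have hk : ¬ (p.Prime ∧ ¬ p ∣ N) := fun hh => hh.2 hd
        rw [if_pos hm, if_pos hp, if_neg hk]
        by_cases hb : (p : ℤ) ∣ 2 * (4 * a ^ 3 + 27 * b ^ 2)
        · have hg : ¬ (p.Prime ∧ ¬ (p : ℤ) ∣ 2 * (4 * a ^ 3 + 27 * b ^ 2)) := fun hh => hh.2 hb
          rw [if_neg (not_not.2 hb), if_neg hg]
          field_simp
        · rw [if_pos hb, if_pos ⟨hp, hb⟩]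
          field_simp
      · have hb : ¬ (p : ℤ) ∣ 2 * (4 * a ^ 3 + 27 * b ^ 2) := fun hh => hd (hN.2.2 p hp hh)
        have hm : p ∉ N.primeFactors := fun hh => hd (Nat.dvd_of_mem_primeFactors hh)
        unfold c h g k
        rw [if_neg hm, if_pos hp, if_pos ⟨hp, hb⟩, if_pos ⟨hp, hd⟩]
        unfold lf ef
        rw [one_mul, div_eq_mul_inv, mul_comm]
    · have hm : p ∉ N.primeFactors := fun hh => hp (Nat.prime_of_mem_primeFactors hh)
      unfold c h g k
      rw [if_neg hm, if_neg hp, if_neg (fun hh => hp hh.1), if_neg (fun hh => hp hh.1)]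
      ring
  rw [e] at h1
  convert h1 using 1
  unfold Zf
  ring

end Zpr

open Zpr

theorem t_ZPR : S_ZPR := by
  intro N a b hN F hF s hs
  have h1 := prod_k hN hF hs
  have h2 := (Function.Injective.hasProd_iff (f := k N a b s) (a := Zf N a b F s)
    (g := fun p : Pr N => (p : ℕ)) Subtype.val_injective ?_).2 h1
  · have e : (k N a b s ∘ fun p : Pr N => (p : ℕ)) = fun p : Pr N => lf a b p.1 s := by
      funext p
      show k N a b s p.1 = _
      unfold k
      rw [if_pos p.2]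
    rw [e] at h2
    exact h2.tprod_eq.symm
  · intro p hp
    unfold k
    rw [if_neg]
    intro hp'
    exact hp ⟨⟨p, hp'⟩, rfl⟩

end Pool.Agent.NH4.ZS
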