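import Pool.Agent.NH4.ZS.Clf
import Pool.Agent.NH4.ZS.Clq
import Pool.Agent.NH4.ZS.Cnt
import Pool.Agent.NH4.ZS.Eug
import Pool.Agent.NH4.ZS.Fib
import Pool.Agent.NH4.ZS.Fil
import Pool.Agent.NH4.ZS.Fty
import Pool.Agent.NH4.ZS.Gen
import Pool.Agent.NH4.ZS.Glb
import Pool.Agent.NH4.ZS.Loc
import Pool.Agent.NH4.ZS.Mul
import Pool.Agent.NH4.ZS.Prm
import Pool.Agent.NH4.ZS.Sep
import Pool.Agent.NH4.ZS.Spc
import Pool.Agent.NH4.ZS.Uni
import Pool.Agent.NH4.ZS.Uzn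
import Pool.Agent.NH4.ZS.Vri
import Pool.Agent.NH4.ZS.Vrt
import Pool.Agent.NH4.ZS.Zme
import Pool.Agent.NH4.ZS.Znv
import Pool.Agent.NH4.ZS.Zo1
import Pool.Agent.NH4.ZS.Zo2
import Pool.Agent.NH4.ZS.Zpr

/-!
# Project ZS: the theorem for one surface
-/

set_option autoImplicit false

open AlgebraicGeometry

namespace Pool.Agent.NH4.ZS

/-- the Euler product over the closed points -/
noncomputable def epr (X : Scheme.{0}) (s : ℂ) : ℂ :=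
  ∏' x : {x : X // IsClosed ({x} : Set X)}, (1 - ((Nat.card (X.residueField x.1) : ℂ) ^ (-s)))⁻¹

/-- the continuation and the orders -/
theorem one_surface (hD : S_DED) {N : ℕ} {a b : ℤ} (hN : OkN N a b) {F : ℂ → ℂ} (hF : IsL a b F)
    {r : ℕ} (hr : analyticOrderAt F 1 = r) :
    ∃ Z : ℂ → ℂ, MeromorphicOn Z Set.univ ∧
      (∃ σ : ℝ, ∀ s : ℂ, σ < s.re → Z s = epr (Spec (CommRingCat.of (RN N a b))) s) ∧
      meromorphicOrderAt Z 1 = (((N.primeFactors.card : ℤ) - r : ℤ) : WithTop ℤ) ∧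
      meromorphicOrderAt Z 2 = ((-1 : ℤ) : WithTop ℤ) ∧
      ∀ m : ℕ, 2 < m → meromorphicOrderAt Z m = ((0 : ℤ) : WithTop ℤ) := by
  have hL : S_LOC := t_LOC hD (t_CNT hD t_FIL) t_EUG
  obtain ⟨σ, hσ⟩ := t_GLB (t_FIB t_PRM t_FTY) t_MUL t_FTY hL N a b hN
  obtain ⟨h2, h3⟩ := t_ZO2 N a b hN F hF.1 (t_ZNV a b hN.2.1 F hF)
  refine ⟨Zf N a b F, t_ZME N a b F hF.1, ⟨max σ 2, fun s hs => ?_⟩, t_ZO1 N a b hN F hF r hr, h2, h3⟩
  rw [t_ZPR N a b hN F hF s (lt_of_le_of_lt (le_max_right _ _) hs),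
    ← hσ s (lt_of_le_of_lt (le_max_left _ _) hs)]
  exact (t_SPC (RN N a b) s).symm

/-- the units -/
theorem units {N : ℕ} (hN : 0 < N) (a b : ℤ) :
    Module.rank ℤ (Additive (RN N a b)ˣ) = (N.primeFactors.card : Cardinal) :=
  t_UNI t_GEN t_UZN N a b hN

/-- the Picard group -/
theorem pic (hD : S_DED) {N : ℕ} {a b : ℤ} (hN : 0 < N) (hab : 4 * a ^ 3 + 27 * b ^ 2 ≠ 0)
    (h : Finite (wc (a : ℚ) (b : ℚ)).Point) : Finite (CommRing.Pic (RN N a b)) :=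
  t_CLF t_PRM t_GEN (t_VRT t_VRI) (t_CLQ hD) N a b hN hab h

/-- the rank of a finite group -/
theorem rank_finite (G : Type) [CommGroup G] [Finite G] : Module.rank ℤ (Additive G) = (0 : ℕ) := by
  rw [Nat.cast_zero, rank_eq_zero_iff]
  intro x
  refine ⟨(Nat.card G : ℤ), by exact_mod_cast Nat.card_pos.ne', ?_⟩
  show ((Nat.card G : ℤ)) • x = 0
  rw [natCast_zsmul]
  have : (x.toMul) ^ Nat.card G = 1 := pow_card_eq_one'
  exact this

end Pool.Agent.NH4.ZS
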