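import Pool.Agent.NH4.ZS.Stm2

/-!
# Project ZS: the surfaces are smooth over the integers
-/

set_option autoImplicit false

open Polynomial

namespace Pool.Agent.NH4.ZS

namespace Smo45

variable {S : Type} [CommRing S] (a b : S)

theorem pt_aux {B : Type} [CommRing B] [Algebra S B] (x y : B)
    (h : y ^ 2 - (x ^ 3 + algebraMap S B a * x + algebraMap S B b) = 0) :
    (wc a b).polynomial.eval₂ (aeval x : S[X] →ₐ[S] B).toRingHom y = 0 := by
  unfold WeierstrassCurve.Affine.polynomial wc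
  simp only [eval₂_add, eval₂_sub, eval₂_mul, eval₂_pow, eval₂_C, eval₂_X, map_zero, zero_mul,
    add_zero, AlgHom.toRingHom_eq_coe, RingHom.coe_coe, map_add, map_mul, map_pow, aeval_X,
    aeval_C]
  exact h

/-- the point with coordinates in an algebra -/
noncomputable def pt {B : Type} [CommRing B] [Algebra S B] (x y : B)
    (h : y ^ 2 - (x ^ 3 + algebraMap S B a * x + algebraMap S B b) = 0) :
    (wc a b).CoordinateRing →ₐ[S] B where
  toRingHom := AdjoinRoot.lift (aeval x : S[X] →ₐ[S] B).toRingHom y (pt_aux a b x y h)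
  commutes' r := by
    show AdjoinRoot.lift _ _ (pt_aux a b x y h) (AdjoinRoot.of (wc a b).polynomial (C r)) = _
    rw [AdjoinRoot.lift_of]
    exact aeval_C x r

theorem pt_X {B : Type} [CommRing B] [Algebra S B] (x y : B)
    (h : y ^ 2 - (x ^ 3 + algebraMap S B a * x + algebraMap S B b) = 0) :
    pt a b x y h (AdjoinRoot.of (wc a b).polynomial X) = x := by
  show AdjoinRoot.lift _ _ (pt_aux a b x y h) (AdjoinRoot.of (wc a b).polynomial X) = _
  rw [AdjoinRoot.lift_of]
  exact aeval_X x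

theorem pt_Y {B : Type} [CommRing B] [Algebra S B] (x y : B)
    (h : y ^ 2 - (x ^ 3 + algebraMap S B a * x + algebraMap S B b) = 0) :
    pt a b x y h (AdjoinRoot.root (wc a b).polynomial) = y := by
  show AdjoinRoot.lift _ _ (pt_aux a b x y h) (AdjoinRoot.root (wc a b).polynomial) = _
  rw [AdjoinRoot.lift_root]

theorem poly_eq : (wc a b).polynomial = X ^ 2 - C (X ^ 3 + C a * X + C b) := by
  unfold WeierstrassCurve.Affine.polynomial wc
  simp only [map_zero, zero_mul, add_zero]

theorem rel : (AdjoinRoot.root (wc a b).polynomial) ^ 2 -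
    ((AdjoinRoot.of (wc a b).polynomial X) ^ 3 +
      algebraMap S (wc a b).CoordinateRing a * AdjoinRoot.of (wc a b).polynomial X +
      algebraMap S (wc a b).CoordinateRing b) = 0 := by
  have h : AdjoinRoot.mk (wc a b).polynomial (X ^ 2 - C (X ^ 3 + C a * X + C b)) = 0 := by
    rw [← poly_eq]
    exact AdjoinRoot.mk_self
  rw [map_sub, map_pow, AdjoinRoot.mk_X, AdjoinRoot.mk_C, map_add, map_add, map_mul,
    map_pow] at h
  exact h

theorem hom_ext {B : Type} [CommRing B] [Algebra S B] (f g : (wc a b).CoordinateRing →ₐ[S] B)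
    (h1 : f (AdjoinRoot.of (wc a b).polynomial X) = g (AdjoinRoot.of (wc a b).polynomial X))
    (h2 : f (AdjoinRoot.root (wc a b).polynomial) = g (AdjoinRoot.root (wc a b).polynomial)) :
    f = g := by
  have h3 : f.toRingHom.comp (AdjoinRoot.mk (wc a b).polynomial) =
      g.toRingHom.comp (AdjoinRoot.mk (wc a b).polynomial) := by
    apply Polynomial.ringHom_ext
    · intro p
      show f (AdjoinRoot.of (wc a b).polynomial p) = g (AdjoinRoot.of (wc a b).polynomial p)
      induction p using Polynomial.induction_on' with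
      | add p q hp hq => rw [map_add, map_add, map_add, hp, hq]
      | monomial n r =>
        rw [← C_mul_X_pow_eq_monomial, map_mul, map_mul, map_mul, map_pow, map_pow, map_pow, h1]
        congr 1
        exact (f.commutes r).trans (g.commutes r).symm
    · exact h2
  apply AlgHom.ext
  intro x
  obtain ⟨p, rfl⟩ := AdjoinRoot.mk_surjective x
  exact congrArg (fun F => F p) h3

/-- the coordinate ring is smooth -/
theorem smooth (e : S) (he : 2 * (4 * a ^ 3 + 27 * b ^ 2) * e = 1) :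
    Algebra.FormallySmooth S (wc a b).CoordinateRing := by
  apply Algebra.FormallySmooth.of_comp_surjective
  intro B _ _ I hI g
  have hsur : Function.Surjective (Ideal.Quotient.mkₐ S I) := Ideal.Quotient.mkₐ_surjective S I
  obtain ⟨x, hx⟩ := hsur (g (AdjoinRoot.of (wc a b).polynomial X))
  obtain ⟨y, hy⟩ := hsur (g (AdjoinRoot.root (wc a b).polynomial))
  obtain ⟨a', ha'⟩ : ∃ a', a' = algebraMap S B a := ⟨_, rfl⟩
  obtain ⟨b', hb'⟩ : ∃ b', b' = algebraMap S B b := ⟨_, rfl⟩
  obtain ⟨e', he'⟩ : ∃ e', e' = algebraMap S B e := ⟨_, rfl⟩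
  have h3 : 2 * (4 * a' ^ 3 + 27 * b' ^ 2) * e' = 1 := by
    have := congrArg (algebraMap S B) he
    simp only [map_mul, map_add, map_pow, map_one, map_ofNat] at this
    rw [ha', hb', he']
    exact this
  obtain ⟨E, hE⟩ : ∃ E, E = y ^ 2 - (x ^ 3 + a' * x + b') := ⟨_, rfl⟩
  have hEI : E ∈ I := by
    rw [← Ideal.Quotient.eq_zero_iff_mem]
    show Ideal.Quotient.mkₐ S I E = 0
    have h4 := congrArg g (rel a b)
    rw [map_zero, map_sub, map_add, map_add, map_mul, map_pow, map_pow, AlgHom.commutes,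
      AlgHom.commutes, ← hx, ← hy] at h4
    rw [hE, ha', hb', map_sub, map_add, map_add, map_mul, map_pow, map_pow, AlgHom.commutes,
      AlgHom.commutes]
    exact h4
  have h2 : E * E = 0 := by
    have : E * E ∈ I ^ 2 := by
      rw [pow_two]
      exact Ideal.mul_mem_mul hEI hEI
    rw [hI] at this
    exact this
  have hE0 : Ideal.Quotient.mkₐ S I E = 0 := Ideal.Quotient.eq_zero_iff_mem.2 hEI
  obtain ⟨A, hA⟩ : ∃ A, A = 27 * b' - 18 * a' * x := ⟨_, rfl⟩
  obtain ⟨Q, hQ⟩ : ∃ Q, Q = 6 * a' * x ^ 2 - 9 * b' * x + 4 * a' ^ 2 := ⟨_, rfl⟩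
  have key : (y - e' * A * y * E) ^ 2 - ((x + 2 * e' * Q * E) ^ 3 + a' * (x + 2 * e' * Q * E) + b') =
      0 := by
    subst hA hQ
    linear_combination (-(1 - 2 * e' * (27 * b' - 18 * a' * x) * E)) * hE +
      (e' ^ 2 * (27 * b' - 18 * a' * x) ^ 2 * y ^ 2 -
        12 * e' ^ 2 * x * (6 * a' * x ^ 2 - 9 * b' * x + 4 * a' ^ 2) ^ 2 -
        2 * e' * (27 * b' - 18 * a' * x) -
        8 * e' ^ 3 * (6 * a' * x ^ 2 - 9 * b' * x + 4 * a' ^ 2) ^ 3 * E) * h2 - E * h3
  have key' : (y - e' * A * y * E) ^ 2 - ((x + 2 * e' * Q * E) ^ 3 +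
      algebraMap S B a * (x + 2 * e' * Q * E) + algebraMap S B b) = 0 := by
    rw [← ha', ← hb']
    exact key
  refine ⟨pt a b (x + 2 * e' * Q * E) (y - e' * A * y * E) key', ?_⟩
  apply hom_ext
  · show Ideal.Quotient.mkₐ S I (pt a b _ _ key' (AdjoinRoot.of (wc a b).polynomial X)) = _
    rw [pt_X, map_add, map_mul, hE0, mul_zero, add_zero, hx]
  · show Ideal.Quotient.mkₐ S I (pt a b _ _ key' (AdjoinRoot.root (wc a b).polynomial)) = _
    rw [pt_Y, map_sub, map_mul, hE0, mul_zero, sub_zero, hy]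

theorem fin_pres [IsNoetherianRing S] : Algebra.FinitePresentation S (wc a b).CoordinateRing := by
  rw [← Algebra.FinitePresentation.of_finiteType]
  have hfin : Module.Finite S[X] (wc a b).CoordinateRing :=
    Module.Finite.of_basis (WeierstrassCurve.Affine.CoordinateRing.basis _)
  have h1 : Algebra.FiniteType S[X] (wc a b).CoordinateRing := inferInstance
  have h2 : Algebra.FiniteType S S[X] := inferInstance
  exact Algebra.FiniteType.trans h2 h1

theorem smooth' [IsNoetherianRing S] (e : S) (he : 2 * (4 * a ^ 3 + 27 * b ^ 2) * e = 1) :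
    Algebra.Smooth S (wc a b).CoordinateRing :=
  { formallySmooth := smooth a b e he
    finitePresentation := fin_pres a b }

theorem dvd_pow {N : ℕ} (hN : 0 < N) {D : ℤ} (hD : D ≠ 0)
    (h : ∀ p : ℕ, p.Prime → (p : ℤ) ∣ D → p ∣ N) : ∃ k : ℕ, D ∣ (N : ℤ) ^ k := by
  refine ⟨D.natAbs, ?_⟩
  have h0 : D.natAbs ≠ 0 := Int.natAbs_ne_zero.2 hD
  rw [← Int.natAbs_dvd]
  have h1 : D.natAbs ∣ N ^ D.natAbs := by
    rw [← Nat.factorization_le_iff_dvd h0 (pow_ne_zero _ hN.ne'), Nat.factorization_pow]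
    intro p
    by_cases hp : p.Prime ∧ p ∣ D.natAbs
    · have h2 : p ∣ N := h p hp.1 (Int.natCast_dvd.2 hp.2)
      have h3 : 1 ≤ N.factorization p := (hp.1.dvd_iff_one_le_factorization hN.ne').1 h2
      have h4 : D.natAbs.factorization p < D.natAbs := Nat.factorization_lt p h0
      show D.natAbs.factorization p ≤ D.natAbs * N.factorization p
      nlinarith
    · have h5 : D.natAbs.factorization p = 0 := by
        rw [Nat.factorization_eq_zero_iff]
        tauto
      rw [h5]
      exact Nat.zero_le _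
  exact_mod_cast h1

end Smo45

open Smo45

theorem t_SMO : S_SMO := by
  intro N a b hN
  have hS : Algebra.Smooth ℤ (ZN N) := Algebra.Smooth.of_isLocalization_Away (N : ℤ)
  obtain ⟨e, he⟩ : ∃ e : ZN N, 2 * (4 * (a : ZN N) ^ 3 + 27 * (b : ZN N) ^ 2) * e = 1 := by
    have hu : IsUnit (algebraMap ℤ (ZN N) (N : ℤ)) :=
      IsLocalization.Away.algebraMap_isUnit (N : ℤ)
    have hd : ∃ k : ℕ, 2 * (4 * a ^ 3 + 27 * b ^ 2) ∣ (N : ℤ) ^ k :=
      dvd_pow hN.1 (mul_ne_zero two_ne_zero hN.2.1) hN.2.2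
    obtain ⟨k, c, hc⟩ := hd
    obtain ⟨u, hu'⟩ := (hu.pow k).exists_right_inv
    refine ⟨algebraMap ℤ (ZN N) c * u, ?_⟩
    rw [← mul_assoc, ← hu', ← map_pow, hc, map_mul]
    simp
  have hnoe : IsNoetherianRing (ZN N) :=
    IsLocalization.isNoetherianRing (Submonoid.powers (N : ℤ)) (ZN N) inferInstance
  have hR : Algebra.Smooth (ZN N) (RN N a b) := smooth' (a : ZN N) (b : ZN N) e he
  exact Algebra.Smooth.comp ℤ (ZN N) (RN N a b)

end Pool.Agent.NH4.ZS
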