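import Pool.Agent.NH4.ZS.Stm

/-!
# Project ZS: geometry of the surfaces
-/

set_option autoImplicit false

open Polynomial

namespace Pool.Agent.NH4.ZS

/-- SMO: the surface is smooth over `ℤ` -/
def S_SMO : Prop := ∀ (N : ℕ) (a b : ℤ), OkN N a b → Algebra.Smooth ℤ (RN N a b)

/-- DIM: the surface has dimension `2` -/
def S_DIM : Prop := ∀ (N : ℕ) (a b : ℤ), 0 < N → ringKrullDim (RN N a b) = 2

end Pool.Agent.NH4.ZS
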