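import Pool.Agent.NH4.ZS.Stm

/-! UZN: the rank of the group of the units of `ℤ[1/N]`. -/

set_option autoImplicit false

namespace Pool.Agent.NH4.ZS

namespace Uzn

variable {N : ℕ}

theorem unitQ (h : 0 < N) : IsUnit ((Int.castRingHom ℚ) (N : ℤ)) := by
  have : ((Int.castRingHom ℚ) (N : ℤ)) ≠ 0 := by
    simp only [eq_intCast, Int.cast_natCast, ne_eq, Nat.cast_eq_zero]
    omega
  exact this.isUnit

/-- the map to `ℚ` -/
noncomputable def io (h : 0 < N) : ZN N →+* ℚ := IsLocalization.Away.lift (N : ℤ) (unitQ h)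

theorem io_alg (h : 0 < N) (a : ℤ) : io h (algebraMap ℤ (ZN N) a) = a := by
  unfold io
  rw [IsLocalization.Away.lift_eq]
  rfl

theorem surj (x : ZN N) : ∃ (n : ℕ) (a : ℤ), x * (algebraMap ℤ (ZN N) (N : ℤ)) ^ n = algebraMap ℤ (ZN N) a := by
  obtain ⟨n, a, h⟩ := IsLocalization.Away.surj (N : ℤ) x
  exact ⟨n, a, by simpa using h⟩

theorem io_inj (h : 0 < N) : Function.Injective (io h) := by
  rw [injective_iff_map_eq_zero]
  intro z hz
  obtain ⟨n, a, hna⟩ := surj z
  have h1 := congrArg (io h) hna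
  rw [map_mul, hz, zero_mul, io_alg] at h1
  have ha : a = 0 := by exact_mod_cast h1.symm
  rw [ha, map_zero] at hna
  have hu : IsUnit ((algebraMap ℤ (ZN N) (N : ℤ)) ^ n) :=
    (IsLocalization.Away.algebraMap_isUnit (N : ℤ)).pow n
  exact (hu.mul_left_eq_zero).1 hna

theorem io_unit (h : 0 < N) (u : (ZN N)ˣ) : io h u ≠ 0 := (u.isUnit.map (io h)).ne_zero

/-- the valuations -/
noncomputable def va (h : 0 < N) : Additive (ZN N)ˣ →+ (N.primeFactors → ℤ) :=
  AddMonoidHom.mk' (fun u p => padicValRat p (io h ((Additive.toMul u : (ZN N)ˣ) : ZN N))) (by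
    intro u v
    funext p
    have : Fact (Nat.Prime (p : ℕ)) := ⟨Nat.prime_of_mem_primeFactors p.2⟩
    show padicValRat p (io h (Additive.toMul (u + v) : (ZN N)ˣ)) = _
    rw [toMul_add, Units.val_mul, map_mul, padicValRat.mul (io_unit h _) (io_unit h _)]
    rfl)

theorem va_nonneg (h : 0 < N) {p : ℕ} (hp : p.Prime) (hpN : ¬ p ∣ N) (x : ZN N) (hx : io h x ≠ 0) :
    0 ≤ padicValRat p (io h x) := by
  have : Fact p.Prime := ⟨hp⟩
  obtain ⟨n, a, hna⟩ := surj x
  have h1 := congrArg (io h) hna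
  rw [map_mul, map_pow, io_alg, io_alg] at h1
  have hN : (((N : ℤ) : ℚ)) ≠ 0 := by
    have : N ≠ 0 := h.ne'
    exact_mod_cast this
  have h2 := congrArg (padicValRat p) h1
  rw [padicValRat.mul hx (pow_ne_zero n hN), padicValRat.pow, padicValRat.of_int,
    padicValRat.of_int] at h2
  have h3 : padicValInt p (N : ℤ) = 0 := by
    rw [padicValInt.of_nat]
    exact padicValNat.eq_zero_of_not_dvd hpN
  rw [h3] at h2
  simp only [Nat.cast_zero, mul_zero, add_zero] at h2
  rw [h2]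
  exact Int.natCast_nonneg _

theorem va_zero (h : 0 < N) {p : ℕ} (hp : p.Prime) (hpN : ¬ p ∣ N) (u : (ZN N)ˣ) :
    padicValRat p (io h u) = 0 := by
  have : Fact p.Prime := ⟨hp⟩
  have h1 := va_nonneg h hp hpN (u : ZN N) (io_unit h u)
  have h2 := va_nonneg h hp hpN ((u⁻¹ : (ZN N)ˣ) : ZN N) (io_unit h u⁻¹)
  have h3 : padicValRat p (io h u * io h ((u⁻¹ : (ZN N)ˣ) : ZN N)) = 0 := by
    rw [← map_mul, Units.mul_inv, map_one]
    exact padicValRat.one
  rw [padicValRat.mul (io_unit h u) (io_unit h u⁻¹)] at h3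
  linarith

theorem rat_one {q : ℚ} (hq : q ≠ 0) (h : ∀ p : ℕ, p.Prime → padicValRat p q = 0) : q ^ 2 = 1 := by
  have hcop : q.num.natAbs.Coprime q.den := q.reduced
  have hnum : q.num.natAbs = 1 := by
    by_contra hc
    obtain ⟨p, hp, hd⟩ := Nat.exists_prime_and_dvd hc
    have : Fact p.Prime := ⟨hp⟩
    have h1 := h p hp
    rw [padicValRat_def] at h1
    have h2 : padicValNat p q.den = 0 := padicValNat.eq_zero_of_not_dvd fun hd' =>
      hp.one_lt.ne' (Nat.dvd_one.1 (hcop ▸ Nat.dvd_gcd hd hd'))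
    have h3 : padicValInt p q.num ≠ 0 := by
      unfold padicValInt
      exact (dvd_iff_padicValNat_ne_zero (by simpa using hq)).1 hd
    omega
  have hden : q.den = 1 := by
    by_contra hc
    obtain ⟨p, hp, hd⟩ := Nat.exists_prime_and_dvd hc
    have : Fact p.Prime := ⟨hp⟩
    have h1 := h p hp
    rw [padicValRat_def] at h1
    have h2 : padicValInt p q.num = 0 := by
      unfold padicValInt
      rw [hnum]
      simp
    have h3 : padicValNat p q.den ≠ 0 := (dvd_iff_padicValNat_ne_zero q.den_nz).1 hd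
    omega
  have h5 : (q.num : ℚ) = q := by
    conv_rhs => rw [← Rat.num_div_den q, hden]
    simp
  rw [← h5]
  rcases Int.natAbs_eq q.num with h6 | h6 <;> rw [h6, hnum] <;> simp

theorem ker_tor (h : 0 < N) (u : Additive (ZN N)ˣ) (hu : va h u = 0) : (2 : ℤ) • u = 0 := by
  have h1 : ∀ p : ℕ, p.Prime → padicValRat p (io h (Additive.toMul u : (ZN N)ˣ)) = 0 := by
    intro p hp
    by_cases hpN : p ∣ N
    · exact congrFun hu ⟨p, Nat.mem_primeFactors.2 ⟨hp, hpN, h.ne'⟩⟩
    · exact va_zero h hp hpN _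
  have h2 := rat_one (io_unit h _) h1
  have h3 : ((Additive.toMul u : (ZN N)ˣ) : ZN N) ^ 2 = 1 := by
    apply io_inj h
    rw [map_pow, h2, map_one]
  have h4 : (Additive.toMul u) ^ 2 = 1 := Units.ext (by push_cast; exact h3)
  show Additive.ofMul ((Additive.toMul u) ^ (2 : ℤ)) = Additive.ofMul 1
  exact congrArg Additive.ofMul (by exact_mod_cast h4)

theorem single_mem (h : 0 < N) (p : N.primeFactors) : ∃ u, va h u = Pi.single p 1 := by
  have hp : Nat.Prime (p : ℕ) := Nat.prime_of_mem_primeFactors p.2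
  obtain ⟨m, hm⟩ : (p : ℕ) ∣ N := Nat.dvd_of_mem_primeFactors p.2
  have hU : IsUnit (algebraMap ℤ (ZN N) ((p : ℕ) : ℤ)) := by
    have h1 : IsUnit (algebraMap ℤ (ZN N) (N : ℤ)) := IsLocalization.Away.algebraMap_isUnit (N : ℤ)
    have h2 : algebraMap ℤ (ZN N) (N : ℤ) =
        algebraMap ℤ (ZN N) ((p : ℕ) : ℤ) * algebraMap ℤ (ZN N) (m : ℤ) := by
      rw [← map_mul]
      congr 1
      exact_mod_cast hm
    rw [h2] at h1
    exact isUnit_of_mul_isUnit_left h1
  obtain ⟨U, hU⟩ := hU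
  refine ⟨Additive.ofMul U, ?_⟩
  funext q
  have : Fact (Nat.Prime (q : ℕ)) := ⟨Nat.prime_of_mem_primeFactors q.2⟩
  show padicValRat q (io h U) = _
  rw [hU, io_alg, padicValRat.of_int]
  rw [padicValInt.of_nat]
  by_cases hqp : q = p
  · subst hqp
    rw [Pi.single_eq_same, padicValNat_self]
    rfl
  · rw [Pi.single_eq_of_ne hqp]
    have : padicValNat (q : ℕ) (p : ℕ) = 0 := by
      refine padicValNat.eq_zero_of_not_dvd fun hd => hqp ?_
      exact Subtype.ext ((Nat.prime_dvd_prime_iff_eq (Fact.out) hp).1 hd)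
    rw [this]
    rfl

theorem va_surj (h : 0 < N) : Function.Surjective (va h) := by
  intro f
  choose U hU using single_mem h
  refine ⟨∑ p, f p • U p, ?_⟩
  rw [map_sum]
  simp only [map_zsmul, hU]
  funext q
  rw [Finset.sum_apply]
  simp [Pi.single_apply]

end Uzn

open Uzn in
theorem t_UZN : S_UZN := by
  intro N h
  set f : Additive (ZN N)ˣ →ₗ[ℤ] (N.primeFactors → ℤ) := (va h).toIntLinearMap with hf
  have h1 := LinearMap.rank_range_add_rank_ker f
  have h2 : Module.rank ℤ (LinearMap.ker f) = 0 := by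
    rw [rank_eq_zero_iff]
    rintro ⟨u, hu⟩
    exact ⟨2, two_ne_zero, Subtype.ext (ker_tor h u (LinearMap.mem_ker.1 hu))⟩
  have h3 : Module.rank ℤ (LinearMap.range f) = (N.primeFactors.card : Cardinal) := by
    rw [LinearMap.range_eq_top.2 (va_surj h), rank_top, rank_fun']
    simp
  rw [← h1, h2, h3, add_zero]

end Pool.Agent.NH4.ZS
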